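import Mathlib
import Pool.Graph.R_pool_sql_team_ae5b0c61.H26.SandsRival

set_option autoImplicit false

/-! Antichains with restricted comparability counts: the version for an arbitrary regular cardinal.
The proof of `main` follows `R_pool_sql_team_ae5b0c61.H26.SandsRival.main` (the case of `ℵ₀`). -/

namespace Pool.Agent.KS6_1.RF.Antichain

open Cardinal Set Pool.Agent.H26.Sched Pool.Agent.H26.SandsRival

variable {P : Type} [PartialOrder P]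

theorem main [WellFoundedLT P] [WellFoundedGT P] (κ : Cardinal.{0}) (hκ : κ.IsRegular)
    (hκP : κ ≤ #P) :
    ∃ H : Set P, κ ≤ #H ∧ IsAntichain (· ≤ ·) H ∧
      ∀ x : P, (H ∩ Nb x).Subsingleton ∨ κ ≤ #(H ∩ Nb x : Set P) := by
  classical
  obtain ⟨K, hK⟩ : ∃ K : Type, #K = κ := ⟨κ.out, Cardinal.mk_out κ⟩
  have hKi : Infinite K := by
    rw [Cardinal.infinite_iff, hK]; exact hκ.aleph0_le
  have hPi : Infinite P := by
    rw [Cardinal.infinite_iff]; exact hκ.aleph0_le.trans hκP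
  obtain ⟨Z, hZ, hZ1, hZ2⟩ := exists_Z (P := P)
  let Good : Set P → Prop := fun D => (#D).IsRegular ∧ D ⊆ Z #D
  have hrob : ∀ ν x, x ∉ Z ν → ∃ D, Good D ∧ ν ≤ #D ∧ D ⊆ Nb x := by
    intro ν x hx
    obtain ⟨μ, h1, h2, h3⟩ := hZ2 ν x hx
    obtain ⟨D, h4, rfl⟩ := Cardinal.le_mk_iff_exists_subset.1 h3
    exact ⟨D, ⟨h2, fun y hy => (h4 hy).2⟩, h1, fun y hy => (h4 hy).1⟩
  obtain ⟨D0, hD0, hκD0⟩ : ∃ D, Good D ∧ κ ≤ #D := by
    by_cases h : ∃ x, x ∉ Z κ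
    · obtain ⟨x, hx⟩ := h
      obtain ⟨D, hD, h1, -⟩ := hrob _ x hx
      exact ⟨D, hD, h1⟩
    · push Not at h
      obtain ⟨D, -, hD⟩ := Cardinal.le_mk_iff_exists_subset.1
        (show κ ≤ #(univ : Set P) by rw [Cardinal.mk_univ]; exact hκP)
      exact ⟨D, ⟨hD ▸ hκ, fun y _ => hD ▸ h y⟩, hD.ge⟩
  have hsp : ∀ (l : Cardinal.{0}) (h : P), ∃ sp : P → Set P, l.IsRegular → h ∈ Z l →
      (∀ q ∈ Nb h \ Z l, Good (sp q) ∧ l ≤ #(sp q) ∧ sp q ⊆ Nb q) ∧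
      ∀ ρ, ρ.IsRegular → l < ρ → #{q | q ∈ Nb h \ Z l ∧ #(sp q) < ρ} < ρ := by
    intro l h
    by_cases hh : l.IsRegular ∧ h ∈ Z l
    swap
    · exact ⟨fun _ => ∅, fun h1 h2 => (hh ⟨h1, h2⟩).elim⟩
    obtain ⟨b, hb1, hb2⟩ := sched Z hZ (max #P l) l (Nb h \ Z l) hh.1 (le_max_right _ _)
      (fun q _ => by
        by_contra hn
        obtain ⟨μ, h1, -, h3⟩ := hZ2 _ q hn
        exact (Order.lt_succ_of_le (le_max_left #P l)).not_ge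
          (h1.trans (h3.trans (Cardinal.mk_set_le _))))
      (fun q hq => hq.2) fun ρ hρ hl =>
        sub_lt (B := Nb h ∩ Z ρ) (fun q hq => ⟨hq.1.1, hq.2⟩) (hZ1 ρ hρ h (hZ hl hh.2))
    have : ∀ q, ∃ D, q ∈ Nb h \ Z l → Good D ∧ b q ≤ #D ∧ D ⊆ Nb q := fun q => by
      by_cases hq : q ∈ Nb h \ Z l
      · obtain ⟨D, hD⟩ := hrob _ q (hb1 q hq).2
        exact ⟨D, fun _ => hD⟩
      · exact ⟨∅, fun h => (hq h).elim⟩
    choose sp hsp using this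
    exact ⟨sp, fun _ _ => ⟨fun q hq => ⟨(hsp q hq).1, (hb1 q hq).1.trans (hsp q hq).2.1,
      (hsp q hq).2.2⟩, fun ρ hρ hl => sub_lt (B := {q | q ∈ Nb h \ Z l ∧ b q < ρ})
        (fun q hq => ⟨hq.1, (hsp q hq.1).2.1.trans_lt hq.2⟩) (hb2 ρ hρ hl)⟩⟩
  choose sp hsp using hsp
  let Sp : Set P → Set (Set P) := fun D => {D' | ∃ h ∈ D, ∃ q ∈ Nb h \ Z #D, sp #D h q = D'}
  have hSp1 : ∀ D, Good D → ∀ D' ∈ Sp D, Good D' ∧ #D ≤ #D' := by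
    rintro D hD _ ⟨h, hh, q, hq, rfl⟩
    have := (hsp _ h hD.1 (hD.2 hh)).1 q hq
    exact ⟨this.1, this.2.1⟩
  have hSp2 : ∀ D, Good D → ∀ ρ, ρ.IsRegular → #D < ρ → #{D' | D' ∈ Sp D ∧ #D' < ρ} < ρ := by
    intro D hD ρ hρ hl
    have h1 : #(⋃ h : D, sp #D h '' {q | q ∈ Nb h.1 \ Z #D ∧ #(sp #D h q) < ρ}) < ρ :=
      (Cardinal.card_iUnion_lt_iff_forall_of_isRegular hρ hl).2 fun h =>
        Cardinal.mk_image_le.trans_lt ((hsp _ h.1 hD.1 (hD.2 h.2)).2 ρ hρ hl)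
    refine sub_lt ?_ h1
    rintro _ ⟨⟨h, hh, q, hq, rfl⟩, h2⟩
    exact mem_iUnion.2 ⟨⟨h, hh⟩, q, ⟨hq, h2⟩, rfl⟩
  let Tn : ℕ → Set (Set P) := fun n => Nat.rec {D0} (fun _ S => ⋃ D ∈ S, Sp D) n
  have hTn : ∀ n, Tn (n + 1) = ⋃ D ∈ Tn n, Sp D := fun _ => rfl
  have hT1 : ∀ n, ∀ D ∈ Tn n, Good D ∧ #D0 ≤ #D := by
    intro n
    induction n with
    | zero =>
      intro D hD
      have e : D = D0 := hD
      rw [e]; exact ⟨hD0, le_rfl⟩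
    | succ n ih =>
      intro D' hD'
      obtain ⟨D, h1, h2⟩ := mem_iUnion₂.1 (hTn n ▸ hD')
      exact ⟨(hSp1 D (ih D h1).1 D' h2).1, (ih D h1).2.trans (hSp1 D (ih D h1).1 D' h2).2⟩
  have hT2 : ∀ ρ, ρ.IsRegular → ∀ n, #{D | D ∈ Tn n ∧ #D < ρ} < ρ := by
    intro ρ hρ n
    induction n with
    | zero =>
      refine sub_lt (B := {D0}) (fun D hD => hD.1) ?_
      rw [Cardinal.mk_singleton]; exact Cardinal.one_lt_aleph0.trans_le hρ.aleph0_le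
    | succ n ih =>
      have h1 : #(⋃ D : {D | D ∈ Tn n ∧ #D < ρ}, {D' | D' ∈ Sp D.1 ∧ #D' < ρ}) < ρ :=
        (Cardinal.card_iUnion_lt_iff_forall_of_isRegular hρ ih).2 fun D =>
          hSp2 D.1 (hT1 n _ D.2.1).1 ρ hρ D.2.2
      refine sub_lt ?_ h1
      rintro D' ⟨h2, h3⟩
      obtain ⟨D, h4, h5⟩ := mem_iUnion₂.1 (hTn n ▸ h2)
      exact mem_iUnion.2 ⟨⟨D, h4, (hSp1 D (hT1 n D h4).1 D' h5).2.trans_lt h3⟩, h5, h3⟩
  let T : Set (Set P × K) := {t | ∃ n, t.1 ∈ Tn n}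
  have hTg : ∀ t ∈ T, Good t.1 := fun t ⟨n, h⟩ => (hT1 n _ h).1
  have hTk : ∀ t ∈ T, #D0 ≤ #t.1 := fun t ⟨n, h⟩ => (hT1 n _ h).2
  have hT3 : ∀ ρ, ρ.IsRegular → #{t | t ∈ T ∧ #t.1 < ρ} < ρ := by
    intro ρ hρ
    rcases le_or_gt ρ κ with h | h
    · exact empty_lt hρ fun t ht => ht.2.not_ge (h.trans (hκD0.trans (hTk t ht.1)))
    have h0 : #ℕ < ρ := by rw [Cardinal.mk_nat]; exact hκ.aleph0_le.trans_lt h
    have h0' : #K < ρ := by rwa [hK]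
    have h1 : #(⋃ n : ℕ, ⋃ k : K, (fun D => (D, k)) '' {D | D ∈ Tn n ∧ #D < ρ}) < ρ :=
      (Cardinal.card_iUnion_lt_iff_forall_of_isRegular hρ h0).2 fun n =>
        (Cardinal.card_iUnion_lt_iff_forall_of_isRegular hρ h0').2 fun k =>
          Cardinal.mk_image_le.trans_lt (hT2 ρ hρ n)
    refine sub_lt ?_ h1
    rintro ⟨D, k⟩ ⟨⟨n, h2⟩, h3⟩
    exact mem_iUnion.2 ⟨n, mem_iUnion.2 ⟨k, D, ⟨h2, h3⟩, rfl⟩⟩
  have hidx : ∀ ν : Cardinal.{0}, ∃ g : Set P × K → Ordinal.{0},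
      InjOn g {t | t ∈ T ∧ #t.1 = ν} ∧ ∀ t ∈ {t | t ∈ T ∧ #t.1 = ν}, (g t).card < ν := by
    intro ν
    refine exists_idx _ ν ?_
    by_cases hν : ℵ₀ ≤ ν
    · exact Order.lt_succ_iff.1 (sub_lt (B := {t | t ∈ T ∧ #t.1 < Order.succ ν})
        (fun t ht => ⟨ht.1, Order.lt_succ_of_le ht.2.le⟩) (hT3 _ (Cardinal.isRegular_succ hν)))
    · rw [Set.eq_empty_of_forall_notMem (s := {t | t ∈ T ∧ #t.1 = ν})
        fun t ht => hν (ht.2 ▸ (hTg t ht.1).1.aleph0_le), Cardinal.mk_emptyCollection]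
      exact bot_le
  choose g hg1 hg2 using hidx
  let r : Set P × K → Set P × K → Prop := fun s t =>
    Prod.Lex (· < ·) (· < ·) (#s.1, g #s.1 s) (#t.1, g #t.1 t)
  have hr : WellFounded r := InvImage.wf (fun s : Set P × K => (#s.1, g #s.1 s))
    (WellFounded.prod_lex wellFounded_lt wellFounded_lt)
  have hr' : ∀ s t, r s t ↔ #s.1 < #t.1 ∨ (#s.1 = #t.1 ∧ g #s.1 s < g #t.1 t) := fun s t =>
    Prod.lex_iff
  have hle : ∀ s t, r s t → #s.1 ≤ #t.1 := fun s t h => by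
    rcases (hr' s t).1 h with h | h
    · exact h.le
    · exact h.1.le
  have htri : ∀ s ∈ T, ∀ t ∈ T, s ≠ t → r s t ∨ r t s := by
    intro s hs t ht hne
    rw [hr', hr']
    rcases lt_trichotomy #s.1 #t.1 with h | h | h
    · exact Or.inl (Or.inl h)
    · rcases lt_trichotomy (g #s.1 s) (g #t.1 t) with h' | h' | h'
      · exact Or.inl (Or.inr ⟨h, h'⟩)
      · rw [h] at h'
        exact (hne (hg1 _ ⟨hs, h⟩ ⟨ht, rfl⟩ h')).elim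
      · exact Or.inr (Or.inr ⟨h.symm, h'⟩)
    · exact Or.inr (Or.inl h)
  have hpred : ∀ t ∈ T, #{s | s ∈ T ∧ r s t} < #t.1 := by
    intro t ht
    have hreg := (hTg t ht).1
    refine sub_lt ?_ (union_lt hreg (hT3 _ hreg)
      ((count_le (hg1 #t.1) (g #t.1 t)).trans_lt (hg2 _ t ⟨ht, rfl⟩)))
    rintro s ⟨h1, h2⟩
    rcases (hr' s t).1 h2 with h | h
    · exact Or.inl ⟨h1, h⟩
    · exact Or.inr ⟨⟨h1, h.1⟩, h.1 ▸ h.2⟩
  let Forb : Cardinal.{0} → P → Set P := fun ν h => ⋃ y : (Nb h ∩ Z ν : Set P), Nb y.1 ∩ Z ν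
  have hForb : ∀ ν, ν.IsRegular → ∀ h ∈ Z ν, #(Forb ν h) < ν := fun ν hν h hh =>
    (Cardinal.card_iUnion_lt_iff_forall_of_isRegular hν (hZ1 ν hν h hh)).2 fun y =>
      hZ1 ν hν y.1 y.2.2
  let pick : Set P → P := fun s => if h : s.Nonempty then h.choose else Classical.arbitrary P
  have hpick : ∀ s : Set P, s.Nonempty → pick s ∈ s := fun s h => by
    simp only [pick, dif_pos h]; exact h.choose_spec
  let f : Set P × K → P := hr.fix fun t ih =>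
    pick {c | c ∈ t.1 ∧ ∀ s (h : r s t), s ∈ T → c ∉ Forb #t.1 (ih s h)}
  have hf : ∀ t, f t = pick {c | c ∈ t.1 ∧ ∀ s, r s t → s ∈ T → c ∉ Forb #t.1 (f s)} :=
    fun t => hr.fix_eq _ t
  have hmain : ∀ t, t ∈ T → f t ∈ t.1 ∧ ∀ s, r s t → s ∈ T → f t ∉ Forb #t.1 (f s) := by
    intro t
    induction t using hr.induction with
    | _ t ih =>
    intro ht
    have hreg := (hTg t ht).1
    have h1 : #(⋃ s : {s | s ∈ T ∧ r s t}, Forb #t.1 (f s.1)) < #t.1 :=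
      (Cardinal.card_iUnion_lt_iff_forall_of_isRegular hreg (hpred t ht)).2 fun s =>
        hForb _ hreg _ (hZ (hle _ _ s.2.2) ((hTg _ s.2.1).2 (ih s.1 s.2.2 s.2.1).1))
    have h2 : {c | c ∈ t.1 ∧ ∀ s, r s t → s ∈ T → c ∉ Forb #t.1 (f s)}.Nonempty := by
      by_contra hn
      refine lt_irrefl _ (sub_lt (fun c hc => ?_) h1)
      by_contra hc'
      exact hn ⟨c, hc, fun s h1 h2 h3 => hc' (mem_iUnion.2 ⟨⟨s, h2, h1⟩, h3⟩)⟩
    have := hpick _ h2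
    rwa [← hf] at this
  have hsep : ∀ s ∈ T, ∀ t ∈ T, r s t → ∀ x, f s ∈ Nb x → f t ∈ Nb x → x ∉ Z #t.1 :=
    fun s hs t ht h x h1 h2 h3 => (hmain t ht).2 s h hs
      (mem_iUnion.2 ⟨⟨x, nb_symm h1, h3⟩, h2, (hTg t ht).2 (hmain t ht).1⟩)
  have hinc : ∀ s ∈ T, ∀ t ∈ T, s ≠ t → ¬ f s ≤ f t := by
    intro s hs t ht hne hle'
    rcases htri s hs t ht hne with h | h
    · exact hsep s hs t ht h (f t) (Or.inr hle') (Or.inl le_rfl) ((hTg t ht).2 (hmain t ht).1)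
    · exact hsep t ht s hs h (f s) (Or.inl hle') (Or.inl le_rfl) ((hTg s hs).2 (hmain s hs).1)
  have hinf : ∀ n, ∀ D ∈ Tn n, κ ≤ #(f '' T ∩ D : Set P) := by
    intro n D hD
    rw [← hK]
    refine Cardinal.mk_le_of_injective (f := fun k : K => (⟨f (D, k),
      ⟨(D, k), ⟨n, hD⟩, rfl⟩, (hmain (D, k) ⟨n, hD⟩).1⟩ : (f '' T ∩ D : Set P))) fun k l e' => ?_
    have e : f (D, k) = f (D, l) := congrArg Subtype.val e'
    by_contra hne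
    exact hinc (D, k) ⟨n, hD⟩ (D, l) ⟨n, hD⟩ (fun h => hne (congrArg Prod.snd h)) (le_of_eq e)
  refine ⟨f '' T, (hinf 0 D0 rfl).trans (Cardinal.mk_le_mk_of_subset inter_subset_left), ?_,
    fun x => ?_⟩
  · rintro _ ⟨s, hs, rfl⟩ _ ⟨t, ht, rfl⟩ hne
    exact hinc s hs t ht fun e => hne (by rw [e])
  · have key : ∀ s ∈ T, ∀ t ∈ T, r s t → f s ∈ Nb x → f t ∈ Nb x →
        κ ≤ #(f '' T ∩ Nb x : Set P) := by
      intro s hs t ht h h1 h2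
      have h3 : x ∉ Z #s.1 := fun h' => hsep s hs t ht h x h1 h2 (hZ (hle s t h) h')
      obtain ⟨n, hn⟩ := hs
      have hs : s ∈ T := ⟨n, hn⟩
      have h4 : sp #s.1 (f s) x ∈ Tn (n + 1) :=
        mem_iUnion₂.2 ⟨s.1, hn, f s, (hmain s hs).1, x, ⟨nb_symm h1, h3⟩, rfl⟩
      exact (hinf (n + 1) _ h4).trans (Cardinal.mk_le_mk_of_subset (inter_subset_inter_right _
        ((hsp _ _ (hTg s hs).1 ((hTg s hs).2 (hmain s hs).1)).1 x ⟨nb_symm h1, h3⟩).2.2))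
    by_contra hn
    rw [not_or, Set.not_subsingleton_iff] at hn
    obtain ⟨_, ⟨⟨s, hs, rfl⟩, h1⟩, _, ⟨⟨t, ht, rfl⟩, h2⟩, hne⟩ := hn.1
    rcases htri s hs t ht (fun e => hne (by rw [e])) with h | h
    · exact hn.2 (key s hs t ht h h1 h2)
    · exact hn.2 (key t ht s hs h h2 h1)


end Pool.Agent.KS6_1.RF.Antichain
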