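import Mathlib
set_option linter.unusedSectionVars false

/-!
A finite binary-Lie ring without a finite basis of identities.
-/

namespace Pool.Agent.KS6_1.BinLie


variable {F : Type} [Field F]


/-- the abelian top -/
abbrev T (F : Type) : Type := Fin 4 → F

/-- the middle layer -/
abbrev K (F : Type) : Type := Fin 4 → F

/-- evaluation data -/
class Ev (F I L : Type) [Field F] [AddCommGroup L] [Module F L] where
  ev : I → L →ₗ[F] T F

/-- The algebras: a top part in `L`, a middle part for every index, and a central part. -/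
def Alg (F I L : Type) : Type := L × (I → K F) × F

section basic

variable {I L : Type} [Fintype I] [AddCommGroup L] [Module F L] [Ev F I L]

instance : AddCommGroup (Alg F I L) := inferInstanceAs (AddCommGroup (L × (I → K F) × F))
instance : Module F (Alg F I L) := inferInstanceAs (Module F (L × (I → K F) × F))

theorem add_fst (a b : Alg F I L) : (a + b).1 = a.1 + b.1 := rfl
theorem add_snd (a b : Alg F I L) (i : I) : (a + b).2.1 i = a.2.1 i + b.2.1 i := rfl
theorem add_thd (a b : Alg F I L) : (a + b).2.2 = a.2.2 + b.2.2 := rfl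

/-- the bilinear form on the top with values in the middle -/
def Bv (x y : T F) : K F := ![0, 0, x 1 * y 2 + x 2 * y 1, x 1 * y 3 + x 3 * y 1]

/-- the involution on the middle -/
def Aop (k : K F) : K F := ![k 2, k 3, k 0, k 1]

/-- the alternating form on the middle -/
def om (k l : K F) : F := k 2 * l 3 + k 3 * l 2

/-- the middle part of a product -/
def mid (x y : T F) (k l : K F) : K F := Bv x y + y 0 • Aop k + x 0 • Aop l

instance : Mul (Alg F I L) :=
  ⟨fun a b => (0, fun i => mid (Ev.ev (F := F) i a.1) (Ev.ev (F := F) i b.1) (a.2.1 i) (b.2.1 i),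
    ∑ i, om (a.2.1 i) (b.2.1 i))⟩

theorem mul_fst (a b : Alg F I L) : (a * b).1 = 0 := rfl
theorem mul_snd (a b : Alg F I L) (i : I) :
    (a * b).2.1 i = mid (Ev.ev (F := F) i a.1) (Ev.ev (F := F) i b.1) (a.2.1 i) (b.2.1 i) := rfl
theorem mul_thd (a b : Alg F I L) : (a * b).2.2 = ∑ i, om (a.2.1 i) (b.2.1 i) := rfl

theorem alg_ext {a b : Alg F I L} (h1 : a.1 = b.1) (h2 : ∀ i, a.2.1 i = b.2.1 i)
    (h3 : a.2.2 = b.2.2) : a = b :=
  Prod.ext h1 (Prod.ext (funext h2) h3)

theorem mid_add_left (x x' y : T F) (k k' l : K F) :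
    mid (x + x') y (k + k') l = mid x y k l + mid x' y k' l := by
  funext j
  fin_cases j <;> simp [mid, Bv, Aop] <;> ring

theorem mid_add_right (x y y' : T F) (k l l' : K F) :
    mid x (y + y') k (l + l') = mid x y k l + mid x y' k l' := by
  funext j
  fin_cases j <;> simp [mid, Bv, Aop] <;> ring

theorem om_add_left (k k' l : K F) : om (k + k') l = om k l + om k' l := by
  simp only [om, Pi.add_apply]; ring

theorem om_add_right (k l l' : K F) : om k (l + l') = om k l + om k l' := by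
  simp only [om, Pi.add_apply]; ring

theorem mid_zero_left (y : T F) (l : K F) : mid 0 y 0 l = 0 := by
  funext j
  fin_cases j <;> simp [mid, Bv, Aop]

theorem mid_zero_right (x : T F) (k : K F) : mid x 0 k 0 = 0 := by
  funext j
  fin_cases j <;> simp [mid, Bv, Aop]

instance : NonUnitalNonAssocRing (Alg F I L) :=
  { (inferInstance : AddCommGroup (Alg F I L)) with
    mul := (· * ·)
    left_distrib := by
      intro a b c
      apply alg_ext
      · rw [add_fst, mul_fst, mul_fst, mul_fst, add_zero]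
      · intro i
        rw [add_snd, mul_snd, mul_snd, mul_snd, add_fst, add_snd, map_add, mid_add_right]
      · rw [add_thd, mul_thd, mul_thd, mul_thd, ← Finset.sum_add_distrib]
        exact Finset.sum_congr rfl (fun i _ => by rw [add_snd, om_add_right])
    right_distrib := by
      intro a b c
      apply alg_ext
      · rw [add_fst, mul_fst, mul_fst, mul_fst, add_zero]
      · intro i
        rw [add_snd, mul_snd, mul_snd, mul_snd, add_fst, add_snd, map_add, mid_add_left]
      · rw [add_thd, mul_thd, mul_thd, mul_thd, ← Finset.sum_add_distrib]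
        exact Finset.sum_congr rfl (fun i _ => by rw [add_snd, om_add_left])
    zero_mul := by
      intro a
      apply alg_ext
      · rfl
      · intro i
        rw [mul_snd]
        change mid (Ev.ev (F := F) i 0) _ 0 _ = 0
        rw [map_zero, mid_zero_left]
      · rw [mul_thd]
        apply Finset.sum_eq_zero
        intro i _
        change om 0 _ = 0
        simp [om]
    mul_zero := by
      intro a
      apply alg_ext
      · rfl
      · intro i
        rw [mul_snd]
        change mid _ (Ev.ev (F := F) i 0) _ 0 = 0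
        rw [map_zero, mid_zero_right]
      · rw [mul_thd]
        apply Finset.sum_eq_zero
        intro i _
        change om _ 0 = 0
        simp [om] }

end basic

/-! ### Two-generated subrings are Lie -/

instance (I : Type) : Ev F I (T F) := ⟨fun _ => LinearMap.id⟩

section lie

variable {I : Type} [Fintype I] [CharP F 2]

/-- the elements of the candidate subring generated by `a` and `b` -/
def InS (a b x : Alg F I (T F)) : Prop := ∃ α β γ δ : F,
  (∀ j, x.1 j = α * a.1 j + β * b.1 j) ∧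
  ∀ i j, x.2.1 i j = α * a.2.1 i j + β * b.2.1 i j
    + γ * mid a.1 b.1 (a.2.1 i) (b.2.1 i) j + δ * Aop (mid a.1 b.1 (a.2.1 i) (b.2.1 i)) j

theorem mul_snd' (a b : Alg F I (T F)) (i : I) :
    (a * b).2.1 i = mid a.1 b.1 (a.2.1 i) (b.2.1 i) := rfl

theorem InS.mul {a b x y : Alg F I (T F)} (hx : InS a b x) (hy : InS a b y) : InS a b (x * y) := by
  obtain ⟨α, β, γ, δ, h1, h2⟩ := hx
  obtain ⟨α', β', γ', δ', h1', h2'⟩ := hy
  refine ⟨0, 0, (α * β' + α' * β) + (α' * a.1 0 + β' * b.1 0) * δ + (α * a.1 0 + β * b.1 0) * δ',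
    (α' * a.1 0 + β' * b.1 0) * γ + (α * a.1 0 + β * b.1 0) * γ', ?_, ?_⟩
  · intro j
    rw [mul_fst]
    simp
  · intro i j
    rw [mul_snd']
    have e0 := h2 i 0
    have e1 := h2 i 1
    have e2 := h2 i 2
    have e3 := h2 i 3
    have e0' := h2' i 0
    have e1' := h2' i 1
    have e2' := h2' i 2
    have e3' := h2' i 3
    generalize a.2.1 i = k at *
    generalize b.2.1 i = l at *
    generalize x.2.1 i = p at *
    generalize y.2.1 i = q at *
    fin_cases j
    · simp [mid, Bv, Aop, h1, h1'] at *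
      rw [e2, e2']
      (ring_nf; try reduce_mod_char!; try ring)
    · simp [mid, Bv, Aop, h1, h1'] at *
      rw [e3, e3']
      (ring_nf; try reduce_mod_char!; try ring)
    · simp [mid, Bv, Aop, h1, h1'] at *
      rw [e0, e0']
      (ring_nf; try reduce_mod_char!; try ring)
    · simp [mid, Bv, Aop, h1, h1'] at *
      rw [e1, e1']
      (ring_nf; try reduce_mod_char!; try ring)

theorem InS.add {a b x y : Alg F I (T F)} (hx : InS a b x) (hy : InS a b y) : InS a b (x + y) := by
  obtain ⟨α, β, γ, δ, h1, h2⟩ := hx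
  obtain ⟨α', β', γ', δ', h1', h2'⟩ := hy
  refine ⟨α + α', β + β', γ + γ', δ + δ', ?_, ?_⟩
  · intro j
    rw [add_fst, Pi.add_apply, h1, h1']
    ring
  · intro i j
    rw [add_snd, Pi.add_apply, h2, h2']
    ring

theorem InS.neg {a b x : Alg F I (T F)} (hx : InS a b x) : InS a b (-x) := by
  obtain ⟨α, β, γ, δ, h1, h2⟩ := hx
  refine ⟨-α, -β, -γ, -δ, ?_, ?_⟩
  · intro j
    change -(x.1 j) = _
    rw [h1]
    ring
  · intro i j
    change -(x.2.1 i j) = _
    rw [h2]
    ring

theorem InS.zero (a b : Alg F I (T F)) : InS a b 0 := by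
  refine ⟨0, 0, 0, 0, ?_, ?_⟩
  · intro j
    change (0 : F) = _
    ring
  · intro i j
    change (0 : F) = _
    ring

theorem InS.left (a b : Alg F I (T F)) : InS a b a :=
  ⟨1, 0, 0, 0, fun j => by ring, fun i j => by ring⟩

theorem InS.right (a b : Alg F I (T F)) : InS a b b :=
  ⟨0, 1, 0, 0, fun j => by ring, fun i j => by ring⟩

theorem InS.of_closure {a b x : Alg F I (T F)}
    (hx : x ∈ NonUnitalSubring.closure ({a, b} : Set (Alg F I (T F)))) : InS a b x := by
  let S : NonUnitalSubring (Alg F I (T F)) :=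
    { carrier := {x | InS a b x}
      add_mem' := InS.add
      zero_mem' := InS.zero a b
      mul_mem' := InS.mul
      neg_mem' := InS.neg }
  have h : NonUnitalSubring.closure ({a, b} : Set (Alg F I (T F))) ≤ S := by
    rw [NonUnitalSubring.closure_le]
    rintro y (rfl | rfl)
    · exact InS.left _ _
    · exact InS.right _ _
  exact h hx

theorem sq_zero (x : Alg F I (T F)) : x * x = 0 := by
  apply alg_ext
  · rfl
  · intro i
    rw [mul_snd']
    funext j
    change _ = (0 : F)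
    fin_cases j <;> simp [mid, Bv, Aop] <;> (ring_nf; try reduce_mod_char!; try ring)
  · rw [mul_thd]
    apply Finset.sum_eq_zero
    intro i _
    unfold om
    (ring_nf; try reduce_mod_char!; try ring)

/-- the central part of the Jacobian, at one index -/
def J3 (x y z : T F × K F) : F :=
  om (mid x.1 y.1 x.2 y.2) z.2 + om (mid y.1 z.1 y.2 z.2) x.2 + om (mid z.1 x.1 z.2 x.2) y.2

theorem J3_cyc (x y z : T F × K F) : J3 x y z = J3 y z x := by
  unfold J3; ring

theorem J3_eq (x y z : T F × K F) : J3 x y z =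
    ((x.1 1 * y.1 2 + x.1 2 * y.1 1 + y.1 0 * x.2 0 + x.1 0 * y.2 0) * z.2 3
      + (x.1 1 * y.1 3 + x.1 3 * y.1 1 + y.1 0 * x.2 1 + x.1 0 * y.2 1) * z.2 2)
    + ((y.1 1 * z.1 2 + y.1 2 * z.1 1 + z.1 0 * y.2 0 + y.1 0 * z.2 0) * x.2 3
      + (y.1 1 * z.1 3 + y.1 3 * z.1 1 + z.1 0 * y.2 1 + y.1 0 * z.2 1) * x.2 2)
    + ((z.1 1 * x.1 2 + z.1 2 * x.1 1 + x.1 0 * z.2 0 + z.1 0 * x.2 0) * y.2 3
      + (z.1 1 * x.1 3 + z.1 3 * x.1 1 + x.1 0 * z.2 1 + z.1 0 * x.2 1) * y.2 2) := by
  have m2 : ∀ (u v : T F) (s t : K F), mid u v s t 2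
      = u 1 * v 2 + u 2 * v 1 + v 0 * s 0 + u 0 * t 0 := by
    intro u v s t; simp [mid, Bv, Aop]
  have m3 : ∀ (u v : T F) (s t : K F), mid u v s t 3
      = u 1 * v 3 + u 3 * v 1 + v 0 * s 1 + u 0 * t 1 := by
    intro u v s t; simp [mid, Bv, Aop]
  simp only [J3, om, m2, m3]

theorem J3_swap (x y z : T F × K F) : J3 x y z = J3 y x z := by
  rw [J3_eq, J3_eq]; ring

theorem J3_self (x z : T F × K F) : J3 x x z = 0 := by
  rw [J3_eq]; (ring_nf; try reduce_mod_char!; try ring)

theorem J3_add (x x' y z : T F × K F) : J3 (x + x') y z = J3 x y z + J3 x' y z := by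
  rw [J3_eq, J3_eq, J3_eq]
  simp only [Prod.fst_add, Prod.snd_add, Pi.add_apply]
  ring

theorem J3_smul (c : F) (x y z : T F × K F) : J3 (c • x) y z = c * J3 x y z := by
  rw [J3_eq, J3_eq]
  simp only [Prod.smul_fst, Prod.smul_snd, Pi.smul_apply, smul_eq_mul]
  ring

/-- an alternating trilinear form that vanishes on the basis triples vanishes on the span -/
theorem alt_span {P : Type} [AddCommGroup P] [Module F P] (Φ : P → P → P → F)
    (cyc : ∀ x y z, Φ x y z = Φ y z x) (swap : ∀ x y z, Φ x y z = Φ y x z)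
    (self : ∀ x z, Φ x x z = 0) (add : ∀ x x' y z, Φ (x + x') y z = Φ x y z + Φ x' y z)
    (smul : ∀ (c : F) x y z, Φ (c • x) y z = c * Φ x y z)
    (A B N N' : P) (h1 : Φ A B N = 0) (h2 : Φ A B N' = 0)
    (h3 : Φ A N N' = 0) (h4 : Φ B N N' = 0) (x y z : P)
    (hx : ∃ α β γ δ : F, x = α • A + β • B + γ • N + δ • N')
    (hy : ∃ α β γ δ : F, y = α • A + β • B + γ • N + δ • N')
    (hz : ∃ α β γ δ : F, z = α • A + β • B + γ • N + δ • N') : Φ x y z = 0 := by
  have lin : ∀ x y z : P, (∃ α β γ δ : F, x = α • A + β • B + γ • N + δ • N') →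
      Φ A y z = 0 → Φ B y z = 0 → Φ N y z = 0 → Φ N' y z = 0 → Φ x y z = 0 := by
    rintro x y z ⟨α, β, γ, δ, rfl⟩ hA hB hN hN'
    simp only [add, smul, hA, hB, hN, hN', mul_zero, add_zero]
  have s12 : ∀ {x y z : P}, Φ x y z = 0 → Φ y x z = 0 := fun {x y z} h => by
    rw [swap]; exact h
  have s23 : ∀ {x y z : P}, Φ x y z = 0 → Φ x z y = 0 := fun {x y z} h => by
    rw [cyc, swap, ← cyc x y z]; exact h
  have a1 : ∀ x z : P, Φ x x z = 0 := self
  have a2 : ∀ x z : P, Φ x z x = 0 := fun x z => s23 (self x z)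
  have a3 : ∀ x z : P, Φ z x x = 0 := fun x z => s12 (a2 x z)
  have t1 := h1
  have t2 := s12 h1
  have t3 := s23 h1
  have t4 := s12 t3
  have t5 := s23 t2
  have t6 := s12 t5
  have u2 := s12 h2
  have u3 := s23 h2
  have u4 := s12 u3
  have u5 := s23 u2
  have u6 := s12 u5
  have v2 := s12 h3
  have v3 := s23 h3
  have v4 := s12 v3
  have v5 := s23 v2
  have v6 := s12 v5
  have w2 := s12 h4
  have w3 := s23 h4
  have w4 := s12 w3
  have w5 := s23 w2
  have w6 := s12 w5
  have h : ∀ X Y Z : P, (X = A ∨ X = B ∨ X = N ∨ X = N') → (Y = A ∨ Y = B ∨ Y = N ∨ Y = N') →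
      (Z = A ∨ Z = B ∨ Z = N ∨ Z = N') → Φ X Y Z = 0 := by
    intro X Y Z hP hQ hR
    rcases hP with hP | hP | hP | hP <;> rcases hQ with hQ | hQ | hQ | hQ <;>
      rcases hR with hR | hR | hR | hR <;> rw [hP, hQ, hR] <;>
    first
      | exact a1 _ _
      | exact a2 _ _
      | exact a3 _ _
      | assumption
  have step1 : ∀ X Y : P, (X = A ∨ X = B ∨ X = N ∨ X = N') →
      (Y = A ∨ Y = B ∨ Y = N ∨ Y = N') → Φ x X Y = 0 := fun X Y hP hQ =>
    lin x X Y hx (h A X Y (Or.inl rfl) hP hQ) (h B X Y (Or.inr (Or.inl rfl)) hP hQ)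
      (h N X Y (Or.inr (Or.inr (Or.inl rfl))) hP hQ)
      (h N' X Y (Or.inr (Or.inr (Or.inr rfl))) hP hQ)
  have step2 : ∀ Y : P, (Y = A ∨ Y = B ∨ Y = N ∨ Y = N') → Φ y x Y = 0 := fun Y hQ =>
    lin y x Y hy (s12 (step1 A Y (Or.inl rfl) hQ))
      (s12 (step1 B Y (Or.inr (Or.inl rfl)) hQ))
      (s12 (step1 N Y (Or.inr (Or.inr (Or.inl rfl))) hQ))
      (s12 (step1 N' Y (Or.inr (Or.inr (Or.inr rfl))) hQ))
  have step3 : Φ z x y = 0 :=
    lin z x y hz (by rw [cyc]; exact s12 (step2 A (Or.inl rfl)))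
      (by rw [cyc]; exact s12 (step2 B (Or.inr (Or.inl rfl))))
      (by rw [cyc]; exact s12 (step2 N (Or.inr (Or.inr (Or.inl rfl)))))
      (by rw [cyc]; exact s12 (step2 N' (Or.inr (Or.inr (Or.inr rfl)))))
  rw [← cyc z x y]
  exact step3

theorem J3_basis (a b : T F) (k l : K F) :
    J3 (a, k) (b, l) (0, mid a b k l) = 0 ∧ J3 (a, k) (b, l) (0, Aop (mid a b k l)) = 0 ∧
    J3 (a, k) (0, mid a b k l) (0, Aop (mid a b k l)) = 0 ∧
    J3 (b, l) (0, mid a b k l) (0, Aop (mid a b k l)) = 0 := by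
  have m0 : ∀ (u v : T F) (s t : K F), mid u v s t 0 = v 0 * s 2 + u 0 * t 2 := by
    intro u v s t; simp [mid, Bv, Aop]
  have m1 : ∀ (u v : T F) (s t : K F), mid u v s t 1 = v 0 * s 3 + u 0 * t 3 := by
    intro u v s t; simp [mid, Bv, Aop]
  have m2 : ∀ (u v : T F) (s t : K F), mid u v s t 2
      = u 1 * v 2 + u 2 * v 1 + v 0 * s 0 + u 0 * t 0 := by
    intro u v s t; simp [mid, Bv, Aop]
  have m3 : ∀ (u v : T F) (s t : K F), mid u v s t 3
      = u 1 * v 3 + u 3 * v 1 + v 0 * s 1 + u 0 * t 1 := by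
    intro u v s t; simp [mid, Bv, Aop]
  have A0 : ∀ s : K F, Aop s 0 = s 2 := fun s => rfl
  have A1 : ∀ s : K F, Aop s 1 = s 3 := fun s => rfl
  have A2 : ∀ s : K F, Aop s 2 = s 0 := fun s => rfl
  have A3 : ∀ s : K F, Aop s 3 = s 1 := fun s => rfl
  refine ⟨?_, ?_, ?_, ?_⟩
  · rw [J3_eq]
    simp only [Pi.zero_apply, m0, m1, m2, m3]
    ring_nf
    reduce_mod_char!
  · rw [J3_eq]
    simp only [Pi.zero_apply, A0, A1, A2, A3, m0, m1, m2, m3]
    ring_nf
    reduce_mod_char!
  · rw [J3_eq]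
    simp only [Pi.zero_apply, A0, A1, A2, A3, m0, m1, m2, m3]
    ring_nf
    reduce_mod_char!
  · rw [J3_eq]
    simp only [Pi.zero_apply, A0, A1, A2, A3, m0, m1, m2, m3]
    ring_nf
    reduce_mod_char!

end lie

end Pool.Agent.KS6_1.BinLie
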