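import Pool.Agent.KS6_1.RF.BinLie1
set_option linter.unusedSectionVars false

namespace Pool.Agent.KS6_1.BinLie

variable {F : Type} [Field F]

section lie

variable {I : Type} [Fintype I] [CharP F 2]

set_option maxHeartbeats 400000 in
theorem J3_span (A B N N' : T F × K F) (h1 : J3 A B N = 0) (h2 : J3 A B N' = 0)
    (h3 : J3 A N N' = 0) (h4 : J3 B N N' = 0) (x y z : T F × K F)
    (hx : ∃ α β γ δ : F, x = α • A + β • B + γ • N + δ • N')
    (hy : ∃ α β γ δ : F, y = α • A + β • B + γ • N + δ • N')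
    (hz : ∃ α β γ δ : F, z = α • A + β • B + γ • N + δ • N') : J3 x y z = 0 :=
  alt_span (F := F) (P := T F × K F) (fun x y z => J3 x y z) J3_cyc J3_swap J3_self
    (fun x x' y z => J3_add x x' y z) (fun c x y z => J3_smul c x y z) A B N N' h1 h2 h3 h4
    x y z hx hy hz

set_option maxHeartbeats 400000 in
theorem jacobi {a b x y z : Alg F I (T F)} (hx : InS a b x) (hy : InS a b y) (hz : InS a b z) :
    (x * y) * z + (y * z) * x + (z * x) * y = 0 := by
  obtain ⟨α, β, γ, δ, h1, h2⟩ := hx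
  obtain ⟨α', β', γ', δ', h1', h2'⟩ := hy
  obtain ⟨α'', β'', γ'', δ'', h1'', h2''⟩ := hz
  apply alg_ext
  · change (0 : T F) + 0 + 0 = 0
    simp
  · intro i
    rw [add_snd, add_snd, mul_snd', mul_snd', mul_snd', mul_snd', mul_snd', mul_snd']
    funext j
    change _ = (0 : F)
    fin_cases j
    · simp [mid, Bv, Aop, mul_fst, h1, h1', h1'']; (ring_nf; try reduce_mod_char!; try ring)
    · simp [mid, Bv, Aop, mul_fst, h1, h1', h1'']; (ring_nf; try reduce_mod_char!; try ring)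
    · simp [mid, Bv, Aop, mul_fst]; (ring_nf; try reduce_mod_char!; try ring)
    · simp [mid, Bv, Aop, mul_fst]; (ring_nf; try reduce_mod_char!; try ring)
  · rw [add_thd, add_thd, mul_thd, mul_thd, mul_thd, ← Finset.sum_add_distrib,
      ← Finset.sum_add_distrib]
    apply Finset.sum_eq_zero
    intro i _
    rw [mul_snd', mul_snd', mul_snd']
    obtain ⟨b1, b2, b3, b4⟩ := J3_basis a.1 b.1 (a.2.1 i) (b.2.1 i)
    have hx' : ∃ α β γ δ : F, ((x.1, x.2.1 i) : T F × K F) = α • (a.1, a.2.1 i) +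
        β • (b.1, b.2.1 i) + γ • (0, mid a.1 b.1 (a.2.1 i) (b.2.1 i)) +
        δ • (0, Aop (mid a.1 b.1 (a.2.1 i) (b.2.1 i))) := ⟨α, β, γ, δ, by
      apply Prod.ext
      · funext j; simp [h1]
      · funext j; simp [h2]⟩
    have hy' : ∃ α β γ δ : F, ((y.1, y.2.1 i) : T F × K F) = α • (a.1, a.2.1 i) +
        β • (b.1, b.2.1 i) + γ • (0, mid a.1 b.1 (a.2.1 i) (b.2.1 i)) +
        δ • (0, Aop (mid a.1 b.1 (a.2.1 i) (b.2.1 i))) := ⟨α', β', γ', δ', by
      apply Prod.ext
      · funext j; simp [h1']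
      · funext j; simp [h2']⟩
    have hz' : ∃ α β γ δ : F, ((z.1, z.2.1 i) : T F × K F) = α • (a.1, a.2.1 i) +
        β • (b.1, b.2.1 i) + γ • (0, mid a.1 b.1 (a.2.1 i) (b.2.1 i)) +
        δ • (0, Aop (mid a.1 b.1 (a.2.1 i) (b.2.1 i))) := ⟨α'', β'', γ'', δ'', by
      apply Prod.ext
      · funext j; simp [h1'']
      · funext j; simp [h2'']⟩
    have key := J3_span _ _ _ _ b1 b2 b3 b4 _ _ _ hx' hy' hz'
    unfold J3 at key
    exact key

end lie

end Pool.Agent.KS6_1.BinLie
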