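import Pool.Agent.KS6_1.RF.BinLie1b
set_option linter.unusedSectionVars false

/-!
Finite binary-Lie algebras of infinite axiomatic rank over all finite fields of characteristic two:
evaluation of polynomials and the infinite family of models.
-/

namespace Pool.Agent.KS6_1.BinLie

section poly

variable {S V A : Type} [CommRing S] [NonUnitalNonAssocRing A] [Module S A]

/-- the value of a nonassociative polynomial -/
def pev (f : V → A) (p : FreeMagma V →₀ S) : A :=
  Finsupp.sum p (fun m c => c • FreeMagma.lift f m)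

/-- a bound for the variables of a monomial -/
def mbound : FreeMagma ℕ → ℕ
  | .of i => i + 1
  | .mul s t => max (mbound s) (mbound t)

theorem lift_mul {V A : Type} [NonUnitalNonAssocRing A] (f : V → A) (s t : FreeMagma V) :
    FreeMagma.lift f (s * t) = FreeMagma.lift f s * FreeMagma.lift f t := map_mul _ _ _

theorem lift_congr {A : Type} [NonUnitalNonAssocRing A] (f g : ℕ → A) (m : FreeMagma ℕ)
    (h : ∀ i < mbound m, f i = g i) : FreeMagma.lift f m = FreeMagma.lift g m := by
  induction m with
  | ih1 i => exact h i (Nat.lt_succ_self i)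
  | ih2 s t ihs iht =>
    rw [lift_mul, lift_mul, ihs (fun i hi => h i (lt_of_lt_of_le hi (le_max_left _ _))),
      iht (fun i hi => h i (lt_of_lt_of_le hi (le_max_right _ _)))]

theorem pev_congr (f g : ℕ → A) (p : FreeMagma ℕ →₀ S)
    (n : ℕ) (hn : ∀ m ∈ p.support, mbound m ≤ n) (h : ∀ i < n, f i = g i) :
    pev f p = pev g p := by
  unfold pev
  apply Finsupp.sum_congr
  intro m hm
  rw [lift_congr f g m (fun i hi => h i (lt_of_lt_of_le hi (hn m hm)))]

theorem pev_add (f : V → A) (p q : FreeMagma V →₀ S) :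
    pev f (p + q) = pev f p + pev f q :=
  Finsupp.sum_add_index' (fun m => by simp) (fun m a b => add_smul a b _)

theorem pev_single (f : V → A) (m : FreeMagma V) :
    pev f (Finsupp.single m (1 : S)) = FreeMagma.lift f m := by
  unfold pev
  rw [Finsupp.sum_single_index (by simp), one_smul]

/-- change of scalars -/
theorem pev_scalar {F : Type} [Field F] [Algebra S F] [Module F A] [IsScalarTower S F A]
    (f : V → A) (p : FreeMagma V →₀ S) :
    pev f (p.mapRange (algebraMap S F) (map_zero _)) = pev f p := by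
  unfold pev
  rw [Finsupp.sum_mapRange_index (by simp)]
  apply Finsupp.sum_congr
  intro m _
  rw [algebraMap_smul]

theorem lift_map {W : Type} (ρ : V → W) (f : W → A) (m : FreeMagma V) :
    FreeMagma.lift f (FreeMagma.map ρ m) = FreeMagma.lift (f ∘ ρ) m := by
  induction m with
  | ih1 i => simp
  | ih2 s t ihs iht => rw [map_mul, lift_mul, lift_mul, ihs, iht]

/-- renaming the variables -/
theorem pev_rename {W : Type} (ρ : V → W) (f : W → A) (p : FreeMagma V →₀ S) :
    pev f (p.mapDomain (FreeMagma.map ρ)) = pev (f ∘ ρ) p := by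
  unfold pev
  rw [Finsupp.sum_mapDomain_index (by simp) (fun m a b => add_smul a b _)]
  apply Finsupp.sum_congr
  intro m _
  rw [lift_map]

end poly

variable {F : Type} [Field F] [CharP F 2]

section rel

variable {I L : Type} [Fintype I] [AddCommGroup L] [Module F L] [Ev F I L]

variable (F) in
/-- the small algebra -/
abbrev Gm : Type := Alg F Unit (T F)

/-- `x` is glued from the elements `g i` -/
def Rel (x : Alg F I L) (g : I → Gm F) : Prop :=
  (∀ i, Ev.ev (F := F) i x.1 = (g i).1) ∧ (∀ i, x.2.1 i = (g i).2.1 ()) ∧ x.2.2 = ∑ i, (g i).2.2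

theorem Rel.add {x y : Alg F I L} {g h : I → Gm F} (hx : Rel x g) (hy : Rel y h) :
    Rel (x + y) (fun i => g i + h i) := by
  refine ⟨fun i => ?_, fun i => ?_, ?_⟩
  · rw [add_fst, map_add, hx.1, hy.1, add_fst]
  · rw [add_snd, hx.2.1, hy.2.1, add_snd]
  · rw [add_thd, hx.2.2, hy.2.2, ← Finset.sum_add_distrib]
    exact Finset.sum_congr rfl (fun i _ => (add_thd _ _).symm)

theorem Rel.zero : Rel (0 : Alg F I L) (fun _ => 0) := by
  refine ⟨fun i => ?_, fun i => rfl, ?_⟩
  · change Ev.ev (F := F) i (0 : L) = (0 : T F)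
    rw [map_zero]
  · change (0 : F) = ∑ i : I, (0 : F)
    simp

theorem Rel.smul {x : Alg F I L} {g : I → Gm F} (hx : Rel x g) (c : F) :
    Rel (c • x) (fun i => c • g i) := by
  refine ⟨fun i => ?_, fun i => ?_, ?_⟩
  · change Ev.ev (F := F) i (c • x.1) = c • (g i).1
    rw [map_smul, hx.1]
  · change c • (x.2.1 i) = c • (g i).2.1 ()
    rw [hx.2.1]
  · change c • x.2.2 = ∑ i, c • (g i).2.2
    rw [hx.2.2, Finset.smul_sum]

theorem Rel.mul {x y : Alg F I L} {g h : I → Gm F} (hx : Rel x g) (hy : Rel y h) :
    Rel (x * y) (fun i => g i * h i) := by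
  refine ⟨fun i => ?_, fun i => ?_, ?_⟩
  · rw [mul_fst, map_zero, mul_fst]
  · rw [mul_snd, mul_snd', hx.1, hx.2.1, hy.1, hy.2.1]
  · rw [mul_thd]
    apply Finset.sum_congr rfl
    intro i _
    rw [mul_thd, Finset.univ_unique, Finset.sum_singleton, hx.2.1, hy.2.1]

theorem Rel.lift {a : ℕ → Alg F I L} {g : I → ℕ → Gm F} (h : ∀ j, Rel (a j) (fun i => g i j))
    (m : FreeMagma ℕ) : Rel (FreeMagma.lift a m) (fun i => FreeMagma.lift (g i) m) := by
  induction m with
  | ih1 i => exact h i
  | ih2 s t ihs iht =>
    simp only [lift_mul]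
    exact ihs.mul iht

theorem Rel.pev {a : ℕ → Alg F I L} {g : I → ℕ → Gm F} (h : ∀ j, Rel (a j) (fun i => g i j))
    (p : FreeMagma ℕ →₀ F) : Rel (pev a p) (fun i => pev (g i) p) := by
  unfold BinLie.pev Finsupp.sum
  classical
  induction p.support using Finset.induction_on with
  | empty => simpa using Rel.zero
  | insert m s hm ih =>
    simp only [Finset.sum_insert hm]
    exact ((Rel.lift h m).smul _).add ih

/-- every element is glued from elements of the small algebra -/
theorem exists_rel [Nonempty I] (x : Alg F I L) : ∃ g : I → Gm F, Rel x g := by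
  classical
  obtain ⟨i0⟩ := ‹Nonempty I›
  refine ⟨fun i => (Ev.ev (F := F) i x.1, fun _ => x.2.1 i, if i = i0 then x.2.2 else 0),
    fun i => rfl, fun i => rfl, ?_⟩
  simp

end rel

variable (F) in
/-- the finite binary-Lie algebra -/
abbrev GG : Type := Alg F (Fin 2) (T F)

/-- An identity of the finite algebra, read in the small algebra. -/
theorem identity_Gm (p : FreeMagma ℕ →₀ F) (hp : ∀ f : ℕ → GG F, pev f p = 0)
    (g h : ℕ → Gm F) (hgh : ∀ j, (g j).1 = (h j).1) :
    (pev g p).1 = 0 ∧ (pev g p).2.1 () = 0 ∧ (pev g p).2.2 = (pev h p).2.2 := by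
  let G : Fin 2 → ℕ → Gm F := fun i j => if i = 0 then g j else h j
  have hG0 : G 0 = g := rfl
  have hG1 : G 1 = h := rfl
  let a : ℕ → GG F := fun j => ((g j).1, (fun i => (G i j).2.1 ()), (g j).2.2 + (h j).2.2)
  have hrel : ∀ j, Rel (a j) (fun i => G i j) := by
    intro j
    refine ⟨fun i => ?_, fun i => rfl, ?_⟩
    · fin_cases i
      · rfl
      · exact hgh j
    · rw [Fin.sum_univ_two]
      rfl
  have h1 := Rel.pev hrel p
  rw [hp] at h1
  obtain ⟨a, b, c⟩ := h1
  refine ⟨?_, ?_, ?_⟩
  · exact (a 0).symm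
  · exact (b 0).symm
  · rw [Fin.sum_univ_two] at c
    change (0 : F) = (pev g p).2.2 + (pev h p).2.2 at c
    exact CharTwo.add_eq_zero.1 c.symm

/-! ### The models -/

variable (F) in
/-- affine functions on the cube with values in the top -/
abbrev LL (M : ℕ) : Type := T F × (Fin M → T F)

instance (M : ℕ) : Ev F (Fin M → F) (LL F M) where
  ev e :=
    { toFun := fun l => l.1 + ∑ j, e j • l.2 j
      map_add' := by
        intro l l'
        simp only [Prod.fst_add, Prod.snd_add, Pi.add_apply, smul_add, Finset.sum_add_distrib]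
        abel
      map_smul' := by
        intro c l
        simp only [Prod.smul_fst, Prod.smul_snd, Pi.smul_apply, RingHom.id_apply, smul_add,
          Finset.smul_sum]
        congr 1
        refine Finset.sum_congr rfl fun j _ => ?_
        rw [smul_comm] }

theorem ev_def {M : ℕ} (e : Fin M → F) (l : LL F M) :
    Ev.ev (F := F) e l = l.1 + ∑ j, e j • l.2 j := rfl

variable (F) in
/-- the model -/
abbrev HH (M : ℕ) : Type := Alg F (Fin M → F) (LL F M)

theorem ev_inj {M : ℕ} (l : LL F M) (h : ∀ e : Fin M → F, Ev.ev (F := F) e l = (0 : T F)) :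
    l = 0 := by
  classical
  have h0 : l.1 = 0 := by
    have := h 0
    rw [ev_def] at this
    simpa using this
  apply Prod.ext h0
  funext j
  have := h (Pi.single j 1)
  rw [ev_def, h0, zero_add, Finset.sum_eq_single j] at this
  · simpa using this
  · intro k _ hk
    rw [Pi.single_eq_of_ne hk, zero_smul]
  · intro hj
    exact absurd (Finset.mem_univ j) hj

variable [Fintype F]

theorem exists_period (n M : ℕ) (h : 4 * n < M) (l : ℕ → LL F M) :
    ∃ v : Fin M → F, v ≠ 0 ∧ ∀ i < n, ∀ e : Fin M → F,
      Ev.ev (F := F) (e + v) (l i) = (Ev.ev (F := F) e (l i) : T F) := by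
  classical
  have hcard : Fintype.card (Fin n → T F) < Fintype.card (Fin M → F) := by
    simp only [Fintype.card_pi, Finset.prod_const, Finset.card_univ, Fintype.card_fin]
    rw [← pow_mul]
    exact Nat.pow_lt_pow_right Fintype.one_lt_card h
  obtain ⟨x, y, hxy, he⟩ := Fintype.exists_ne_map_eq_of_card_lt
    (fun (x : Fin M → F) (i : Fin n) => ∑ j, x j • (l i).2 j) hcard
  refine ⟨x - y, sub_ne_zero.mpr hxy, fun i hi e => ?_⟩
  have := congrFun he ⟨i, hi⟩
  simp only at this
  rw [ev_def, ev_def]
  simp only [Pi.add_apply, Pi.sub_apply, add_smul, sub_smul, Finset.sum_add_distrib,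
    Finset.sum_sub_distrib, this, sub_self, add_zero]

theorem sum_zero_of_period {N : ℕ} (v : Fin N → F) (hv : v ≠ 0)
    (z : (Fin N → F) → F) (hz : ∀ e, z (e + v) = z e) : ∑ e, z e = 0 := by
  classical
  have h2 : v + v = 0 := by
    funext i
    exact CharTwo.add_self_eq_zero _
  apply Finset.sum_involution (fun e _ => e + v)
  · intro e _
    rw [hz, CharTwo.add_self_eq_zero]
  · intro e _ _ h
    exact hv (by simpa using h)
  · intro e _
    exact Finset.mem_univ _
  · intro e _
    rw [add_assoc, h2, add_zero]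

/-- identities of the finite algebra in few variables hold in the model -/
theorem model_holds (n M : ℕ) (h : 4 * n < M) (p : FreeMagma ℕ →₀ F)
    (hn : ∀ m ∈ p.support, mbound m ≤ n) (hp : ∀ f : ℕ → GG F, pev f p = 0)
    (a : ℕ → HH F M) : pev a p = 0 := by
  classical
  choose g hg using fun j => exists_rel (a j)
  have hrel := Rel.pev (g := fun e j => g j e) hg p
  obtain ⟨h1, h2, h3⟩ := hrel
  obtain ⟨v, hv, hper⟩ := exists_period n M h (fun j => (a j).1)
  apply alg_ext
  · apply ev_inj
    intro e
    rw [h1]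
    exact (identity_Gm p hp (fun j => g j e) (fun j => g j e) (fun _ => rfl)).1
  · intro e
    rw [h2]
    exact (identity_Gm p hp (fun j => g j e) (fun j => g j e) (fun _ => rfl)).2.1
  · rw [h3]
    change _ = (0 : F)
    apply sum_zero_of_period v hv
    intro e
    -- replace the irrelevant variables
    let g' : ℕ → Gm F := fun j => if j < n then g j (e + v) else g j e
    have e1 : pev (fun j => g j (e + v)) p = pev g' p := by
      apply pev_congr _ _ p n hn
      intro i hi
      simp only [g', if_pos hi]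
    change (pev (fun j => g j (e + v)) p).2.2 = (pev (fun j => g j e) p).2.2
    rw [e1]
    refine (identity_Gm p hp g' (fun j => g j e) ?_).2.2
    intro j
    by_cases hj : j < n
    · simp only [g', if_pos hj]
      rw [← (hg j).1, ← (hg j).1]
      exact hper j hj e
    · simp only [g', if_neg hj]

end Pool.Agent.KS6_1.BinLie
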