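import Pool.Agent.KS6_1.RF.BinLie2
set_option linter.unusedSectionVars false

/-!
The words: identities of the finite algebra that fail in the models.
-/

namespace Pool.Agent.KS6_1.BinLie

/-- Jacobian -/
def Jac {A : Type} [NonUnitalNonAssocRing A] (x y z : A) : A :=
  (x * y) * z + (y * z) * x + (z * x) * y

/-- double right multiplication -/
def dbl {A : Type} [Mul A] (w y : A) : A := (y * w) * w

/-- repeated double multiplications -/
def chn (r : ℕ) {A : Type} [Mul A] (f : ℕ → A) (x : A) : ℕ → A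
  | 0 => x
  | k + 1 => (dbl (f (7 + k)))^[r] (chn r f x k)

/-- the monomials -/
def mon (r M : ℕ) (s t : FreeMagma ℕ) : FreeMagma ℕ :=
  (chn r FreeMagma.of s M * .of 6) * (t * .of 6)

/-- the polynomial -/
noncomputable def poly (S : Type) [CommRing S] (r M : ℕ) : FreeMagma ℕ →₀ S :=
  let a : FreeMagma ℕ := .of 0
  let b : FreeMagma ℕ := .of 1
  let c : FreeMagma ℕ := .of 2
  let d : FreeMagma ℕ := .of 3
  let e : FreeMagma ℕ := .of 4
  let f : FreeMagma ℕ := .of 5
  let Q (t : FreeMagma ℕ) : FreeMagma ℕ →₀ S :=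
    Finsupp.single (mon r M ((a * b) * c) t) 1 + Finsupp.single (mon r M ((b * c) * a) t) 1
      + Finsupp.single (mon r M ((c * a) * b) t) 1
  Q ((d * e) * f) + Q ((e * f) * d) + Q ((f * d) * e)

theorem lift_chn (r : ℕ) {A : Type} [NonUnitalNonAssocRing A] (f : ℕ → A) (s : FreeMagma ℕ)
    (M : ℕ) :
    FreeMagma.lift f (chn r FreeMagma.of s M) = chn r f (FreeMagma.lift f s) M := by
  induction M with
  | zero => rfl
  | succ M ih =>
    have h : Function.Semiconj (FreeMagma.lift f) (dbl (FreeMagma.of (7 + M)))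
        (dbl (f (7 + M))) := by
      intro y
      simp only [dbl, lift_mul, FreeMagma.lift_of]
    simp only [chn]
    rw [(h.iterate_right r).eq, ih]

theorem dbl_add {A : Type} [NonUnitalNonAssocRing A] (w x y : A) (r : ℕ) :
    (dbl w)^[r] (x + y) = (dbl w)^[r] x + (dbl w)^[r] y := by
  induction r with
  | zero => rfl
  | succ r ih => simp only [Function.iterate_succ_apply', ih, dbl, add_mul]

theorem chn_add (r : ℕ) {A : Type} [NonUnitalNonAssocRing A] (f : ℕ → A) (x y : A) (M : ℕ) :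
    chn r f (x + y) M = chn r f x M + chn r f y M := by
  induction M with
  | zero => rfl
  | succ M ih => simp only [chn, ih, dbl_add]

theorem pev_poly {S A : Type} [CommRing S] [NonUnitalNonAssocRing A] [Module S A] (f : ℕ → A)
    (r M : ℕ) :
    pev f (poly S r M) =
      (chn r f (Jac (f 0) (f 1) (f 2)) M * f 6) * (Jac (f 3) (f 4) (f 5) * f 6) := by
  unfold poly mon Jac
  simp only [pev_add, pev_single, lift_mul, lift_chn, FreeMagma.lift_of, chn_add, add_mul, mul_add]

variable {F : Type} [Field F] [CharP F 2]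

/-! ### Values in the small algebra -/

/-- the Jacobian on the top -/
def DJ (x y z : T F) : K F :=
  ![z 0 * (x 1 * y 2 + x 2 * y 1) + x 0 * (y 1 * z 2 + y 2 * z 1) + y 0 * (z 1 * x 2 + z 2 * x 1),
    z 0 * (x 1 * y 3 + x 3 * y 1) + x 0 * (y 1 * z 3 + y 3 * z 1) + y 0 * (z 1 * x 3 + z 3 * x 1),
    0, 0]

theorem jac_fst (x y z : Gm F) : (Jac x y z).1 = 0 := by
  change (0 : T F) + 0 + 0 = 0
  simp

theorem jac_snd (x y z : Gm F) : (Jac x y z).2.1 () = DJ x.1 y.1 z.1 := by
  unfold Jac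
  rw [add_snd, add_snd, mul_snd', mul_snd', mul_snd', mul_snd', mul_snd', mul_snd']
  funext j
  fin_cases j
  · simp [mid, Bv, Aop, mul_fst, DJ]; (ring_nf; try reduce_mod_char!; try ring)
  · simp [mid, Bv, Aop, mul_fst, DJ]; (ring_nf; try reduce_mod_char!; try ring)
  · simp [mid, Bv, Aop, mul_fst, DJ]; (ring_nf; try reduce_mod_char!; try ring)
  · simp [mid, Bv, Aop, mul_fst, DJ]; (ring_nf; try reduce_mod_char!; try ring)

theorem dbl_fst (w y : Gm F) (hy : y.1 = 0) (r : ℕ) : ((dbl w)^[r] y).1 = 0 := by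
  cases r with
  | zero => exact hy
  | succ r => rw [Function.iterate_succ_apply']; rfl

theorem dbl_snd (w y : Gm F) (hy : y.1 = 0) (u v : F) (hy2 : y.2.1 () = ![u, v, 0, 0]) :
    (dbl w y).2.1 () = ![w.1 0 ^ 2 * u, w.1 0 ^ 2 * v, 0, 0] := by
  rw [dbl, mul_snd', mul_snd', mul_fst, hy, hy2]
  funext j
  fin_cases j
  · simp [mid, Bv, Aop]; ring
  · simp [mid, Bv, Aop]; ring
  · simp [mid, Bv, Aop]
  · simp [mid, Bv, Aop]

theorem dbl_iter (w y : Gm F) (hy : y.1 = 0) (u v : F) (hy2 : y.2.1 () = ![u, v, 0, 0]) (r : ℕ) :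
    ((dbl w)^[r] y).2.1 () = ![(w.1 0 ^ 2) ^ r * u, (w.1 0 ^ 2) ^ r * v, 0, 0] := by
  induction r with
  | zero => simpa using hy2
  | succ r ih =>
    rw [Function.iterate_succ_apply', dbl_snd w _ (dbl_fst w y hy r) _ _ ih]
    funext j
    fin_cases j <;> simp <;> ring

theorem chn_fst (r : ℕ) (f : ℕ → Gm F) (x : Gm F) (hx : x.1 = 0) (M : ℕ) :
    (chn r f x M).1 = 0 := by
  induction M with
  | zero => exact hx
  | succ M ih => exact dbl_fst _ _ ih r

theorem chn_snd (r : ℕ) (f : ℕ → Gm F) (x : Gm F) (hx : x.1 = 0) (u v : F)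
    (hx2 : x.2.1 () = ![u, v, 0, 0]) (M : ℕ) :
    (chn r f x M).2.1 () = ![(∏ i ∈ Finset.range M, ((f (7 + i)).1 0 ^ 2) ^ r) * u,
      (∏ i ∈ Finset.range M, ((f (7 + i)).1 0 ^ 2) ^ r) * v, 0, 0] := by
  induction M with
  | zero => simp [chn, hx2]
  | succ M ih =>
    rw [chn, dbl_iter _ _ (chn_fst r f x hx M) _ _ ih, Finset.prod_range_succ]
    funext j
    fin_cases j <;> simp <;> ring

/-- the value of the word on the top -/
def val (x y z x' y' z' w : T F) (q : F) : F :=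
  q * w 0 ^ 2 * ((DJ x y z 0) * (DJ x' y' z' 1) + (DJ x y z 1) * (DJ x' y' z' 0))

theorem poly_Gm (r : ℕ) (f : ℕ → Gm F) (M : ℕ) :
    (pev f (poly F r M)).1 = 0 ∧ (pev f (poly F r M)).2.1 () = 0 ∧ (pev f (poly F r M)).2.2
      = val (f 0).1 (f 1).1 (f 2).1 (f 3).1 (f 4).1 (f 5).1 (f 6).1
        (∏ i ∈ Finset.range M, ((f (7 + i)).1 0 ^ 2) ^ r) := by
  have hJ1 := jac_snd (f 0) (f 1) (f 2)
  have hJ2 := jac_snd (f 3) (f 4) (f 5)
  have hJ1' : (Jac (f 0) (f 1) (f 2)).2.1 () = ![DJ (f 0).1 (f 1).1 (f 2).1 0,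
      DJ (f 0).1 (f 1).1 (f 2).1 1, 0, 0] := by
    rw [hJ1]
    funext j
    fin_cases j <;> simp [DJ]
  have hc := chn_snd r f _ (jac_fst (f 0) (f 1) (f 2)) _ _ hJ1' M
  have hc1 := chn_fst r f _ (jac_fst (f 0) (f 1) (f 2)) M
  rw [pev_poly]
  set X := chn r f (Jac (f 0) (f 1) (f 2)) M with hX
  set Y := Jac (f 3) (f 4) (f 5) with hY
  have hYf : Y.1 = 0 := jac_fst _ _ _
  refine ⟨rfl, ?_, ?_⟩
  · rw [mul_snd', mul_fst, mul_fst]
    funext j
    change _ = (0 : F)
    fin_cases j <;> simp [mid, Bv, Aop]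
  · rw [mul_thd, Finset.univ_unique, Finset.sum_singleton]
    change om ((X * f 6).2.1 ()) ((Y * f 6).2.1 ()) = _
    rw [mul_snd', mul_snd', hc1, hc, hYf, hJ2]
    generalize (∏ i ∈ Finset.range M, ((f (7 + i)).1 0 ^ 2) ^ r) = q
    unfold val
    simp only [om, mid, Pi.add_apply, Pi.smul_apply, smul_eq_mul]
    have A2 : ∀ s : K F, Aop s 2 = s 0 := fun s => rfl
    have A3 : ∀ s : K F, Aop s 3 = s 1 := fun s => rfl
    simp only [A2, A3]
    generalize DJ (f 0).1 (f 1).1 (f 2).1 0 = d0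
    generalize DJ (f 0).1 (f 1).1 (f 2).1 1 = d1
    generalize DJ (f 3).1 (f 4).1 (f 5).1 0 = d0'
    generalize DJ (f 3).1 (f 4).1 (f 5).1 1 = d1'
    generalize (f 6).1 = w at *
    simp [Bv]
    ring

/-- the words are identities of the finite algebra -/
theorem poly_identity (r M : ℕ) (a : ℕ → GG F) : pev a (poly F r M) = 0 := by
  choose g hg using fun j => exists_rel (a j)
  obtain ⟨h1, h2, h3⟩ := Rel.pev (g := fun e j => g j e) hg (poly F r M)
  apply alg_ext
  · have := h1 0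
    rw [(poly_Gm r _ M).1] at this
    exact this
  · intro i
    rw [h2, (poly_Gm r _ M).2.1]
    rfl
  · rw [h3, Fin.sum_univ_two, (poly_Gm r _ M).2.2, (poly_Gm r _ M).2.2]
    have hT : ∀ j, (g j 0).1 = (g j 1).1 := by
      intro j
      rw [← (hg j).1, ← (hg j).1]
      rfl
    simp only [hT]
    exact CharTwo.add_self_eq_zero _

variable [Fintype F]

theorem sum_ne (M : ℕ) :
    ∑ e : Fin M → F, ∏ i, (e i ^ 2) ^ (Fintype.card F - 1) = 1 := by
  classical
  have h1 : ∑ x : F, (x ^ 2) ^ (Fintype.card F - 1) = 1 := by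
    have h2 : ∀ x : F, (x ^ 2) ^ (Fintype.card F - 1) = if x = 0 then 0 else 1 := by
      intro x
      split_ifs with hx
      · rw [hx]
        have := Fintype.one_lt_card (α := F)
        simp; omega
      · exact FiniteField.pow_card_sub_one_eq_one _ (pow_ne_zero 2 hx)
    rw [Finset.sum_congr rfl (fun x _ => h2 x)]
    have h3 : ∑ x : F, (if x = 0 then (0 : F) else 1) = ∑ x : F, (1 - if x = 0 then (1 : F) else 0) :=
      Finset.sum_congr rfl (fun x _ => by split_ifs <;> simp)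
    rw [h3, Finset.sum_sub_distrib, Finset.sum_ite_eq' Finset.univ (0 : F)]
    simp [CharTwo.neg_eq]
  have := Finset.prod_univ_sum (fun _ : Fin M => (Finset.univ : Finset F))
    (fun _ x => (x ^ 2) ^ (Fintype.card F - 1))
  rw [Fintype.piFinset_univ] at this
  rw [← this, Finset.prod_congr rfl (fun _ _ => h1)]
  simp

/-- the words fail in the models -/
theorem poly_fails (M : ℕ) :
    ∃ a : ℕ → HH F M, pev a (poly F (Fintype.card F - 1) M) ≠ 0 := by
  classical
  let e0 : T F := ![1, 0, 0, 0]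
  let e1 : T F := ![0, 1, 0, 0]
  let e2 : T F := ![0, 0, 1, 0]
  let e3 : T F := ![0, 0, 0, 1]
  let a : ℕ → HH F M := fun j =>
    match j with
    | 0 => ((e0, 0), 0)
    | 1 => ((e1, 0), 0)
    | 2 => ((e2, 0), 0)
    | 3 => ((e0, 0), 0)
    | 4 => ((e1, 0), 0)
    | 5 => ((e3, 0), 0)
    | 6 => ((e0, 0), 0)
    | k + 7 => ((0, fun i => if (i : ℕ) = k then e0 else 0), 0)
  refine ⟨a, ?_⟩
  intro hzero
  choose g hg using fun j => exists_rel (a j)
  obtain ⟨h1, h2, h3⟩ := Rel.pev (g := fun e j => g j e) hg (poly F (Fintype.card F - 1) M)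
  rw [hzero] at h3
  change (0 : F) = _ at h3
  have hval : ∀ e : Fin M → F, (pev (fun j => g j e) (poly F (Fintype.card F - 1) M)).2.2
      = ∏ i, (e i ^ 2) ^ (Fintype.card F - 1) := by
    intro e
    rw [(poly_Gm _ _ M).2.2]
    have q : ∀ (l : LL F M), l.2 = 0 → (Ev.ev (F := F) e l : T F) = l.1 := by
      intro l hl
      rw [ev_def, hl]
      simp
    have f0 : (g 0 e).1 = e0 := by rw [← (hg 0).1]; exact q _ rfl
    have f1 : (g 1 e).1 = e1 := by rw [← (hg 1).1]; exact q _ rfl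
    have f2 : (g 2 e).1 = e2 := by rw [← (hg 2).1]; exact q _ rfl
    have f3 : (g 3 e).1 = e0 := by rw [← (hg 3).1]; exact q _ rfl
    have f4 : (g 4 e).1 = e1 := by rw [← (hg 4).1]; exact q _ rfl
    have f5 : (g 5 e).1 = e3 := by rw [← (hg 5).1]; exact q _ rfl
    have f6 : (g 6 e).1 = e0 := by rw [← (hg 6).1]; exact q _ rfl
    have f7 : ∀ i : Fin M, ((g (7 + i) e).1 0 ^ 2) ^ (Fintype.card F - 1) =
        (e i ^ 2) ^ (Fintype.card F - 1) := by
      intro i
      rw [← (hg (7 + i)).1]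
      have ha : a (7 + i) = (((0 : T F), fun k : Fin M => if (k : ℕ) = (i : ℕ) then e0
          else 0), (0 : ((Fin M → F) → K F) × F)) := by
        rw [Nat.add_comm 7 (i : ℕ)]
      rw [ha, ev_def]
      simp only [zero_add]
      rw [Finset.sum_eq_single i]
      · simp [e0]
      · intro k _ hk
        rw [if_neg (by
          intro h
          apply hk
          apply Fin.ext
          omega), smul_zero]
      · intro hi
        exact absurd (Finset.mem_univ i) hi
    simp only [f0, f1, f2, f3, f4, f5, f6]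
    rw [← Fin.prod_univ_eq_prod_range
      (fun i => ((g (7 + i) e).1 0 ^ 2) ^ (Fintype.card F - 1)) M]
    rw [Finset.prod_congr rfl (fun i _ => f7 i)]
    have hv : ∀ q : F, val e0 e1 e2 e0 e1 e3 e0 q = q := by
      intro q
      simp [val, DJ, e0, e1, e2, e3]
    rw [hv]
  rw [Finset.sum_congr rfl (fun e _ => hval e), sum_ne] at h3
  exact zero_ne_one h3

end Pool.Agent.KS6_1.BinLie
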