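import Pool.Agent.KS6_1.RF.BinLie3
set_option linter.unusedSectionVars false

/-!
The algebra structure and the final statements.
-/

namespace Pool.Agent.KS6_1.BinLie

variable {F : Type} [Field F] [CharP F 2]

section alg

variable {I L : Type} [Fintype I] [AddCommGroup L] [Module F L] [Ev F I L]

theorem smul_fst' (c : F) (a : Alg F I L) : (c • a).1 = c • a.1 := rfl
theorem smul_snd' (c : F) (a : Alg F I L) (i : I) : (c • a).2.1 i = c • a.2.1 i := rfl
theorem smul_thd' (c : F) (a : Alg F I L) : (c • a).2.2 = c • a.2.2 := rfl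

theorem mid_smul_left (c : F) (x y : T F) (k l : K F) :
    mid (c • x) y (c • k) l = c • mid x y k l := by
  funext j
  fin_cases j <;> simp [mid, Bv, Aop] <;> ring

theorem mid_smul_right (c : F) (x y : T F) (k l : K F) :
    mid x (c • y) k (c • l) = c • mid x y k l := by
  funext j
  fin_cases j <;> simp [mid, Bv, Aop] <;> ring

instance : IsScalarTower F (Alg F I L) (Alg F I L) where
  smul_assoc c x y := by
    change (c • x) * y = c • (x * y)
    apply alg_ext
    · rw [mul_fst, smul_fst', mul_fst, smul_zero]
    · intro i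
      rw [mul_snd, smul_snd' c (x * y), mul_snd, smul_fst', smul_snd' c x, map_smul, mid_smul_left]
    · rw [mul_thd, smul_thd', mul_thd, Finset.smul_sum]
      refine Finset.sum_congr rfl fun i _ => ?_
      rw [smul_snd']
      simp only [om, Pi.smul_apply, smul_eq_mul]
      ring

instance : SMulCommClass F (Alg F I L) (Alg F I L) where
  smul_comm c x y := by
    change c • (x * y) = x * (c • y)
    apply alg_ext
    · rw [mul_fst, smul_fst', mul_fst, smul_zero]
    · intro i
      rw [smul_snd' c (x * y), mul_snd, mul_snd, smul_fst', smul_snd' c y, map_smul, mid_smul_right]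
    · rw [mul_thd, smul_thd', mul_thd, Finset.smul_sum]
      refine Finset.sum_congr rfl fun i _ => ?_
      rw [smul_snd']
      simp only [om, Pi.smul_apply, smul_eq_mul]
      ring

end alg

section lie
variable {I : Type} [Fintype I]

theorem InS.smul {a b x : Alg F I (T F)} (hx : InS a b x) (c : F) : InS a b (c • x) := by
  obtain ⟨α, β, γ, δ, h1, h2⟩ := hx
  refine ⟨c * α, c * β, c * γ, c * δ, ?_, ?_⟩
  · intro j
    rw [smul_fst', Pi.smul_apply, h1, smul_eq_mul]
    ring
  · intro i j
    rw [smul_snd', Pi.smul_apply, h2, smul_eq_mul]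
    ring

theorem InS.of_adjoin {a b x : Alg F I (T F)}
    (hx : x ∈ NonUnitalAlgebra.adjoin F ({a, b} : Set (Alg F I (T F)))) : InS a b x := by
  let S : NonUnitalSubalgebra F (Alg F I (T F)) :=
    { carrier := {x | InS a b x}
      add_mem' := InS.add
      zero_mem' := InS.zero a b
      mul_mem' := InS.mul
      smul_mem' := fun c _ hx => InS.smul hx c }
  have h : NonUnitalAlgebra.adjoin F ({a, b} : Set (Alg F I (T F))) ≤ S := by
    rw [NonUnitalAlgebra.adjoin_le_iff]
    rintro y (rfl | rfl)
    · exact InS.left _ _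
    · exact InS.right _ _
  exact h hx

end lie

variable [Fintype F]

instance (M : ℕ) : Finite (HH F M) :=
  inferInstanceAs (Finite (LL F M × ((Fin M → F) → K F) × F))

instance : Finite (GG F) := inferInstanceAs (Finite (T F × (Fin 2 → K F) × F))

theorem mbound_map {n : ℕ} (m : FreeMagma (Fin n)) : mbound (FreeMagma.map Fin.val m) ≤ n := by
  induction m with
  | ih1 i => exact i.2
  | ih2 s t ihs iht =>
    rw [map_mul]
    exact max_le ihs iht

/-- identities in `n` variables hold in the model -/
theorem model_fin (n : ℕ) (p : FreeMagma (Fin n) →₀ F)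
    (hp : ∀ f : Fin n → GG F, pev f p = 0) (g : Fin n → HH F (4 * n + 1)) : pev g p = 0 := by
  classical
  have h1 := model_holds n (4 * n + 1) (by omega) (p.mapDomain (FreeMagma.map Fin.val)) (by
    intro m hm
    obtain ⟨m', -, rfl⟩ := Finset.mem_image.1 (Finsupp.mapDomain_support hm)
    exact mbound_map m') (fun f => by rw [pev_rename]; exact hp _)
    (fun i => if h : i < n then g ⟨i, h⟩ else 0)
  rw [pev_rename] at h1
  have h2 : (fun i : ℕ => if h : i < n then g ⟨i, h⟩ else 0) ∘ Fin.val = g := by
    funext i
    simp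
  rwa [h2] at h1

theorem poly_scalar (S : Type) [CommRing S] [Algebra S F] (r M : ℕ) :
    (poly S r M).mapRange (algebraMap S F) (map_zero _) = poly F r M := by
  unfold poly
  simp only [Finsupp.mapRange_add (map_add (algebraMap S F)), Finsupp.mapRange_single, map_one]

/-- a failing identity with coefficients in `S` -/
theorem fails (S : Type) [CommRing S] [Algebra S F] [Module S (GG F)] [IsScalarTower S F (GG F)]
    (M : ℕ) [Module S (HH F M)] [IsScalarTower S F (HH F M)] :
    ∃ q : FreeMagma ℕ →₀ S, (∀ f : ℕ → GG F, pev f q = 0) ∧ ∃ g : ℕ → HH F M, pev g q ≠ 0 := by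
  refine ⟨poly S (Fintype.card F - 1) M, ?_, ?_⟩
  · intro f
    rw [← pev_scalar (F := F), poly_scalar]
    exact poly_identity _ _ f
  · obtain ⟨a, ha⟩ := poly_fails (F := F) M
    refine ⟨a, ?_⟩
    rwa [← pev_scalar (F := F), poly_scalar]

/-- identities with coefficients in `S` in variables with numbers below `n` hold in the model -/
theorem model_scalar (S : Type) [CommRing S] [Algebra S F] [Module S (GG F)]
    [IsScalarTower S F (GG F)] (n M : ℕ) (h : 4 * n < M) [Module S (HH F M)]
    [IsScalarTower S F (HH F M)] (p : FreeMagma ℕ →₀ S)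
    (hn : ∀ m ∈ p.support, mbound m ≤ n) (hp : ∀ f : ℕ → GG F, pev f p = 0)
    (a : ℕ → HH F M) : pev a p = 0 := by
  classical
  rw [← pev_scalar (F := F)]
  refine model_holds n M h _ ?_ ?_ a
  · intro m hm
    exact hn m (Finsupp.support_mapRange hm)
  · intro f
    rw [pev_scalar]
    exact hp f

end Pool.Agent.KS6_1.BinLie
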