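import Mathlib
import Pool.Graph.R_seed8.H955R3.WindowC
import Pool.Graph.R_seed8.Y699.W.Key

/-!
# Euclidean windows: a criterion, and CM fields of arbitrary unit rank
-/

open NumberField IsDedekindDomain
open scoped nonZeroDivisors

namespace Pool.Agent.KS6_1.RF.EucCM

open Pool.Agent.H955R3.Window Pool.Agent.Y699.W

variable {K : Type*} [Field K] [NumberField K]

/-- the norm of `x`, as a real number, without sign -/
noncomputable def nrm (x : K) : ℝ := |((Algebra.norm ℚ x : ℚ) : ℝ)|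

theorem nrm_mul (x y : K) : nrm (x * y) = nrm x * nrm y := by
  unfold nrm
  rw [map_mul]
  push_cast
  rw [abs_mul]

theorem nrm_prod (x : K) : nrm x = ∏ w : InfinitePlace K, w x ^ w.mult := by
  unfold nrm
  rw [InfinitePlace.prod_eq_abs_norm]
  push_cast
  rfl

theorem nrm_nat (m : ℕ) : nrm ((m : 𝓞 K) : K) = (m : ℝ) ^ Module.finrank ℚ K := by
  have h : ((m : 𝓞 K) : K) = algebraMap ℚ K m :=
    (map_natCast (algebraMap (𝓞 K) K) m).trans (map_natCast (algebraMap ℚ K) m).symm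
  unfold nrm
  rw [h, Algebra.norm_algebraMap]
  push_cast
  rw [abs_pow, Nat.abs_cast]

/-- **Criterion.** If there are quotients `a / b` with arbitrarily large powers of `𝔭` in the
denominator whose distance from the integers, measured by the norm, is at least `δ > 0`, then no
element of the window of `𝔭` is smaller than `N𝔭`. -/
theorem absNorm_le_of_points (p : HeightOneSpectrum (𝓞 K)) (δ : ℝ) (hδ : 0 < δ)
    (h : ∀ k : ℕ, ∃ (a b : 𝓞 K) (e : ℕ), b ≠ 0 ∧
      (∀ q : 𝓞 K, δ * nrm (b : K) ≤ nrm ((a - b * q : 𝓞 K) : K)) ∧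
      (∀ q : 𝓞 K, a - b * q ∉ p.asIdeal ^ (e + 1)) ∧ b ∈ p.asIdeal ^ (e + k))
    (c : ℝ) (hc : c ∈ window p) : (Ideal.absNorm p.asIdeal : ℝ) ≤ c := by
  by_contra hlt
  push Not at hlt
  obtain ⟨hc0, -, -, -, heuc⟩ := hc
  set P : ℝ := (Ideal.absNorm p.asIdeal : ℝ) with hP
  have hP0 : 0 < P := absNorm_pos p
  set ρ : ℝ := c / P with hρ
  have hρ0 : 0 < ρ := by positivity
  have hρ1 : ρ < 1 := by rw [hρ, div_lt_one hP0]; exact hlt
  obtain ⟨k, hk⟩ := exists_pow_lt_of_lt_one hδ hρ1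
  obtain ⟨a, b, e, hb0, hkey, hra, hbm⟩ := h k
  obtain ⟨q, hq⟩ := heuc a b hb0
  have hkey' := hkey q
  set r : 𝓞 K := a - b * q with hr
  have hNb : 0 < nrm (b : K) := lt_of_lt_of_le one_pos (one_le_abs_norm' b hb0)
  have hNr : 0 < nrm (r : K) := lt_of_lt_of_le (mul_pos hδ hNb) hkey'
  have hr0 : r ≠ 0 := by
    intro h
    rw [h] at hNr
    simp [nrm] at hNr
  have hrK : (r : K) ≠ 0 := by
    intro h; apply hr0; exact_mod_cast h
  have hbK : (b : K) ≠ 0 := by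
    intro h; apply hb0; exact_mod_cast h
  simp only at hq
  rw [weightedNorm_eq p c _ hrK, weightedNorm_eq p c _ hbK, ← hP, ← hρ] at hq
  set ν : 𝓞 K → ℤ := fun r => FractionalIdeal.count K p
    (FractionalIdeal.spanSingleton (𝓞 K)⁰ (r : K)) with hν
  have hvr : ν r ≤ e := by
    by_contra hcon
    push Not at hcon
    have h1 : ((e + 1 : ℕ) : ℤ) ≤ ν r := by push_cast; omega
    exact hra q ((le_count_iff p r hr0 (e + 1)).mp h1)
  have hvb : ((e + k : ℕ) : ℤ) ≤ ν b := (le_count_iff p b hb0 _).mpr hbm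
  have h1 : ρ ^ (e : ℤ) ≤ ρ ^ (ν r) := zpow_le_zpow_right_of_le_one₀ hρ0 hρ1.le hvr
  have h2 : ρ ^ (ν b) ≤ ρ ^ (((e + k : ℕ) : ℤ)) :=
    zpow_le_zpow_right_of_le_one₀ hρ0 hρ1.le hvb
  have hρe : 0 < ρ ^ e := by positivity
  change nrm (r : K) * ρ ^ (ν r) < nrm (b : K) * ρ ^ (ν b) at hq
  have h3 : nrm (r : K) * ρ ^ e < nrm (b : K) * (ρ ^ e * ρ ^ k) := by
    calc nrm (r : K) * ρ ^ e
        ≤ nrm (r : K) * ρ ^ (ν r) := by
          apply mul_le_mul_of_nonneg_left _ hNr.le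
          rw [← zpow_natCast]; exact h1
      _ < nrm (b : K) * ρ ^ (ν b) := hq
      _ ≤ nrm (b : K) * ρ ^ (((e + k : ℕ) : ℤ)) :=
          mul_le_mul_of_nonneg_left h2 hNb.le
      _ = nrm (b : K) * (ρ ^ e * ρ ^ k) := by
          rw [zpow_natCast, ← pow_add]
  have h4 : nrm (r : K) < nrm (b : K) * ρ ^ k := by
    have h5 : nrm (r : K) * ρ ^ e < (nrm (b : K) * ρ ^ k) * ρ ^ e := by
      calc _ < _ := h3
        _ = _ := by ring
    exact lt_of_mul_lt_mul_right h5 hρe.le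
  have h6 : nrm (b : K) * ρ ^ k < nrm (b : K) * δ := mul_lt_mul_of_pos_left hk hNb
  linarith

section CM

variable [IsCMField K]

/-- the complex conjugation on the ring of integers -/
noncomputable def J (x : 𝓞 K) : 𝓞 K := IsCMField.ringOfIntegersComplexConj K x

theorem J_coe (x : 𝓞 K) : ((J x : 𝓞 K) : K) = IsCMField.complexConj K (x : K) := rfl

theorem J_sub (x y : 𝓞 K) : J (x - y) = J x - J y := map_sub _ _ _
theorem J_add (x y : 𝓞 K) : J (x + y) = J x + J y := map_add _ _ _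
theorem J_mul (x y : 𝓞 K) : J (x * y) = J x * J y := map_mul _ _ _
theorem J_nat (m : ℕ) : J (m : 𝓞 K) = m := map_natCast _ _

theorem exists_J_ne : ∃ β : 𝓞 K, J β ≠ β := by
  by_contra hcon
  push Not at hcon
  apply IsCMField.complexConj_ne_one K
  ext x
  obtain ⟨a, b, hb, rfl⟩ := IsFractionRing.div_surjective (A := 𝓞 K) x
  have ha' : IsCMField.complexConj K (algebraMap (𝓞 K) K a) = algebraMap (𝓞 K) K a :=
    congrArg (algebraMap (𝓞 K) K) (hcon a)
  have hb' : IsCMField.complexConj K (algebraMap (𝓞 K) K b) = algebraMap (𝓞 K) K b :=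
    congrArg (algebraMap (𝓞 K) K) (hcon b)
  rw [map_div₀, ha', hb']
  rfl

/-- passing to the imaginary part increases the norm by the factor `2 ^ n` at most -/
theorem nrm_sub_J (x : 𝓞 K) :
    nrm ((x - J x : 𝓞 K) : K) ≤ 2 ^ Module.finrank ℚ K * nrm (x : K) := by
  rw [nrm_prod, nrm_prod, ← InfinitePlace.sum_mult_eq, ← Finset.prod_pow_eq_pow_sum,
    ← Finset.prod_mul_distrib]
  refine Finset.prod_le_prod (fun w _ => by positivity) (fun w _ => ?_)
  rw [← mul_pow]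
  refine pow_le_pow_left₀ (apply_nonneg w _) ?_ _
  rw [csub, J_coe]
  have h := abs_sub_le' w.1 (x : K) (IsCMField.complexConj K (x : K))
  have h2 : w.1 (IsCMField.complexConj K (x : K)) = w.1 (x : K) :=
    IsCMField.infinitePlace_complexConj K w (x : K)
  rw [h2] at h
  change w.1 _ ≤ 2 * w.1 _
  linarith

/-- **CM fields: nothing in the window of `𝔭` lies below `N𝔭`.** -/
theorem absNorm_le_of_CM (p : HeightOneSpectrum (𝓞 K)) (c : ℝ) (hc : c ∈ window p) :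
    (Ideal.absNorm p.asIdeal : ℝ) ≤ c := by
  obtain ⟨β, hβ⟩ := exists_J_ne (K := K)
  set n := Module.finrank ℚ K with hn
  have hn0 : 0 < n := Module.finrank_pos
  set γ : 𝓞 K := β - J β with hγ
  have hγ0 : γ ≠ 0 := by
    intro h; apply hβ; rw [hγ] at h; exact (sub_eq_zero.1 h).symm
  -- a natural number which does not divide `γ`
  obtain ⟨m, hm1, hmγ⟩ : ∃ m : ℕ, 1 ≤ m ∧ ∀ y : 𝓞 K, γ ≠ m * y := by
    obtain ⟨m, hm⟩ := exists_nat_gt (nrm (γ : K))
    refine ⟨m + 1, by omega, fun y hy => ?_⟩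
    have hy0 : y ≠ 0 := by
      rintro rfl
      apply hγ0; rw [hy, mul_zero]
    have h1 : nrm (γ : K) = ((m + 1 : ℕ) : ℝ) ^ n * nrm (y : K) := by
      rw [hy, cmul, nrm_mul, nrm_nat]
    have h2 : 1 ≤ nrm (y : K) := one_le_abs_norm' y hy0
    have h3 : ((m + 1 : ℕ) : ℝ) ≤ ((m + 1 : ℕ) : ℝ) ^ n :=
      le_self_pow₀ (by push_cast; linarith [Nat.cast_nonneg (α := ℝ) m]) hn0.ne'
    have h4 : ((m + 1 : ℕ) : ℝ) ≤ nrm (γ : K) := by
      rw [h1]
      calc ((m + 1 : ℕ) : ℝ) ≤ ((m + 1 : ℕ) : ℝ) ^ n := h3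
        _ = ((m + 1 : ℕ) : ℝ) ^ n * 1 := (mul_one _).symm
        _ ≤ _ := by gcongr
    push_cast at h4
    linarith
  have hmK : (m : 𝓞 K) ≠ 0 := by
    have : (m : ℕ) ≠ 0 := by omega
    exact_mod_cast this
  have hmR : (0 : ℝ) < m := by exact_mod_cast hm1
  -- the exponent of `𝔭` in `m`
  obtain ⟨e, he⟩ : ∃ e : ℕ, (e : ℤ) = FractionalIdeal.count K p
      (FractionalIdeal.spanSingleton (𝓞 K)⁰ ((m : 𝓞 K) : K)) :=
    ⟨_, Int.toNat_of_nonneg (count_nonneg p _)⟩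
  have hme : (m : 𝓞 K) ∈ p.asIdeal ^ e := (le_count_iff p _ hmK e).mp he.le
  have hme' : (m : 𝓞 K) ∉ p.asIdeal ^ (e + 1) := by
    intro h
    have := (le_count_iff p _ hmK (e + 1)).mpr h
    rw [← he] at this
    push_cast at this
    omega
  refine absNorm_le_of_points p (1 / (2 * (m : ℝ)) ^ n) (by positivity) (fun k => ?_) c hc
  set t : ℕ := (Ideal.absNorm p.asIdeal) ^ (e + 1 + k) with ht
  have ht0 : t ≠ 0 := by
    rw [ht]
    apply pow_ne_zero
    rw [Ne, Ideal.absNorm_eq_zero_iff]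
    exact p.ne_bot
  have htR : (0 : ℝ) < t := by exact_mod_cast Nat.pos_of_ne_zero ht0
  have htK : (t : 𝓞 K) ≠ 0 := by exact_mod_cast ht0
  have htm : (t : 𝓞 K) ∈ p.asIdeal ^ (e + 1 + k) := by
    rw [ht]
    push_cast
    exact Ideal.pow_mem_pow (Ideal.absNorm_mem _) _
  refine ⟨(m : 𝓞 K) + t * β, (m : 𝓞 K) * t, e, mul_ne_zero hmK htK, fun q => ?_, fun q => ?_, ?_⟩
  · -- the lower bound
    set r : 𝓞 K := (m : 𝓞 K) + t * β - m * t * q with hr
    set g : 𝓞 K := γ - m * (q - J q) with hg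
    have hrJ : r - J r = t * g := by
      rw [hr, J_sub, J_add, J_mul, J_mul, J_mul, J_nat, J_nat, hg, hγ]
      ring
    have hg0 : g ≠ 0 := by
      intro h
      apply hmγ (q - J q)
      rw [hg] at h
      exact sub_eq_zero.1 h
    have h1 := nrm_sub_J r
    rw [hrJ, cmul, nrm_mul, nrm_nat, ← hn] at h1
    have h2 : 1 ≤ nrm (g : K) := one_le_abs_norm' g hg0
    have h3 : (t : ℝ) ^ n ≤ 2 ^ n * nrm (r : K) := by
      calc (t : ℝ) ^ n = (t : ℝ) ^ n * 1 := (mul_one _).symm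
        _ ≤ (t : ℝ) ^ n * nrm (g : K) := by gcongr
        _ ≤ _ := h1
    rw [cmul, nrm_mul, nrm_nat, nrm_nat, ← hn]
    have h4 : 1 / (2 * (m : ℝ)) ^ n * ((m : ℝ) ^ n * (t : ℝ) ^ n) = (t : ℝ) ^ n / 2 ^ n := by
      rw [mul_pow]
      field_simp
    rw [h4, div_le_iff₀ (by positivity)]
    linarith
  · -- the exponent of the remainders
    intro h
    apply hme'
    have h1 : (t : 𝓞 K) ∈ p.asIdeal ^ (e + 1) :=
      Ideal.pow_le_pow_right (by omega : e + 1 ≤ e + 1 + k) htm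
    have h2 : (m : 𝓞 K) = ((m : 𝓞 K) + t * β - m * t * q) + (t : 𝓞 K) * (m * q - β) := by ring
    rw [h2]
    exact Ideal.add_mem _ h (Ideal.mul_mem_right _ _ h1)
  · -- the exponent of the denominator
    have h1 : (m : 𝓞 K) * t ∈ p.asIdeal ^ e * p.asIdeal ^ (e + 1 + k) := Ideal.mul_mem_mul hme htm
    rw [← pow_add] at h1
    exact Ideal.pow_le_pow_right (by omega : e + k ≤ e + (e + 1 + k)) h1

end CM

end Pool.Agent.KS6_1.RF.EucCM
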