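import Mathlib

/-!
# The ring of integers of the seventh cyclotomic field is norm-Euclidean
-/

open NumberField

namespace Pool.Agent.KS6_1.RF.EucCyc7

/-- sum of the squared differences -/
noncomputable def T (a b c d e f g : ℝ) : ℝ :=
  (a - b) ^ 2 + (a - c) ^ 2 + (a - d) ^ 2 + (a - e) ^ 2 + (a - f) ^ 2 + (a - g) ^ 2 +
  (b - c) ^ 2 + (b - d) ^ 2 + (b - e) ^ 2 + (b - f) ^ 2 + (b - g) ^ 2 +
  (c - d) ^ 2 + (c - e) ^ 2 + (c - f) ^ 2 + (c - g) ^ 2 +
  (d - e) ^ 2 + (d - f) ^ 2 + (d - g) ^ 2 + (e - f) ^ 2 + (e - g) ^ 2 + (f - g) ^ 2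

theorem quarter (x : ℝ) : x * (1 - x) ≤ 1 / 4 := by nlinarith [sq_nonneg (2 * x - 1)]

theorem T_aux (a b c d e f g : ℝ) (h0 : 0 ≤ a) (h1 : a ≤ b) (h2 : b ≤ c) (h3 : c ≤ d)
    (h4 : d ≤ e) (h5 : e ≤ f) (h6 : f ≤ g) (h7 : g ≤ 1)
    (k0 : 11 / 2 ≤ T a b c d e f g) (k1 : 11 / 2 ≤ T (a + 1) b c d e f g)
    (k2 : 11 / 2 ≤ T (a + 1) (b + 1) c d e f g)
    (k3 : 11 / 2 ≤ T (a + 1) (b + 1) (c + 1) d e f g)
    (k4 : 11 / 2 ≤ T (a + 1) (b + 1) (c + 1) (d + 1) e f g)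
    (k5 : 11 / 2 ≤ T (a + 1) (b + 1) (c + 1) (d + 1) (e + 1) f g)
    (k6 : 11 / 2 ≤ T (a + 1) (b + 1) (c + 1) (d + 1) (e + 1) (f + 1) g) : False := by
  have p0 := mul_le_mul_of_nonneg_left k0 (show 0 ≤ 1 - g + a by linarith)
  have p1 := mul_le_mul_of_nonneg_left k1 (show 0 ≤ b - a by linarith)
  have p2 := mul_le_mul_of_nonneg_left k2 (show 0 ≤ c - b by linarith)
  have p3 := mul_le_mul_of_nonneg_left k3 (show 0 ≤ d - c by linarith)
  have p4 := mul_le_mul_of_nonneg_left k4 (show 0 ≤ e - d by linarith)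
  have p5 := mul_le_mul_of_nonneg_left k5 (show 0 ≤ f - e by linarith)
  have p6 := mul_le_mul_of_nonneg_left k6 (show 0 ≤ g - f by linarith)
  have key : (1 - g + a) * T a b c d e f g + (b - a) * T (a + 1) b c d e f g +
      (c - b) * T (a + 1) (b + 1) c d e f g + (d - c) * T (a + 1) (b + 1) (c + 1) d e f g +
      (e - d) * T (a + 1) (b + 1) (c + 1) (d + 1) e f g +
      (f - e) * T (a + 1) (b + 1) (c + 1) (d + 1) (e + 1) f g +
      (g - f) * T (a + 1) (b + 1) (c + 1) (d + 1) (e + 1) (f + 1) g =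
      (b - a) * (1 - (b - a)) + (c - a) * (1 - (c - a)) + (d - a) * (1 - (d - a)) +
      (e - a) * (1 - (e - a)) + (f - a) * (1 - (f - a)) + (g - a) * (1 - (g - a)) +
      (c - b) * (1 - (c - b)) + (d - b) * (1 - (d - b)) + (e - b) * (1 - (e - b)) +
      (f - b) * (1 - (f - b)) + (g - b) * (1 - (g - b)) +
      (d - c) * (1 - (d - c)) + (e - c) * (1 - (e - c)) + (f - c) * (1 - (f - c)) +
      (g - c) * (1 - (g - c)) + (e - d) * (1 - (e - d)) + (f - d) * (1 - (f - d)) +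
      (g - d) * (1 - (g - d)) + (f - e) * (1 - (f - e)) + (g - e) * (1 - (g - e)) +
      (g - f) * (1 - (g - f)) := by
    simp only [T]; ring
  have q1 := quarter (b - a)
  have q2 := quarter (c - a)
  have q3 := quarter (d - a)
  have q4 := quarter (e - a)
  have q5 := quarter (f - a)
  have q6 := quarter (g - a)
  have q7 := quarter (c - b)
  have q8 := quarter (d - b)
  have q9 := quarter (e - b)
  have q10 := quarter (f - b)
  have q11 := quarter (g - b)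
  have q12 := quarter (d - c)
  have q13 := quarter (e - c)
  have q14 := quarter (f - c)
  have q15 := quarter (g - c)
  have q16 := quarter (e - d)
  have q17 := quarter (f - d)
  have q18 := quarter (g - d)
  have q19 := quarter (f - e)
  have q20 := quarter (g - e)
  have q21 := quarter (g - f)
  linarith

/-- all ordered squared differences -/
noncomputable def SS (y : Fin 7 → ℝ) : ℝ := ∑ i, ∑ j, (y i - y j) ^ 2

theorem SS_eq (y : Fin 7 → ℝ) : SS y = 2 * T (y 0) (y 1) (y 2) (y 3) (y 4) (y 5) (y 6) := by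
  simp only [SS, T, Fin.sum_univ_seven]
  ring

theorem comb (a : Fin 7 → ℝ) (h0 : ∀ i, 0 ≤ a i) (h1 : ∀ i, a i ≤ 1) (hm : Monotone a) :
    ∃ n : Fin 7 → ℤ, SS (fun i => a i - n i) < 11 := by
  by_contra hcon
  push Not at hcon
  have k0 := hcon (fun _ => 0)
  have k1 := hcon ![-1, 0, 0, 0, 0, 0, 0]
  have k2 := hcon ![-1, -1, 0, 0, 0, 0, 0]
  have k3 := hcon ![-1, -1, -1, 0, 0, 0, 0]
  have k4 := hcon ![-1, -1, -1, -1, 0, 0, 0]
  have k5 := hcon ![-1, -1, -1, -1, -1, 0, 0]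
  have k6 := hcon ![-1, -1, -1, -1, -1, -1, 0]
  rw [SS_eq] at k0 k1 k2 k3 k4 k5 k6
  simp at k0 k1 k2 k3 k4 k5 k6
  refine T_aux (a 0) (a 1) (a 2) (a 3) (a 4) (a 5) (a 6) (h0 0) (hm (by decide))
    (hm (by decide)) (hm (by decide)) (hm (by decide)) (hm (by decide)) (hm (by decide)) (h1 6)
    ?_ ?_ ?_ ?_ ?_ ?_ ?_ <;> linarith

theorem exists_round (x : Fin 7 → ℝ) : ∃ n : Fin 7 → ℤ, SS (fun i => x i - n i) < 11 := by
  set f : Fin 7 → ℝ := fun i => Int.fract (x i) with hf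
  set σ := Tuple.sort f with hσ
  obtain ⟨n, hn⟩ := comb (f ∘ σ) (fun i => Int.fract_nonneg _) (fun i => (Int.fract_lt_one _).le)
    (Tuple.monotone_sort f)
  refine ⟨fun i => ⌊x i⌋ + n (σ.symm i), ?_⟩
  have h : SS (fun i => x i - ((⌊x i⌋ + n (σ.symm i) : ℤ) : ℝ)) =
      SS (fun i => (f ∘ σ) i - n i) := by
    unfold SS
    rw [← Equiv.sum_comp σ]
    refine Finset.sum_congr rfl (fun i _ => ?_)
    rw [← Equiv.sum_comp σ]
    refine Finset.sum_congr rfl (fun j _ => ?_)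
    simp only [Equiv.symm_apply_apply, Function.comp, hf, Int.fract]
    push_cast
    ring
  rw [h]
  exact hn


/-- the element with the coordinates `y` at the point `μ` -/
noncomputable def P (y : Fin 7 → ℝ) (μ : ℂ) : ℂ := ∑ i : Fin 7, (y i : ℂ) * μ ^ (i : ℕ)

theorem geom (η : ℂ) (h7 : η ^ 7 = 1) : ∑ k ∈ Finset.range 7, η ^ k = if η = 1 then 7 else 0 := by
  split_ifs with h
  · rw [h]; simp
  · have h1 := geom_sum_mul η 7
    rw [h7, sub_self] at h1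
    rcases mul_eq_zero.1 h1 with h2 | h2
    · exact h2
    · exact absurd (sub_eq_zero.1 h2) h

theorem parseval (ω : ℂ) (hω : IsPrimitiveRoot ω 7) (y : Fin 7 → ℝ) :
    ∑ k ∈ Finset.range 7, ‖P y (ω ^ k)‖ ^ 2 = 7 * ∑ i, y i ^ 2 := by
  have hω0 : ω ≠ 0 := hω.ne_zero (by norm_num)
  have hnorm : ‖ω‖ = 1 := hω.norm'_eq_one (by norm_num)
  have hconj : (starRingEnd ℂ) ω = ω⁻¹ := by
    rw [Complex.inv_def, Complex.normSq_eq_norm_sq, hnorm]
    simp
  have h1 : ∀ k : ℕ, ((‖P y (ω ^ k)‖ ^ 2 : ℝ) : ℂ) =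
      ∑ i : Fin 7, ∑ j : Fin 7, ((y i : ℂ) * y j) * (ω ^ (i : ℕ) * (ω ^ (j : ℕ))⁻¹) ^ k := by
    intro k
    have h2 : ((‖P y (ω ^ k)‖ ^ 2 : ℝ) : ℂ) = P y (ω ^ k) * (starRingEnd ℂ) (P y (ω ^ k)) := by
      rw [Complex.mul_conj, Complex.normSq_eq_norm_sq]
    rw [h2]
    unfold P
    rw [map_sum, Finset.sum_mul_sum]
    refine Finset.sum_congr rfl (fun i _ => Finset.sum_congr rfl (fun j _ => ?_))
    rw [map_mul, Complex.conj_ofReal, map_pow, map_pow, hconj]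
    rw [mul_pow, inv_pow, inv_pow, inv_pow, ← pow_mul, ← pow_mul, ← pow_mul, ← pow_mul,
      mul_comm (i : ℕ) k, mul_comm (j : ℕ) k]
    ring
  have h3 : ((∑ k ∈ Finset.range 7, ‖P y (ω ^ k)‖ ^ 2 : ℝ) : ℂ) =
      ((7 * ∑ i, y i ^ 2 : ℝ) : ℂ) := by
    push_cast
    have h4 : ∀ k : ℕ, ((‖P y (ω ^ k)‖ : ℂ)) ^ 2 = ((‖P y (ω ^ k)‖ ^ 2 : ℝ) : ℂ) := by
      intro k; push_cast; rfl
    simp only [h4, h1]
    rw [Finset.sum_comm]
    rw [Finset.mul_sum]
    refine Finset.sum_congr rfl (fun i _ => ?_)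
    rw [Finset.sum_comm]
    have h5 : ∀ j : Fin 7, ∑ k ∈ Finset.range 7,
        ((y i : ℂ) * y j) * (ω ^ (i : ℕ) * (ω ^ (j : ℕ))⁻¹) ^ k =
        if j = i then 7 * (y i : ℂ) ^ 2 else 0 := by
      intro j
      rw [← Finset.mul_sum, geom]
      · by_cases hij : j = i
        · subst hij
          rw [if_pos rfl, mul_inv_cancel₀ (pow_ne_zero _ hω0), if_pos rfl]
          ring
        · rw [if_neg hij, if_neg, mul_zero]
          intro h
          apply hij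
          have h6 : ω ^ (i : ℕ) = ω ^ (j : ℕ) := by
            rw [← div_eq_mul_inv, div_eq_one_iff_eq (pow_ne_zero _ hω0)] at h
            exact h
          exact (Fin.ext (hω.pow_inj i.2 j.2 h6)).symm
      · rw [mul_pow, inv_pow, ← pow_mul, ← pow_mul, mul_comm (i : ℕ) 7, mul_comm (j : ℕ) 7,
          pow_mul, pow_mul, hω.pow_eq_one]
        simp
    simp only [h5]
    rw [Finset.sum_ite_eq' Finset.univ i]
    simp
  exact_mod_cast h3

theorem prim_eq (ω : ℂ) (hω : IsPrimitiveRoot ω 7) :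
    primitiveRoots 7 ℂ = ((Finset.range 7).erase 0).image (fun k => ω ^ k) := by
  ext μ
  rw [mem_primitiveRoots (by norm_num), hω.isPrimitiveRoot_iff, Finset.mem_image]
  constructor
  · rintro ⟨i, hi, hc, rfl⟩
    refine ⟨i, Finset.mem_erase.2 ⟨?_, Finset.mem_range.2 hi⟩, rfl⟩
    rintro rfl
    exact absurd hc (by decide)
  · rintro ⟨i, hi, rfl⟩
    rw [Finset.mem_erase, Finset.mem_range] at hi
    refine ⟨i, hi.2, ?_, rfl⟩
    obtain ⟨h0, h7⟩ := hi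
    interval_cases i <;> first | exact absurd rfl h0 | decide

theorem sum_prim (y : Fin 7 → ℝ) :
    ∑ μ ∈ primitiveRoots 7 ℂ, ‖P y μ‖ ^ 2 = SS y / 2 := by
  set ω : ℂ := Complex.exp (2 * Real.pi * Complex.I / (7 : ℕ)) with hωdef
  have hω : IsPrimitiveRoot ω 7 := Complex.isPrimitiveRoot_exp 7 (by norm_num)
  have h1 := parseval ω hω y
  rw [← Finset.add_sum_erase (Finset.range 7) _ (Finset.mem_range.2 (by norm_num : 0 < 7))] at h1
  rw [prim_eq ω hω, Finset.sum_image (by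
    intro a ha b hb hab
    exact hω.pow_inj (Finset.mem_range.1 (Finset.mem_of_mem_erase ha))
      (Finset.mem_range.1 (Finset.mem_of_mem_erase hb)) hab)]
  have h2 : ‖P y (ω ^ 0)‖ ^ 2 = (∑ i, y i) ^ 2 := by
    have h3 : P y (ω ^ 0) = ((∑ i, y i : ℝ) : ℂ) := by
      simp [P]
    rw [h3, Complex.norm_real, Real.norm_eq_abs, sq_abs]
  have h4 : SS y = 14 * ∑ i, y i ^ 2 - 2 * (∑ i, y i) ^ 2 := by
    simp only [SS, Fin.sum_univ_seven]
    ring
  rw [h2] at h1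
  rw [h4]
  linarith

theorem prod_lt (y : Fin 7 → ℝ) (h : SS y < 11) : ∏ μ ∈ primitiveRoots 7 ℂ, ‖P y μ‖ < 1 := by
  have hcard : (primitiveRoots 7 ℂ).card = 6 := by
    rw [Complex.card_primitiveRoots]; decide
  have h1 : (∏ μ ∈ primitiveRoots 7 ℂ, ‖P y μ‖) ^ 2 ≤ Real.exp (SS y / 2 - 6) := by
    rw [← Finset.prod_pow]
    calc ∏ μ ∈ primitiveRoots 7 ℂ, ‖P y μ‖ ^ 2
        ≤ ∏ μ ∈ primitiveRoots 7 ℂ, Real.exp (‖P y μ‖ ^ 2 - 1) := by
          refine Finset.prod_le_prod (fun _ _ => by positivity) (fun μ _ => ?_)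
          have := Real.add_one_le_exp (‖P y μ‖ ^ 2 - 1)
          linarith
      _ = Real.exp (SS y / 2 - 6) := by
          rw [← Real.exp_sum, Finset.sum_sub_distrib, sum_prim, Finset.sum_const, hcard]
          simp
  have h2 : Real.exp (SS y / 2 - 6) < 1 := by
    rw [Real.exp_lt_one_iff]; linarith
  have h3 : 0 ≤ ∏ μ ∈ primitiveRoots 7 ℂ, ‖P y μ‖ := Finset.prod_nonneg (fun _ _ => norm_nonneg _)
  nlinarith


section Cyc

variable (K : Type*) [Field K] [NumberField K] [IsCyclotomicExtension {7} ℚ K]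

/-- a primitive seventh root of unity -/
noncomputable def z7 : K := IsCyclotomicExtension.zeta 7 ℚ K

theorem hz7 : IsPrimitiveRoot (z7 K) 7 := IsCyclotomicExtension.zeta_spec 7 ℚ K

theorem irr7 : Irreducible (Polynomial.cyclotomic 7 ℚ) :=
  Polynomial.cyclotomic.irreducible_rat (by norm_num)

theorem norm_lt (y : Fin 7 → ℚ) (h : SS (fun i => (y i : ℝ)) < 11) :
    |((Algebra.norm ℚ (∑ i : Fin 7, (algebraMap ℚ K (y i)) * z7 K ^ (i : ℕ)) : ℚ) : ℝ)| < 1 := by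
  set x : K := ∑ i : Fin 7, (algebraMap ℚ K (y i)) * z7 K ^ (i : ℕ) with hx
  have h1 : |((Algebra.norm ℚ x : ℚ) : ℝ)| = ∏ σ : K →ₐ[ℚ] ℂ, ‖σ x‖ := by
    have h2 := Algebra.norm_eq_prod_embeddings ℚ (L := K) ℂ x
    rw [← norm_prod, ← h2]
    simp
  have h3 : ∀ σ : K →ₐ[ℚ] ℂ, σ x = P (fun i => (y i : ℝ))
      (((hz7 K).embeddingsEquivPrimitiveRoots ℂ irr7 σ : primitiveRoots 7 ℂ) : ℂ) := by
    intro σ
    rw [IsPrimitiveRoot.embeddingsEquivPrimitiveRoots_apply_coe, hx, map_sum]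
    unfold P
    refine Finset.sum_congr rfl (fun i _ => ?_)
    rw [map_mul, map_pow, AlgHom.commutes]
    simp
  rw [h1]
  simp only [h3]
  rw [Fintype.prod_equiv ((hz7 K).embeddingsEquivPrimitiveRoots ℂ irr7)
    (fun σ => ‖P (fun i => (y i : ℝ))
      (((hz7 K).embeddingsEquivPrimitiveRoots ℂ irr7 σ : primitiveRoots 7 ℂ) : ℂ)‖)
    (fun μ => ‖P (fun i => (y i : ℝ)) (μ : ℂ)‖) (fun σ => rfl)]
  have h4 := Finset.prod_coe_sort (primitiveRoots 7 ℂ) (fun μ => ‖P (fun i => (y i : ℝ)) μ‖)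
  rw [h4]
  exact prod_lt _ h

theorem finrank7 : Module.finrank ℚ K = 6 := by
  rw [IsCyclotomicExtension.finrank (n := 7) K irr7]
  decide

theorem exists_coord (x : K) :
    ∃ c : Fin 7 → ℚ, x = ∑ i : Fin 7, (algebraMap ℚ K (c i)) * z7 K ^ (i : ℕ) := by
  obtain ⟨f, hf, hx⟩ := ((hz7 K).powerBasis ℚ).exists_eq_aeval x
  have hd : f.natDegree < 7 := by
    have h1 := ((hz7 K).powerBasis ℚ).finrank
    rw [finrank7] at h1
    omega
  refine ⟨fun i => f.coeff i, ?_⟩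
  have hg : ((hz7 K).powerBasis ℚ).gen = z7 K := rfl
  rw [hx, hg, Polynomial.aeval_eq_sum_range' hd, ← Fin.sum_univ_eq_sum_range
    (fun i => f.coeff i • z7 K ^ i)]
  refine Finset.sum_congr rfl (fun i _ => ?_)
  rw [Algebra.smul_def]

theorem exists_near (x : K) : ∃ q : 𝓞 K, |((Algebra.norm ℚ (x - (q : K)) : ℚ) : ℝ)| < 1 := by
  obtain ⟨c, hc⟩ := exists_coord K x
  obtain ⟨n, hn⟩ := exists_round (fun i => (c i : ℝ))
  refine ⟨∑ i : Fin 7, (n i : 𝓞 K) * ((hz7 K).toInteger) ^ (i : ℕ), ?_⟩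
  have h1 : x - ((∑ i : Fin 7, (n i : 𝓞 K) * ((hz7 K).toInteger) ^ (i : ℕ) : 𝓞 K) : K) =
      ∑ i : Fin 7, (algebraMap ℚ K (c i - n i)) * z7 K ^ (i : ℕ) := by
    have hs : ((∑ i : Fin 7, (n i : 𝓞 K) * ((hz7 K).toInteger) ^ (i : ℕ) : 𝓞 K) : K) =
        ∑ i : Fin 7, algebraMap (𝓞 K) K ((n i : 𝓞 K) * ((hz7 K).toInteger) ^ (i : ℕ)) :=
      map_sum (algebraMap (𝓞 K) K) _ _
    rw [hc, hs, ← Finset.sum_sub_distrib]
    refine Finset.sum_congr rfl (fun i _ => ?_)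
    rw [map_mul, map_pow, map_sub, map_intCast, map_intCast]
    have h2 : algebraMap (𝓞 K) K (hz7 K).toInteger = z7 K := rfl
    rw [h2]
    ring
  rw [h1]
  apply norm_lt
  simpa using hn

/-- the unit rank of the seventh cyclotomic field -/
theorem rank7 : NumberField.Units.rank K = 2 := by
  have h1 := IsCyclotomicExtension.Rat.nrComplexPlaces_eq_totient_div_two 7 K
  have h2 := IsCyclotomicExtension.Rat.nrRealPlaces_eq_zero K (n := 7) (by norm_num)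
  have h3 := InfinitePlace.card_eq_nrRealPlaces_add_nrComplexPlaces K
  have h4 : Nat.totient 7 = 6 := by decide
  unfold NumberField.Units.rank
  rw [h3]
  rw [h4] at h1
  omega

end Cyc

end Pool.Agent.KS6_1.RF.EucCyc7
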