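import Pool.Graph.R_seed8.Results.MP_36bee3_al.SharpAmalgam

set_option autoImplicit false

/-!
Coprime extensions of Fischer classes.
-/

namespace Pool.Agent.KS6_1.FischerExt

open Subgroup
open Pool.Agent.Results.MP_36bee3_al.NotR0Closed

/-- all prime divisors of the order of `G` lie in `π` -/
def PG (π : Set ℕ) (G : Type) : Prop := ∀ p : ℕ, p.Prime → p ∣ Nat.card G → p ∈ π

/-- the finite soluble groups that have a normal `π`-subgroup with quotient in `X` -/
def Ext (π : Set ℕ) (X : (G : Type) → [Group G] → Prop) (G : Type) [Group G] : Prop :=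
  Finite G ∧ Group.IsSolvable G ∧ ∃ N : Subgroup G, ∃ _ : N.Normal, PG π N ∧ X (G ⧸ N)

theorem PG.of_dvd {π : Set ℕ} {G H : Type} (h : PG π G) (hd : Nat.card H ∣ Nat.card G) : PG π H :=
  fun p hp hpd => h p hp (hpd.trans hd)

theorem hall {ρ π : Set ℕ} (hd : Disjoint ρ π) {K : Type} [Group K] [Finite K] (N : Subgroup K)
    [N.Normal] (h1 : PG ρ (K ⧸ N)) (L : Subgroup K) (h2 : PG π L) : L ≤ N := by
  intro x hx
  rw [← QuotientGroup.eq_one_iff]
  by_contra hne
  have h3 : orderOf (x : K ⧸ N) ≠ 1 := fun h => hne (orderOf_eq_one_iff.1 h)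
  obtain ⟨p, hp, hpd⟩ := Nat.exists_prime_and_dvd h3
  have h4 : orderOf (x : K ⧸ N) ∣ Nat.card L :=
    (orderOf_map_dvd (QuotientGroup.mk' N) x).trans (by
      have := orderOf_dvd_natCard (⟨x, hx⟩ : L)
      rwa [Subgroup.orderOf_mk] at this)
  exact Set.disjoint_left.1 hd (h1 p hp (hpd.trans (orderOf_dvd_natCard _)))
    (h2 p hp (hpd.trans h4))

variable {ρ π : Set ℕ} {X : (G : Type) → [Group G] → Prop}

theorem PG.sup {G : Type} [Group G] [Finite G] (A B : Subgroup G) [A.Normal] (hA : PG π A)
    (hB : PG π B) : PG π (A ⊔ B : Subgroup G) := by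
  intro p hp hd
  have h1 : Nat.card A * A.relIndex (A ⊔ B) = Nat.card (A ⊔ B : Subgroup G) := by
    have := Subgroup.relIndex_mul_relIndex (⊥ : Subgroup G) A (A ⊔ B) bot_le le_sup_left
    simpa [Subgroup.relIndex_bot_left] using this
  rw [← h1] at hd
  rcases (Nat.Prime.dvd_mul hp).1 hd with h | h
  · exact hA p hp h
  · refine hB p hp (h.trans ?_)
    have h2 : A.relIndex (A ⊔ B) = A.relIndex B := by
      rw [sup_comm]; exact Subgroup.relIndex_sup_right B A
    rw [h2]
    exact Subgroup.relIndex_dvd_card A B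

/-- the image of a normal Hall subgroup of a normal subgroup is normal -/
theorem map_normal (hX : ∀ (G : Type) [Group G], X G → PG ρ G) (hd : Disjoint ρ π) {G : Type}
    [Group G] [Finite G] (K : Subgroup G) [K.Normal] (N : Subgroup K) [N.Normal] (h1 : PG π N)
    (h2 : X (K ⧸ N)) : (N.map K.subtype).Normal := by
  constructor
  intro n hn g
  have h3 : ((N.map K.subtype).map (MulAut.conj g).toMonoidHom).subgroupOf K ≤ N := by
    refine hall hd N (hX _ h2) _ ?_
    refine h1.of_dvd ?_
    have h4 : Nat.card (((N.map K.subtype).map (MulAut.conj g).toMonoidHom).subgroupOf K) ∣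
        Nat.card ((N.map K.subtype).map (MulAut.conj g).toMonoidHom) :=
      Subgroup.card_comap_dvd_of_injective _ _ K.subtype_injective
    refine h4.trans ?_
    exact (Subgroup.card_map_dvd _ _).trans (Subgroup.card_map_dvd _ _)
  have hnK : n ∈ K := by
    obtain ⟨x, -, rfl⟩ := hn
    exact x.2
  have hgK : g * n * g⁻¹ ∈ K := ‹K.Normal›.conj_mem n hnK g
  have h5 : (⟨g * n * g⁻¹, hgK⟩ : K) ∈
      ((N.map K.subtype).map (MulAut.conj g).toMonoidHom).subgroupOf K := by
    rw [Subgroup.mem_subgroupOf]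
    exact ⟨n, hn, rfl⟩
  exact ⟨_, h3 h5, rfl⟩

theorem range_mem (hiso : ∀ (G H : Type) [Group G] [Group H], (G ≃* H) → X G → X H)
    {K H : Type} [Group K] [Group H] (f : K →* H) (N : Subgroup K) [N.Normal] (hN : N = f.ker)
    (h : X (K ⧸ N)) : X f.range :=
  hiso _ _ ((QuotientGroup.quotientMulEquivOfEq hN).trans (QuotientGroup.quotientKerEquivRange f)) h

theorem binary (hX : IsFischerClass X) (hρ : ∀ (G : Type) [Group G], X G → PG ρ G)
    (hd : Disjoint ρ π) (G : Type) [Group G] [Finite G] [Group.IsSolvable G] (K L : Subgroup G)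
    [K.Normal] [L.Normal] (hKL : K ⊔ L = ⊤) (hK : Ext π X K) (hL : Ext π X L) : Ext π X G := by
  obtain ⟨-, -, NK, nK, pK, xK⟩ := hK
  obtain ⟨-, -, NL, nL, pL, xL⟩ := hL
  have hA := map_normal hρ hd K NK pK xK
  have hB := map_normal hρ hd L NL pL xL
  set A := NK.map K.subtype with hAdef
  set B := NL.map L.subtype with hBdef
  have pA : PG π A := pK.of_dvd (Subgroup.card_map_dvd _ _)
  have pB : PG π B := pL.of_dvd (Subgroup.card_map_dvd _ _)
  have pN : PG π (A ⊔ B : Subgroup G) := PG.sup A B pA pB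
  have key : ∀ (M : Subgroup G) [M.Normal] (NM : Subgroup M) [NM.Normal], X (M ⧸ NM) →
      NM.map M.subtype ≤ A ⊔ B → X ((QuotientGroup.mk' (A ⊔ B)).comp M.subtype).range := by
    intro M _ NM _ hx hle
    refine range_mem hX.isClass.iso _ NM ?_ hx
    have hker : ((QuotientGroup.mk' (A ⊔ B)).comp M.subtype).ker = (A ⊔ B).subgroupOf M := by
      ext x
      simp [MonoidHom.mem_ker, Subgroup.mem_subgroupOf]
    rw [hker]
    apply le_antisymm
    · intro x hx'
      exact hle ⟨x, hx', rfl⟩
    · refine hall hd NM (hρ _ hx) _ (pN.of_dvd ?_)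
      exact Subgroup.card_comap_dvd_of_injective _ _ M.subtype_injective
  refine ⟨inferInstance, inferInstance, A ⊔ B, inferInstance, pN, ?_⟩
  refine hX.n0 (G ⧸ (A ⊔ B)) 2 ![((QuotientGroup.mk' (A ⊔ B)).comp K.subtype).range,
    ((QuotientGroup.mk' (A ⊔ B)).comp L.subtype).range] ?_ ?_ ?_
  · have hn : ∀ M : Subgroup G, M.Normal →
        (((QuotientGroup.mk' (A ⊔ B)).comp M.subtype).range).Normal := by
      intro M hM
      have : ((QuotientGroup.mk' (A ⊔ B)).comp M.subtype).range = M.map (QuotientGroup.mk' _) := by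
        rw [MonoidHom.range_comp, Subgroup.range_subtype]
      rw [this]
      exact hM.map _ (QuotientGroup.mk'_surjective _)
    intro i
    fin_cases i
    · exact Subgroup.Normal.isSubnormal (hn K inferInstance)
    · exact Subgroup.Normal.isSubnormal (hn L inferInstance)
  · intro i
    fin_cases i
    · exact key K NK xK le_sup_left
    · exact key L NL xL le_sup_right
  · have h1 : ∀ M : Subgroup G, ((QuotientGroup.mk' (A ⊔ B)).comp M.subtype).range =
        M.map (QuotientGroup.mk' (A ⊔ B)) := by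
      intro M
      rw [MonoidHom.range_comp, Subgroup.range_subtype]
    rw [eq_top_iff]
    have h2 : (⊤ : Subgroup (G ⧸ (A ⊔ B))) = K.map (QuotientGroup.mk' (A ⊔ B)) ⊔
        L.map (QuotientGroup.mk' (A ⊔ B)) := by
      rw [← Subgroup.map_sup, hKL, Subgroup.map_top_of_surjective _ (QuotientGroup.mk'_surjective _)]
    rw [h2]
    refine sup_le ?_ ?_
    · rw [← h1]
      exact le_iSup (![((QuotientGroup.mk' (A ⊔ B)).comp K.subtype).range,
        ((QuotientGroup.mk' (A ⊔ B)).comp L.subtype).range] : Fin 2 → Subgroup _) 0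
    · rw [← h1]
      exact le_iSup (![((QuotientGroup.mk' (A ⊔ B)).comp K.subtype).range,
        ((QuotientGroup.mk' (A ⊔ B)).comp L.subtype).range] : Fin 2 → Subgroup _) 1

/-- Coprime extensions of Fischer classes are Fischer classes. -/
theorem ext_fischer (hX : IsFischerClass X) (hρ : ∀ (G : Type) [Group G], X G → PG ρ G)
    (hd : Disjoint ρ π) : IsFischerClass (Ext π X) := by
  have hiso : ∀ (G H : Type) [Group G] [Group H], (G ≃* H) → Ext π X G → Ext π X H := by
    rintro G H _ _ e ⟨h1, h2, N, hN, h3, h4⟩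
    refine ⟨Finite.of_equiv G e.toEquiv, Group.isSolvable_of_surjective (f := e.toMonoidHom) e.surjective,
      N.map e.toMonoidHom, hN.map _ e.surjective, h3.of_dvd (Subgroup.card_map_dvd _ _), ?_⟩
    have hN' : (N.map e.toMonoidHom).Normal := hN.map _ e.surjective
    exact hX.isClass.iso _ _ (QuotientGroup.congr N (N.map e.toMonoidHom) e rfl) h4
  have htriv : ∀ (G : Type) [Group G] [Subsingleton G], Ext π X G := by
    intro G _ _
    refine ⟨inferInstance, inferInstance, ⊤, inferInstance, ?_, ?_⟩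
    · intro p hp hpd
      rw [Nat.card_of_subsingleton (1 : (⊤ : Subgroup G))] at hpd
      exact absurd (Nat.dvd_one.1 hpd) hp.one_lt.ne'
    · have : Subsingleton (G ⧸ (⊤ : Subgroup G)) := QuotientGroup.subsingleton_quotient_top
      exact hX.isClass.trivial _
  refine ⟨⟨fun G _ h => h.1, fun G _ h => h.2.1, hiso, htriv⟩,
    n0_of_binary htriv hiso fun G _ _ _ N M _ _ => binary hX hρ hd G N M, ?_⟩
  intro H _ _ _ G hH hnil
  obtain ⟨-, -, N, hN, pN, xN⟩ := hH
  let f : G →* H ⧸ N := (QuotientGroup.mk' N).comp G.subtype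
  have hker : f.ker = N.subgroupOf G := by
    ext x
    simp [f, MonoidHom.mem_ker, Subgroup.mem_subgroupOf]
  have hrange : f.range = G.map (QuotientGroup.mk' N) := by
    rw [MonoidHom.range_comp, Subgroup.range_subtype]
  have h1 : X f.range := by
    refine hX.f (H ⧸ N) f.range xN ?_
    have hcore : G.normalCore.map (QuotientGroup.mk' N) ≤ f.range.normalCore := by
      have : (G.normalCore.map (QuotientGroup.mk' N)).Normal :=
        (Subgroup.normalCore_normal G).map _ (QuotientGroup.mk'_surjective _)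
      rw [Subgroup.normal_le_normalCore, hrange]
      exact Subgroup.map_mono (Subgroup.normalCore_le G)
    let F : G ⧸ (G.normalCore.subgroupOf G) →*
        f.range ⧸ (f.range.normalCore.subgroupOf f.range) :=
      QuotientGroup.lift _ ((QuotientGroup.mk' _).comp f.rangeRestrict) (by
        intro x hx
        rw [MonoidHom.mem_ker, MonoidHom.comp_apply, QuotientGroup.mk'_apply, QuotientGroup.eq_one_iff,
          Subgroup.mem_subgroupOf]
        exact hcore ⟨x, hx, rfl⟩)
    have hF : Function.Surjective F := by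
      intro y
      obtain ⟨y, rfl⟩ := QuotientGroup.mk'_surjective _ y
      obtain ⟨x, rfl⟩ := f.rangeRestrict_surjective y
      exact ⟨QuotientGroup.mk' _ x, rfl⟩
    exact Group.nilpotent_of_surjective F hF
  refine ⟨inferInstance, inferInstance, f.ker, inferInstance, ?_, ?_⟩
  · rw [hker]
    exact pN.of_dvd (Subgroup.card_comap_dvd_of_injective _ _ G.subtype_injective)
  · exact hX.isClass.iso _ _ (QuotientGroup.quotientKerEquivRange f).symm h1

end Pool.Agent.KS6_1.FischerExt
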