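import Pool.Agent.KS6_1.RF.FischerExt
import Pool.Graph.R_seed8.Results.MP_ddb4d7_al.AllPrimes

set_option autoImplicit false

/-!
Coprime extensions of Fitting classes.
-/

namespace Pool.Agent.KS6_1.FittingExt

open Subgroup
open Pool.Agent.KS6_1.FischerExt
open Pool.Agent.Results.MP_ddb4d7_al.CentralFrattini (IsFittingClass IsMetanilpotent)

variable {ρ π : Set ℕ} {X : (G : Type) → [Group G] → Prop}

theorem solvable_sup {G : Type} [Group G] (K L : Subgroup G) [K.Normal] [L.Normal]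
    (hK : Group.IsSolvable K) (hL : Group.IsSolvable L) :
    Group.IsSolvable (K ⊔ L : Subgroup G) := by
  have h1 : Group.IsSolvable ((K ⊔ L : Subgroup G) ⧸ (K.subgroupOf (K ⊔ L))) := by
    let g : L →* (K ⊔ L : Subgroup G) ⧸ (K.subgroupOf (K ⊔ L)) :=
      (QuotientGroup.mk' _).comp (Subgroup.inclusion le_sup_right)
    refine Group.isSolvable_of_surjective (f := g) ?_
    intro y
    obtain ⟨⟨x, hx⟩, rfl⟩ := QuotientGroup.mk'_surjective _ y
    obtain ⟨a, ha, b, hb, rfl⟩ := Subgroup.mem_sup_of_normal_left.1 hx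
    refine ⟨⟨b, hb⟩, ?_⟩
    change QuotientGroup.mk _ = QuotientGroup.mk _
    rw [QuotientGroup.eq, Subgroup.mem_subgroupOf]
    change b⁻¹ * (a * b) ∈ K
    have := ‹K.Normal›.conj_mem a ha b⁻¹
    simpa [mul_assoc] using this
  have := hK
  refine Group.isSolvable_of_ker_le_range (Subgroup.inclusion (le_sup_left : K ≤ K ⊔ L))
    (QuotientGroup.mk' (K.subgroupOf (K ⊔ L))) ?_
  intro x hx
  rw [QuotientGroup.ker_mk', Subgroup.mem_subgroupOf] at hx
  exact ⟨⟨x, hx⟩, rfl⟩

theorem product (hX : IsFittingClass X) (hρ : ∀ (G : Type) [Group G], X G → PG ρ G)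
    (hd : Disjoint ρ π) (G : Type) [Group G] [Finite G] (K L : Subgroup G)
    (hKn : K.Normal) (hLn : L.Normal) (hK : Ext π X K) (hL : Ext π X L) :
    Ext π X (K ⊔ L : Subgroup G) := by
  obtain ⟨-, sK, NK, nK, pK, xK⟩ := hK
  obtain ⟨-, sL, NL, nL, pL, xL⟩ := hL
  have hiso : ∀ (G H : Type) [Group G] [Group H], (G ≃* H) → X G → X H :=
    fun G H _ _ e h => hX.iso G H ⟨e⟩ h
  have hA := map_normal hρ hd K NK pK xK
  have hB := map_normal hρ hd L NL pL xL
  set A := NK.map K.subtype with hAdef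
  set B := NL.map L.subtype with hBdef
  have pA : PG π A := pK.of_dvd (Subgroup.card_map_dvd _ _)
  have pB : PG π B := pL.of_dvd (Subgroup.card_map_dvd _ _)
  have pN : PG π (A ⊔ B : Subgroup G) := PG.sup A B pA pB
  have hmap : ∀ M : Subgroup G, ((QuotientGroup.mk' (A ⊔ B)).comp M.subtype).range =
      M.map (QuotientGroup.mk' (A ⊔ B)) := by
    intro M
    rw [MonoidHom.range_comp, Subgroup.range_subtype]
  have hker : ∀ M : Subgroup G, ((QuotientGroup.mk' (A ⊔ B)).comp M.subtype).ker =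
      (A ⊔ B).subgroupOf M := by
    intro M
    ext x
    simp [MonoidHom.mem_ker, Subgroup.mem_subgroupOf]
  have key : ∀ (M : Subgroup G) [M.Normal] (NM : Subgroup M) [NM.Normal], X (M ⧸ NM) →
      NM.map M.subtype ≤ A ⊔ B → X (M.map (QuotientGroup.mk' (A ⊔ B))) := by
    intro M _ NM _ hx hle
    rw [← hmap]
    refine range_mem hiso _ NM ?_ hx
    rw [hker]
    apply le_antisymm
    · intro x hx'
      exact hle ⟨x, hx', rfl⟩
    · refine hall hd NM (hρ _ hx) _ (pN.of_dvd ?_)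
      exact Subgroup.card_comap_dvd_of_injective _ _ M.subtype_injective
  have h1 : X (K.map (QuotientGroup.mk' (A ⊔ B)) ⊔ L.map (QuotientGroup.mk' (A ⊔ B)) :
      Subgroup (G ⧸ (A ⊔ B))) :=
    hX.product (G ⧸ (A ⊔ B)) _ _ (hKn.map _ (QuotientGroup.mk'_surjective _))
      (hLn.map _ (QuotientGroup.mk'_surjective _)) (key K NK xK le_sup_left)
      (key L NL xL le_sup_right)
  rw [← Subgroup.map_sup, ← hmap] at h1
  refine ⟨inferInstance, solvable_sup K L sK sL,
    ((QuotientGroup.mk' (A ⊔ B)).comp (K ⊔ L).subtype).ker, inferInstance, ?_, ?_⟩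
  · rw [hker]
    exact pN.of_dvd (Subgroup.card_comap_dvd_of_injective _ _ (K ⊔ L).subtype_injective)
  · exact hiso _ _ (QuotientGroup.quotientKerEquivRange _).symm h1

/-- Coprime extensions of Fitting classes are Fitting classes. -/
theorem ext_fitting (hX : IsFittingClass X) (hρ : ∀ (G : Type) [Group G], X G → PG ρ G)
    (hd : Disjoint ρ π) : IsFittingClass (Ext π X) := by
  have hiso : ∀ (G H : Type) [Group G] [Group H], (G ≃* H) → X G → X H :=
    fun G H _ _ e h => hX.iso G H ⟨e⟩ h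
  refine ⟨?_, fun G _ h => h.1, fun G _ h => h.2.1, ?_, ?_, ?_⟩
  · obtain ⟨G, _, hG⟩ := hX.nonempty
    refine ⟨G, inferInstance, hX.finite G hG, hX.soluble G hG, ⊥, inferInstance, ?_, ?_⟩
    · intro p hp hpd
      rw [Subgroup.card_bot] at hpd
      exact absurd (Nat.dvd_one.1 hpd) hp.one_lt.ne'
    · exact hiso _ _ QuotientGroup.quotientBot.symm hG
  · rintro G H _ _ ⟨e⟩ ⟨h1, h2, N, hN, h3, h4⟩
    refine ⟨Finite.of_equiv G e.toEquiv, Group.isSolvable_of_surjective (f := e.toMonoidHom) e.surjective,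
      N.map e.toMonoidHom, hN.map _ e.surjective, h3.of_dvd (Subgroup.card_map_dvd _ _), ?_⟩
    have hN' : (N.map e.toMonoidHom).Normal := hN.map _ e.surjective
    exact hiso _ _ (QuotientGroup.congr N (N.map e.toMonoidHom) e rfl) h4
  · rintro G _ M hM ⟨h1, h2, N, hN, h3, h4⟩
    have hker : ((QuotientGroup.mk' N).comp M.subtype).ker = N.subgroupOf M := by
      ext x
      simp [MonoidHom.mem_ker, Subgroup.mem_subgroupOf]
    have hmap : ((QuotientGroup.mk' N).comp M.subtype).range = M.map (QuotientGroup.mk' N) := by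
      rw [MonoidHom.range_comp, Subgroup.range_subtype]
    refine ⟨inferInstance, inferInstance, ((QuotientGroup.mk' N).comp M.subtype).ker,
      inferInstance, ?_, ?_⟩
    · rw [hker]
      exact h3.of_dvd (Subgroup.card_comap_dvd_of_injective _ _ M.subtype_injective)
    · refine hiso _ _ (QuotientGroup.quotientKerEquivRange _).symm ?_
      rw [hmap]
      exact hX.normal _ _ (hM.map _ (QuotientGroup.mk'_surjective _)) h4
  · exact fun G _ _ K L hK hL h1 h2 => product hX hρ hd G K L hK hL h1 h2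

/-- the `ρ`-groups in `X` -/
def Res (ρ : Set ℕ) (X : (G : Type) → [Group G] → Prop) (G : Type) [Group G] : Prop :=
  X G ∧ PG ρ G

theorem res_fitting (hX : IsFittingClass X) (ρ : Set ℕ) : IsFittingClass (Res ρ X) := by
  refine ⟨?_, fun G _ h => hX.finite G h.1, fun G _ h => hX.soluble G h.1, ?_, ?_, ?_⟩
  · obtain ⟨G, _, hG⟩ := hX.nonempty
    refine ⟨(⊥ : Subgroup G), inferInstance, hX.normal G ⊥ inferInstance hG, ?_⟩
    intro p hp hpd
    rw [Subgroup.card_bot] at hpd
    exact absurd (Nat.dvd_one.1 hpd) hp.one_lt.ne'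
  · rintro G H _ _ ⟨e⟩ ⟨h1, h2⟩
    refine ⟨hX.iso G H ⟨e⟩ h1, ?_⟩
    intro p hp hpd
    rw [← Nat.card_congr e.toEquiv] at hpd
    exact h2 p hp hpd
  · rintro G _ N hN ⟨h1, h2⟩
    exact ⟨hX.normal G N hN h1, h2.of_dvd (Subgroup.card_subgroup_dvd_card N)⟩
  · rintro G _ _ K L hK hL ⟨h1, h2⟩ ⟨h3, h4⟩
    exact ⟨hX.product G K L hK hL h1 h3, PG.sup K L h2 h4⟩

theorem cyclic_mem (hX : IsFittingClass X) (hρ : ∀ (G : Type) [Group G], X G → PG ρ G) (p : ℕ)
    (hp : p.Prime) (hpρ : p ∉ ρ) : Ext π X (Multiplicative (ZMod p)) ↔ p ∈ π := by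
  have : NeZero p := ⟨hp.ne_zero⟩
  have hcard : Nat.card (Multiplicative (ZMod p)) = p := by
    rw [Nat.card_congr (Multiplicative.toAdd : Multiplicative (ZMod p) ≃ ZMod p), Nat.card_zmod]
  constructor
  · rintro ⟨-, -, N, hN, h1, h2⟩
    have h3 : p ∣ Nat.card (Multiplicative (ZMod p) ⧸ N) * Nat.card N := by
      rw [← Subgroup.card_eq_card_quotient_mul_card_subgroup, hcard]
    rcases (Nat.Prime.dvd_mul hp).1 h3 with h | h
    · exact absurd (hρ _ h2 p hp h) hpρ
    · exact h1 p hp h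
  · intro h
    refine ⟨inferInstance, inferInstance, ⊤, inferInstance, ?_, ?_⟩
    · intro r hr hd
      rw [Subgroup.card_top, hcard] at hd
      rwa [(Nat.prime_dvd_prime_iff_eq hr hp).1 hd]
    · have : Subsingleton (Multiplicative (ZMod p) ⧸ (⊤ : Subgroup (Multiplicative (ZMod p)))) :=
        QuotientGroup.subsingleton_quotient_top
      obtain ⟨G, _, hG⟩ := hX.nonempty
      refine hX.iso (⊥ : Subgroup G) _ ⟨?_⟩ (hX.normal G ⊥ inferInstance hG)
      letI : Unique (Multiplicative (ZMod p) ⧸ (⊤ : Subgroup (Multiplicative (ZMod p)))) :=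
        uniqueOfSubsingleton 1
      exact MulEquiv.ofUnique

end Pool.Agent.KS6_1.FittingExt
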