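import Pool.Agent.KS6_1.RF.LieQ1

set_option autoImplicit false
set_option linter.unusedSectionVars false

namespace Pool.Agent.KS6_1.LieQ
open MvPolynomial

attribute [local instance 100] LieRing.ofAssociativeRing

/-- `2 ^ e` with `e` positive, the cardinality of the field -/
abbrev QQ (e : ℕ) : ℕ := 2 ^ (e + 1)

theorem QQ_pos (e : ℕ) : 0 < QQ e := by positivity

theorem QQ_two (e : ℕ) : 2 ∣ QQ e := ⟨2 ^ e, by rw [QQ, pow_succ, mul_comm]⟩

variable (e : ℕ)

abbrev B (R : Type) [CommRing R] := MvPolynomial (Fin 4) R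

section ringpart
variable {R : Type} [CommRing R] [CharP R 2]

noncomputable def ev (p q : R) : B R :=
  C p * X 0 + C q * X 1 + C (p ^ QQ e) * X 2 + C (q ^ QQ e) * X 3

theorem addQ (a b : R) : (a + b) ^ QQ e = a ^ QQ e + b ^ QQ e := add_pow_char_pow ..

theorem addQ' (a b : B R) : (a + b) ^ QQ e = a ^ QQ e + b ^ QQ e := add_pow_char_pow ..

theorem castQ : ((QQ e : ℕ) : R) = 0 := (CharP.cast_eq_zero_iff R 2 _).2 (QQ_two e)

def wt (l : R) (i : Fin 4) : R := ![l, l, l ^ QQ e, l ^ QQ e] i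

noncomputable def D (l : R) : Derivation R (B R) (B R) :=
  mkDerivation R fun i => C (wt e l i) * X i

def W (l : R) (s : Fin 4 →₀ ℕ) : R := (s 0 + s 1) * l + (s 2 + s 3) * l ^ QQ e

omit [CharP R 2] in
theorem coeff_D (l : R) (g : B R) (s : Fin 4 →₀ ℕ) : coeff s (D e l g) = W e l s * coeff s g := by
  induction g using MvPolynomial.induction_on generalizing s with
  | C a =>
    rw [coeff_C]
    split_ifs with h
    · subst h; simp [W, D, derivation_C]
    · simp [D, derivation_C]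
  | add p q hp hq => simp [hp, hq, mul_add]
  | mul_X p i hp =>
    rw [Derivation.leibniz, D, mkDerivation_X, smul_eq_mul, smul_eq_mul, mul_comm (X i), ← D,
      mul_left_comm, coeff_add, coeff_C_mul, coeff_mul_X', coeff_mul_X', hp]
    split_ifs with h
    · have h1 : 1 ≤ s i := Nat.one_le_iff_ne_zero.2 (Finsupp.mem_support_iff.1 h)
      rw [← add_mul]
      congr 1
      fin_cases i <;> simp [W, wt] at h1 ⊢ <;> rw [Nat.cast_sub h1] <;> ring
    · simp

theorem ev_add (p q p' q' : R) : ev e (p + p') (q + q') = ev e p q + ev e p' q' := by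
  simp only [ev, addQ, map_add]; ring

omit [CharP R 2] in
theorem D_ev (l p q : R) : D e l (ev e p q) = ev e (l * p) (l * q) := by
  simp only [ev, map_add, D, Derivation.leibniz, derivation_C, mkDerivation_X, smul_eq_mul, wt,
    mul_pow]
  simp; ring

theorem D_add (l l' : R) (g : B R) : D e (l + l') g = D e l g + D e l' g := by
  ext s; simp only [coeff_D, coeff_add, W, addQ]; ring

omit [CharP R 2] in
theorem D_comm (l l' : R) (g : B R) : D e l (D e l' g) = D e l' (D e l g) := by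
  ext s; simp only [coeff_D]; ring

omit [CharP R 2] in
theorem D_zero (g : B R) : D e (0 : R) g = 0 := by
  ext s; simp [coeff_D, W]

theorem D_sq (l : R) (g : B R) : D e l (g ^ QQ e) = 0 := by
  rw [Derivation.leibniz_pow, ← Nat.cast_smul_eq_nsmul R, castQ, zero_smul]

omit [CharP R 2] in
theorem ev_hom (p q : R) : (ev e p q).IsHomogeneous 1 :=
  (((isHomogeneous_C_mul_X _ _).add (isHomogeneous_C_mul_X _ _)).add
    (isHomogeneous_C_mul_X _ _)).add (isHomogeneous_C_mul_X _ _)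

noncomputable def mu : Fin 4 →₀ ℕ := Finsupp.equivFunOnFinite.symm ![QQ e, QQ e, 1, 1]

theorem mu_deg : (mu e).degree = 2 * QQ e + 2 := by
  rw [Finsupp.degree_eq_sum]; simp [mu, Fin.sum_univ_four]; ring

omit [CharP R 2] in
theorem coeff_mul_hom {G : B R} {n : ℕ} (hG : G.IsHomogeneous n) (f : B R) (s : Fin 4 →₀ ℕ)
    (hs : s.degree ≤ n) : coeff s (G * f) = coeff s G * coeff 0 f := by
  rw [coeff_mul, Finset.sum_eq_single (s, 0) _ (by simp)]
  rintro ⟨a, b⟩ hab hne
  have h1 : a + b = s := by simpa using hab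
  have h2 : b ≠ 0 := by rintro rfl; simp_all
  have h3 : b.degree ≠ 0 := by simpa [Finsupp.degree_eq_zero_iff] using h2
  rw [hG.coeff_eq_zero (d := a) (by rw [← h1, map_add] at hs; omega), zero_mul]

theorem coeff_mu (a b c d e' f g h : R) :
    coeff (mu e) (ev e a b ^ QQ e * ev e c d ^ QQ e * (ev e e' f * ev e g h)) =
      (a * d + b * c) ^ QQ e * ((e' * h + f * g) ^ QQ e) := by
  have h2 : ∀ (i : Fin 4) (g : B R), pderiv i (g ^ QQ e) = 0 := fun i g => by
    rw [Derivation.leibniz_pow, ← Nat.cast_smul_eq_nsmul R, castQ, zero_smul]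
  let s : Fin 4 →₀ ℕ := Finsupp.single 0 (QQ e) + Finsupp.single 1 (QQ e)
  have h3 : ∀ G : B R, coeff (mu e) G = coeff s (pderiv 2 (pderiv 3 G)) := fun G => by
    have : s + Finsupp.single 2 1 + Finsupp.single 3 1 = mu e := by
      ext i; fin_cases i <;> simp [s, mu]
    rw [coeff_pderiv, coeff_pderiv, this]; simp [s]
  have h4 : pderiv 2 (pderiv 3 (ev e e' f * ev e g h)) = C ((e' * h + f * g) ^ QQ e) := by
    simp [ev, pderiv_X, add_pow_char_pow, mul_pow]; ring
  have h5 : ∀ p q : R, ev e p q ^ QQ e = monomial (Finsupp.single 0 (QQ e)) (p ^ QQ e) +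
      monomial (Finsupp.single 1 (QQ e)) (q ^ QQ e) +
      monomial (Finsupp.single 2 (QQ e)) ((p ^ QQ e) ^ QQ e) +
      monomial (Finsupp.single 3 (QQ e)) ((q ^ QQ e) ^ QQ e) := fun p q => by
    simp only [ev, addQ', mul_pow, ← C_pow, C_mul_X_pow_eq_monomial]
  have hq := (QQ_pos e).ne'
  rw [h3, ← mul_pow, Derivation.leibniz, h2, smul_zero, add_zero, smul_eq_mul, Derivation.leibniz,
    h2, smul_zero, add_zero, smul_eq_mul, h4, mul_comm, coeff_C_mul, mul_pow, h5, h5]
  simp only [add_mul, mul_add, monomial_mul, coeff_add, coeff_monomial, s, Finsupp.ext_iff,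
    Fin.forall_fin_succ]
  simp [addQ, mul_pow]; ring
end ringpart

variable {F : Type} [Field F] [CharP F 2]
variable {R : Type} [CommRing R] [Algebra F R] [CharP R 2]

/-- every element of the field is its own `Q`-th power -/
def FixQ (e : ℕ) (F : Type) [Field F] : Prop := ∀ c : F, c ^ QQ e = c

theorem pow_smul_Q (hF : FixQ e F) (c : F) (p : R) : (c • p) ^ QQ e = c • p ^ QQ e := by
  rw [smul_pow, hF]

theorem ev_smul (hF : FixQ e F) (c : F) (p q : R) : ev e (c • p) (c • q) = c • ev e p q := by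
  simp only [ev, pow_smul_Q e hF]
  simp only [Algebra.smul_def, map_mul, MvPolynomial.algebraMap_apply]
  ring

theorem D_smul (hF : FixQ e F) (c : F) (l : R) (g : B R) : D e (c • l) g = c • D e l g := by
  ext s
  rw [coeff_D, coeff_smul, coeff_D, W, W, pow_smul_Q e hF]
  simp only [Algebra.smul_def]; ring

noncomputable def hh (p q l : R) (c : F) : Module.End F (B R) :=
  LinearMap.mulLeft F (ev e p q + C (algebraMap F R c)) + (D e l).toLinearMap.restrictScalars F

theorem hh_ap (p q l : R) (c : F) (g : B R) :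
    hh e p q l c g = (ev e p q + C (algebraMap F R c)) * g + D e l g := rfl

theorem hh_add (p q l p' q' l' : R) (c c' : F) :
    hh e p q l c + hh e p' q' l' c' = hh e (p + p') (q + q') (l + l') (c + c') :=
  LinearMap.ext fun g => by
    simp only [LinearMap.add_apply, hh_ap, ev_add, D_add, map_add]; ring

theorem hh_smul (hF : FixQ e F) (a : F) (p q l : R) (c : F) :
    a • hh e p q l c = hh e (a • p) (a • q) (a • l) (a * c) :=
  LinearMap.ext fun g => by
    simp only [LinearMap.smul_apply, hh_ap, ev_smul e hF, D_smul e hF, map_mul, smul_add, add_mul,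
      smul_mul_assoc]
    simp only [Algebra.smul_def, MvPolynomial.algebraMap_apply]; ring

theorem hh_zero : hh e (0 : R) 0 0 (0 : F) = 0 := LinearMap.ext fun g => by
  simp [hh_ap, D_zero, ev]

theorem hh_one : hh e (0 : R) 0 0 (1 : F) = 1 := LinearMap.ext fun g => by
  simp [hh_ap, D_zero, ev]

theorem hh_lie (p q l p' q' l' : R) (c c' : F) :
    ⁅hh e p q l c, hh e p' q' l' c'⁆ = hh e (l * p' + l' * p) (l * q' + l' * q) 0 0 :=
  LinearMap.ext fun g => by
    simp only [LieRing.of_associative_ring_bracket, LinearMap.sub_apply, Module.End.mul_apply,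
      hh_ap, map_add, Derivation.leibniz, D_ev, derivation_C, D_zero, ev_add, smul_eq_mul, map_zero,
      D_comm e l l']
    have := CharTwo.add_self_eq_zero (g * ev e (l' * p) (l' * q))
    linear_combination -this

theorem hh_pow (p q : R) (n : ℕ) (g : B R) : (hh e p q 0 (0 : F) ^ n) g = ev e p q ^ n * g := by
  induction n with
  | zero => simp
  | succ n ih => rw [pow_succ', Module.End.mul_apply, ih, hh_ap, D_zero]; simp; ring

noncomputable def HY (hF : FixQ e F) (Y : Submodule F R) :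
    LieSubalgebra F (Module.End F (B R)) where
  carrier := {h | ∃ p q, ∃ l ∈ Y, ∃ c, h = hh e p q l c}
  add_mem' := by
    rintro _ _ ⟨p, q, l, hl, c, rfl⟩ ⟨p', q', l', hl', c', rfl⟩
    exact ⟨_, _, _, add_mem hl hl', _, hh_add ..⟩
  zero_mem' := ⟨0, 0, 0, zero_mem _, 0, (hh_zero e).symm⟩
  smul_mem' := by
    rintro a _ ⟨p, q, l, hl, c, rfl⟩
    exact ⟨_, _, _, Y.smul_mem a hl, _, hh_smul e hF ..⟩
  lie_mem' := by
    rintro _ _ ⟨p, q, l, hl, c, rfl⟩ ⟨p', q', l', hl', c', rfl⟩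
    exact ⟨_, _, _, zero_mem _, _, hh_lie ..⟩

theorem engel (hF : FixQ e F) (Y : Submodule F R) (hY : ∀ l ∈ Y, l ^ (8 * QQ e) = 0) :
    ∀ h ∈ HY e hF Y, ∀ h' ∈ HY e hF Y, E (8 * QQ e + 1) h h' = 0 := by
  rintro _ ⟨p, q, l, hl, c, rfl⟩ _ ⟨p', q', l', hl', c', rfl⟩
  have : ∀ n, E (n + 1) (hh e p q l c) (hh e p' q' l' c') =
      hh e (l ^ n * (l * p' + l' * p)) (l ^ n * (l * q' + l' * q)) 0 0 := fun n => by
    induction n with
    | zero => rw [E_succ, pow_zero, one_mul, one_mul]; exact hh_lie ..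
    | succ n ih => rw [E_succ, ih, hh_lie]; congr 1 <;> ring
  rw [this (8 * QQ e), hY l hl, zero_mul, zero_mul, hh_zero]

variable (R F) in
def M0 : Submodule F (B R) where
  carrier := {g | ∃ c : F, coeff 0 g = algebraMap F R c}
  add_mem' := by rintro a b ⟨c, h⟩ ⟨d, h'⟩; exact ⟨c + d, by simp [h, h']⟩
  zero_mem' := ⟨0, by simp⟩
  smul_mem' := by rintro c a ⟨d, h⟩; exact ⟨c * d, by simp [h, Algebra.smul_def]⟩

theorem hh_M0 (p q l : R) (c : F) {g : B R} (hg : g ∈ M0 F R) : hh e p q l c g ∈ M0 F R := by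
  obtain ⟨d, hd⟩ := hg
  refine ⟨c * d, ?_⟩
  rw [hh_ap, coeff_add, coeff_D, ← constantCoeff_eq, map_mul, constantCoeff_eq, hd]
  simp [W, ev, ← constantCoeff_eq]

variable (τ : R →ₗ[F] F)

noncomputable def I0 : Submodule F (B R) where
  carrier := {g | (∀ s : Fin 4 →₀ ℕ, s.degree < 2 * QQ e + 2 → coeff s g = 0) ∧
    τ (coeff (mu e) g) = 0}
  add_mem' := by
    rintro a b ⟨h1, h2⟩ ⟨h3, h4⟩
    exact ⟨fun s hs => by simp [h1 s hs, h3 s hs], by simp [h2, h4]⟩
  zero_mem' := ⟨by simp, by simp⟩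
  smul_mem' := by
    rintro c a ⟨h1, h2⟩
    exact ⟨fun s hs => by simp [h1 s hs], by simp [h2]⟩

theorem hh_I0 (p q l : R) (c : F) {g : B R} (hg : g ∈ I0 e τ) : hh e p q l c g ∈ I0 e τ := by
  have h1 : ∀ s : Fin 4 →₀ ℕ, s.degree ≤ 2 * QQ e + 2 → coeff s (ev e p q * g) = 0 :=
    fun s hs => by
    rw [coeff_mul]
    refine Finset.sum_eq_zero ?_
    rintro ⟨a, b⟩ hab
    have h1 : a + b = s := by simpa using hab
    by_cases ha : a.degree = 1
    · rw [hg.1 b (by rw [← h1, map_add] at hs; omega), mul_zero]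
    · rw [(ev_hom e p q).coeff_eq_zero ha, zero_mul]
  refine ⟨fun s hs => ?_, ?_⟩
  · rw [hh_ap, add_mul, coeff_add, coeff_add, h1 s hs.le, coeff_C_mul, coeff_D, hg.1 s hs]; simp
  · have : W e l (mu e) = 0 := by
      simp only [W, mu]
      simp [CharTwo.add_self_eq_zero]
    rw [hh_ap, add_mul, coeff_add, coeff_add, h1 _ (mu_deg e).le, coeff_C_mul, coeff_D, this,
      ← Algebra.smul_def]
    simp [hg.2]

theorem h1Y (hF : FixQ e F) (Y : Submodule F R) : ∀ h ∈ HY e hF Y, ∀ m ∈ M0 F R, h m ∈ M0 F R := by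
  rintro _ ⟨p, q, l, -, c, rfl⟩ m hm; exact hh_M0 _ _ _ _ _ hm

theorem h2Y (hF : FixQ e F) (Y : Submodule F R) :
    ∀ h ∈ HY e hF Y, ∀ l ∈ (I0 e τ).dualAnnihilator, l ∘ₗ h ∈ (I0 e τ).dualAnnihilator := by
  rintro _ ⟨p, q, l, -, c, rfl⟩ m hm
  rw [Submodule.mem_dualAnnihilator] at hm ⊢
  exact fun w hw => hm _ (hh_I0 e τ _ _ _ _ hw)

noncomputable def LY (hF : FixQ e F) (Y : Submodule F R) :=
  Lb (HY e hF Y) (M0 F R) (I0 e τ).dualAnnihilator (h1Y e hF Y) (h2Y e τ hF Y)

theorem posY (hF : FixQ e F) (Y : Submodule F R) (hY : ∀ l ∈ Y, l ^ (8 * QQ e) = 0) (U : Set R)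
    (h1 : 1 ∈ U) (hU : ∀ l ∈ Y, ∀ u ∈ U, l * u ∈ U)
    (hτ : ∀ G, ∀ u ∈ U, τ (G ^ (2 * QQ e) * u ^ QQ e) = 0) :
    InAV F (QQ e) (LY e τ hF Y) := by
  refine pos _ _ _ _ _ _ (engel e hF Y hY) (Submodule.span F
    {g | ∃ p q, ∃ u ∈ U, ∃ f ∈ M0 F R, g = ev e p q ^ QQ e * ev e (u * p) (u * q) * f}) ?_ ?_ ?_
  · rintro _ ⟨p', q', l, hl, c, rfl⟩ m hm
    induction hm using Submodule.span_induction with
    | mem x hx =>
      obtain ⟨p, q, u, hu, f, hf, rfl⟩ := hx
      have : hh e p' q' l c (ev e p q ^ QQ e * ev e (u * p) (u * q) * f) =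
          ev e p q ^ QQ e * ev e (u * p) (u * q) * hh e p' q' l c f +
          ev e p q ^ QQ e * ev e (l * u * p) (l * u * q) * f := by
        simp only [hh_ap, Derivation.leibniz, D_sq, D_ev, smul_eq_mul, mul_assoc]; ring
      rw [this]
      exact add_mem (Submodule.subset_span ⟨p, q, u, hu, _, hh_M0 _ _ _ _ _ hf, rfl⟩)
        (Submodule.subset_span ⟨p, q, _, hU l hl u hu, f, hf, rfl⟩)
    | zero => simp
    | add x y _ _ hx hy => rw [map_add]; exact add_mem hx hy
    | smul a x _ hx => rw [map_smul]; exact Submodule.smul_mem _ _ hx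
  · rintro _ ⟨p, q, l, hl, c, rfl⟩ _ ⟨p', q', l', hl', c', rfl⟩ m hm
    rw [hh_lie, hh_pow]
    exact Submodule.subset_span ⟨l * p' + l' * p, l * q' + l' * q, 1, h1, m, hm,
      by rw [one_mul, one_mul, pow_succ]⟩
  · rintro _ ⟨p, q, l, hl, c, rfl⟩ _ ⟨p', q', l', hl', c', rfl⟩ m hm lam hlam
    rw [hh_lie, hh_pow]
    generalize l * p' + l' * p = a
    generalize l * q' + l' * q = b
    induction hm using Submodule.span_induction with
    | mem x hx =>
      obtain ⟨p, q, u, hu, f, ⟨c, hf⟩, rfl⟩ := hx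
      have hG : (ev e a b ^ QQ e * ev e p q ^ QQ e *
          (ev e a b * ev e (u * p) (u * q))).IsHomogeneous (2 * QQ e + 2) := by
        have := (((ev_hom e a b).pow (QQ e)).mul ((ev_hom e p q).pow (QQ e))).mul
          ((ev_hom e a b).mul (ev_hom e (u * p) (u * q)))
        convert this using 1; ring
      have : ev e a b ^ (QQ e + 1) * (ev e p q ^ QQ e * ev e (u * p) (u * q) * f) =
        ev e a b ^ QQ e * ev e p q ^ QQ e * (ev e a b * ev e (u * p) (u * q)) * f := by ring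
      rw [this]
      refine (Submodule.mem_dualAnnihilator _).1 hlam _ ⟨fun s hs => ?_, ?_⟩
      · rw [coeff_mul_hom hG f s hs.le, hG.coeff_eq_zero hs.ne, zero_mul]
      · rw [coeff_mul_hom hG f _ (mu_deg e).le, coeff_mu, hf, mul_comm, ← Algebra.smul_def, map_smul,
          show a * (u * q) + b * (u * p) = (a * q + b * p) * u by ring, mul_pow,
          show (a * q + b * p) ^ QQ e * ((a * q + b * p) ^ QQ e * u ^ QQ e) =
            (a * q + b * p) ^ (2 * QQ e) * u ^ QQ e by rw [two_mul, pow_add]; ring,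
          hτ _ u hu, smul_zero]
    | zero => simp
    | add x y _ _ hx hy => rw [mul_add, map_add, hx, hy, add_zero]
    | smul a x _ hx => rw [mul_smul_comm, map_smul, hx, smul_zero]

theorem negY (hF : FixQ e F) (Y : Submodule F R) (y : ℕ → R) (hy : ∀ i, y i ∈ Y) (n : ℕ)
    (h : InAV F (QQ e) (LY e τ hF Y)) :
    τ (y 0 ^ (4 * QQ e) * (∏ i ∈ Finset.range n, y i) ^ QQ e) = 0 := by
  have hq := (QQ_pos e).ne'
  have := neg _ _ _ _ _ _ h ⟨0, 0, 0, zero_mem _, 1, (hh_one e).symm⟩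
    (a := hh e 0 0 (y 0) 0) (b := hh e 1 0 0 0) (c := hh e 0 0 (y 0) 0) (d := hh e 0 1 0 0)
    ⟨_, _, _, hy 0, _, rfl⟩ ⟨_, _, _, zero_mem _, _, rfl⟩ ⟨_, _, _, hy 0, _, rfl⟩
    ⟨_, _, _, zero_mem _, _, rfl⟩ (fun i => hh e 0 0 (y i) 0) (fun i => ⟨_, _, _, hy i, _, rfl⟩)
    (m := 1) ⟨1, by simp⟩ (l := τ ∘ₗ (lcoeff R (mu e)).restrictScalars F)
    ((Submodule.mem_dualAnnihilator _).2 fun w hw => hw.2)
    (fun n => ev e (y 0) 0 ^ QQ e * ev e ((∏ i ∈ Finset.range n, y i) * y 0) 0)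
    (by rw [hh_lie, hh_pow]; simp [pow_succ])
    (fun i => by
      rw [hh_ap, Derivation.leibniz, D_sq, D_ev, Finset.prod_range_succ]
      simp [ev]; ring) n
  rw [hh_lie, hh_pow] at this
  simp only [mul_zero, add_zero, mul_one] at this
  rw [show ev e 0 (y 0) ^ (QQ e + 1) *
      (ev e (y 0) 0 ^ QQ e * ev e ((∏ i ∈ Finset.range n, y i) * y 0) 0) =
    ev e 0 (y 0) ^ QQ e * ev e (y 0) 0 ^ QQ e *
      (ev e 0 (y 0) * ev e ((∏ i ∈ Finset.range n, y i) * y 0) 0)
    by ring] at this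
  change τ (coeff (mu e) _) = 0 at this
  rw [coeff_mu] at this
  rw [← this]; congr 1
  simp only [zero_add, mul_zero, mul_pow]
  rw [show 4 * QQ e = QQ e + QQ e + QQ e + QQ e by ring, pow_add, pow_add, pow_add]; ring

end Pool.Agent.KS6_1.LieQ
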