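import Pool.Agent.KS6_1.RF.LieQ2

set_option autoImplicit false
set_option linter.unusedSectionVars false

namespace Pool.Agent.KS6_1.LieQ
open MvPolynomial

attribute [local instance 100] LieRing.ofAssociativeRing

variable (F : Type) [Field F] [CharP F 2] (e : ℕ)

abbrev P := MvPolynomial ℕ F

noncomputable def J : Ideal (P F) := Ideal.span (Set.range fun i => (X i : P F) ^ (8 * QQ e))

abbrev R := P F ⧸ J F e

noncomputable def kap (n : ℕ) : ℕ →₀ ℕ :=
  Finsupp.single 0 (4 * QQ e) + ∑ i ∈ Finset.range n, Finsupp.single i (QQ e)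

theorem kap_ap (n i : ℕ) : kap e n i = (if i = 0 then 4 * QQ e else 0) +
    if i < n then QQ e else 0 := by
  simp [kap, Finsupp.single_apply, eq_comm]

theorem J_coeff (s : ℕ →₀ ℕ) (hs : ∀ i, s i < 8 * QQ e) : ∀ p ∈ J F e, coeff s p = 0 :=
  fun p hp => by
  have : ∀ q, coeff s (q * p) = 0 := by
    induction hp using Submodule.span_induction with
    | mem x hx =>
      obtain ⟨i, rfl⟩ := hx
      intro q
      beta_reduce
      rw [X_pow_eq_monomial, coeff_mul_monomial', if_neg]
      intro h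
      have := h i
      have := hs i
      simp at *; omega
    | zero => simp
    | add x y _ _ hx hy => intro q; rw [mul_add, coeff_add, hx, hy, add_zero]
    | smul a x _ hx => intro q; rw [smul_eq_mul, ← mul_assoc, hx]
  simpa using this 1

noncomputable def tau (s : ℕ →₀ ℕ) (hs : ∀ i, s i < 8 * QQ e) : R F e →ₗ[F] F where
  toFun := QuotientAddGroup.lift (J F e).toAddSubgroup
    (lcoeff F s).toAddMonoidHom (J_coeff F e s hs)
  map_add' x y := map_add (QuotientAddGroup.lift (J F e).toAddSubgroup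
    (lcoeff F s).toAddMonoidHom (J_coeff F e s hs)) x y
  map_smul' c x := by
    obtain ⟨p, rfl⟩ := Ideal.Quotient.mk_surjective x
    exact coeff_smul s c p

theorem tau_mk (s : ℕ →₀ ℕ) (hs : ∀ i, s i < 8 * QQ e) (p : P F) :
    tau F e s hs (Ideal.Quotient.mk (J F e) p) = coeff s p := rfl

instance : Nontrivial (R F e) := ⟨⟨0, 1, fun h => by
  have := congrArg (tau F e 0 (by have := QQ_pos e; simp)) h
  rw [map_zero, ← map_one (Ideal.Quotient.mk (J F e)), tau_mk] at this
  simp at this⟩⟩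

instance : CharP (R F e) 2 := charP_of_injective_algebraMap (algebraMap F (R F e)).injective 2

theorem kap_lt (n i : ℕ) : kap e n i < 8 * QQ e := by
  have := QQ_pos e
  rw [kap_ap]; split_ifs <;> omega

variable {F}

theorem powQ (G : P F) : ∀ a, coeff a (G ^ (2 * QQ e)) ≠ 0 → ∀ i, 2 * QQ e ∣ a i := by
  have h2 : 2 * QQ e = 2 ^ (e + 2) := by rw [QQ, ← pow_succ']
  rw [h2]
  induction G using MvPolynomial.induction_on' with
  | monomial u c =>
    intro a ha i
    rw [monomial_pow, coeff_monomial] at ha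
    split_ifs at ha with h
    · subst h; simp
    · simp at ha
  | add p q hp hq =>
    intro a ha
    rw [add_pow_char_pow, coeff_add] at ha
    by_cases h : coeff a (p ^ (2 ^ (e + 2))) = 0
    · exact hq a (by simpa [h] using ha)
    · exact hp a h

theorem coeff_kap (n : ℕ) (G K : P F) (hK : K.totalDegree < QQ e * n) :
    coeff (kap e n) (G ^ (2 * QQ e) * K) = 0 := by
  rw [coeff_mul]
  refine Finset.sum_eq_zero ?_
  rintro ⟨a, b⟩ hab
  have h1 : a + b = kap e n := by simpa using hab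
  by_cases ha : coeff a (G ^ (2 * QQ e)) = 0
  · rw [ha, zero_mul]
  refine mul_eq_zero_of_right _ (coeff_eq_zero_of_totalDegree_lt (hK.trans_le ?_))
  have hq := QQ_pos e
  have h2 : ∀ i ∈ Finset.range n, QQ e ≤ b i := fun i hi => by
    obtain ⟨t, ht⟩ := powQ e G a ha i
    have h4 := DFunLike.congr_fun h1 i
    rw [kap_ap, if_pos (Finset.mem_range.1 hi), Finsupp.add_apply, ht] at h4
    generalize QQ e = Q at *
    have h5 : t < 3 := by
      by_contra hc
      have := Nat.mul_le_mul_left (2 * Q) (not_lt.1 hc)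
      split_ifs at h4 <;> omega
    interval_cases t <;> split_ifs at h4 <;> omega
  calc QQ e * n = ∑ _i ∈ Finset.range n, QQ e := by simp [mul_comm]
    _ ≤ ∑ i ∈ Finset.range n, b i := Finset.sum_le_sum h2
    _ ≤ _ := Finset.sum_le_sum_of_subset fun i hi =>
      Finsupp.mem_support_iff.2 (by have := h2 i hi; change b i ≠ 0; omega)

variable (F) in
noncomputable def XX : Submodule F (R F e) :=
  Submodule.span F (Set.range fun i => Ideal.Quotient.mk (J F e) (X i))

theorem XX_prop : ∀ l ∈ XX F e, l ^ (8 * QQ e) = 0 ∧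
    ∃ p : P F, p.totalDegree ≤ 1 ∧ Ideal.Quotient.mk (J F e) p = l := by
  intro l hl
  induction hl using Submodule.span_induction with
  | mem x hx =>
    obtain ⟨i, rfl⟩ := hx
    refine ⟨?_, X i, by simp, rfl⟩
    rw [← map_pow, Ideal.Quotient.eq_zero_iff_mem]
    exact Ideal.subset_span ⟨i, rfl⟩
  | zero => exact ⟨by have := QQ_pos e; simp, 0, by simp, rfl⟩
  | add x y _ _ hx hy =>
    obtain ⟨h1, p, hp, rfl⟩ := hx
    obtain ⟨h2, q, hq, rfl⟩ := hy
    refine ⟨?_, p + q, (totalDegree_add p q).trans (max_le hp hq), rfl⟩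
    have h8 : 8 * QQ e = 2 ^ (e + 4) := by rw [QQ]; ring
    rw [h8] at h1 h2 ⊢
    rw [add_pow_char_pow, h1, h2, add_zero]
  | smul c x _ hx =>
    obtain ⟨h1, p, hp, rfl⟩ := hx
    refine ⟨by rw [smul_pow, h1, smul_zero], c • p, (totalDegree_smul_le c p).trans hp, rfl⟩

theorem posZ (hF : FixQ e F) {A : Type} [CommRing A] [Algebra F A] [CharP A 2] (τ : A →ₗ[F] F)
    (k : ℕ) (l : Fin k → A) (hl : ∀ a ∈ Submodule.span F (Set.range l), a ^ (8 * QQ e) = 0)
    (hτ : ∀ (G : A) (S : Finset (Fin k)), τ (G ^ (2 * QQ e) * (∏ i ∈ S, l i) ^ QQ e) = 0) :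
    InAV F (QQ e) (LY e τ hF (Submodule.span F (Set.range l))) := by
  classical
  let V : Submodule F A := Submodule.span F
    {x | ∃ (G : A) (S : Finset (Fin k)), x = G ^ (2 * QQ e) * (∏ i ∈ S, l i) ^ QQ e}
  have hV : ∀ (a : A), (∀ G S, a * (G ^ (2 * QQ e) * (∏ i ∈ S, l i) ^ QQ e) ∈ V) →
      ∀ v ∈ V, a * v ∈ V := by
    intro a ha v hv
    induction hv using Submodule.span_induction with
    | mem x hx => obtain ⟨G, S, rfl⟩ := hx; exact ha G S
    | zero => simp
    | add x y _ _ hx hy => rw [mul_add]; exact add_mem hx hy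
    | smul c x _ hx => rw [mul_smul_comm]; exact V.smul_mem _ hx
  refine posY e _ hF _ hl {u | u ^ QQ e ∈ V} (Submodule.subset_span ⟨1, ∅, by simp⟩) ?_ ?_
  · intro a ha u hu
    change (a * u) ^ QQ e ∈ V
    rw [mul_pow]
    induction ha using Submodule.span_induction with
    | mem x hx =>
      obtain ⟨i, rfl⟩ := hx
      refine hV _ (fun G S => Submodule.subset_span ?_) _ hu
      by_cases hi : i ∈ S
      · exact ⟨G * l i, S.erase i, by
          rw [← Finset.mul_prod_erase S l hi, mul_pow, mul_pow, two_mul, pow_add (l i)]; ring⟩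
      · exact ⟨G, insert i S, by rw [Finset.prod_insert hi, mul_pow]; ring⟩
    | zero => have := QQ_pos e; simp
    | add x y _ _ hx hy => rw [addQ, add_mul]; exact add_mem hx hy
    | smul c x _ hx => rw [smul_pow, smul_mul_assoc]; exact V.smul_mem _ hx
  · intro G u hu
    have h1 : G ^ (2 * QQ e) * u ^ QQ e ∈ V :=
      hV _ (fun G' S => Submodule.subset_span ⟨G * G', S, by rw [mul_pow]; ring⟩) _ hu
    generalize G ^ (2 * QQ e) * u ^ QQ e = v at h1
    induction h1 using Submodule.span_induction with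
    | mem x hx => obtain ⟨G, S, rfl⟩ := hx; exact hτ G S
    | zero => simp
    | add x y _ _ hx hy => rw [map_add, hx, hy, add_zero]
    | smul c x _ hx => rw [map_smul, hx, smul_zero]

theorem local_pos (hF : FixQ e F) (k : ℕ) (l : Fin k → R F e) (hl : ∀ i, l i ∈ XX F e) :
    InAV F (QQ e) (LY e (tau F e _ (kap_lt e (k + 1))) hF (Submodule.span F (Set.range l))) := by
  refine posZ e hF _ k l (fun a ha => (XX_prop e a ((Submodule.span_le (p := XX F e)).2 ?_ ha)).1)
    fun G S => ?_
  · rintro _ ⟨i, rfl⟩; exact hl i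
  obtain ⟨G, rfl⟩ := Ideal.Quotient.mk_surjective G
  choose p hp hp' using fun i => (XX_prop e _ (hl i)).2
  simp only [← hp', ← map_prod, ← map_pow, ← map_mul, tau_mk]
  refine coeff_kap e _ _ _ ((totalDegree_pow _ _).trans_lt ?_)
  have h2 : (∏ i ∈ S, p i).totalDegree ≤ _ :=
    (totalDegree_finsetProd S p).trans (Finset.sum_le_sum fun i _ => hp i)
  have h3 := S.card_le_univ
  simp at h2 h3
  exact Nat.mul_lt_mul_of_pos_left (by omega) (QQ_pos e)

theorem global_neg (hF : FixQ e F) (n : ℕ) :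
    ¬ InAV F (QQ e) (LY e (tau F e _ (kap_lt e n)) hF (XX F e)) := fun h => by
  have := negY e _ hF (XX F e) (fun i => Ideal.Quotient.mk (J F e) (X i))
    (fun i => Submodule.subset_span ⟨i, rfl⟩) n h
  simp only [← map_prod, ← map_pow, ← map_mul, tau_mk, ← Finset.prod_pow, X_pow_eq_monomial] at this
  rw [← monomial_sum_one, monomial_mul, coeff_monomial] at this
  simp [kap] at this

theorem main (hF : FixQ e F) (C : Finset (FreeLieAlgebra F ℕ)) :
    ∃ (L : Type) (_ : LieRing L) (_ : LieAlgebra F L),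
      ¬ (InAV F (QQ e) L ↔ ∀ c ∈ C, ∀ φ : ℕ → L, FreeLieAlgebra.lift F φ c = 0) := by
  by_contra hc
  push Not at hc
  obtain ⟨k, hk⟩ := exists_dep_finset C
  refine global_neg e hF (k + 1) ((hc _ _ _).2 fun c hcC φ => ?_)
  choose m hm h hh l hl z hz using fun i => (φ i).2
  choose p q y hy d hd using hh
  let Y := Submodule.span F (Set.range fun i : Fin k => y i)
  have hY : Y ≤ XX F e := Submodule.span_le.2 (by rintro _ ⟨i, rfl⟩; exact hy i)
  have hle : LY e (tau F e _ (kap_lt e (k + 1))) hF Y ≤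
      LY e (tau F e _ (kap_lt e (k + 1))) hF (XX F e) := by
    rintro _ ⟨m, hm, _, ⟨p, q, y, hy, d, rfl⟩, l, hl, z, rfl⟩
    exact ⟨m, hm, _, ⟨p, q, y, hY hy, d, rfl⟩, l, hl, z, rfl⟩
  let ψ : ℕ → LY e (tau F e _ (kap_lt e (k + 1))) hF Y := fun i => if hi : i < k then
    ⟨(φ i).1, m i, hm i, h i, ⟨p i, q i, y i, Submodule.subset_span ⟨⟨i, hi⟩, rfl⟩, d i, hd i⟩,
      l i, hl i, z i, hz i⟩ else 0
  have h0 := (hc _ _ _).1 (local_pos e hF k (fun i => y i) fun i => hy i) c hcC ψ
  rw [hk c hcC _ φ (LieSubalgebra.inclusion hle ∘ ψ) (fun i hi => by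
    apply Subtype.ext; simp [ψ, hi]), ← map_lift, h0, map_zero]

end Pool.Agent.KS6_1.LieQ
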