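import Mathlib

set_option autoImplicit false

/-! Failure of log-concavity of the numbers of partitions of a graph into independent sets, by an
arbitrarily large factor and at every index `≥ 4`. The blow-ups of the 3-sun and the estimates
follow the library module `R_pool_sql_team_8f841797.S12278` (130 copies there). -/

namespace Pool.Agent.KS6_1.RF.LogConc

/-- the partitions of the vertex set into `k` nonempty independent sets, as equivalence relations -/
def Par {V : Type} (G : SimpleGraph V) (k : ℕ) : Set (Setoid V) :=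
  {s | Nat.card (Quotient s) = k ∧ ∀ u v, G.Adj u v → ¬ s u v}

section general
variable {V : Type} [Fintype V] [DecidableEq V]

instance : Finite (Setoid V) :=
  Finite.of_injective (fun s : Setoid V => (fun a b => s a b : V → V → Prop)) (by
    intro s t h
    ext a b
    exact iff_of_eq (congrFun (congrFun h a) b))

lemma upper (G : SimpleGraph V) (k : ℕ) (C : Finset (V → Fin k))
    (hC : ∀ f : V → Fin k, (∀ u v, G.Adj u v → f u ≠ f v) → f ∈ C) :
    (Par G k).ncard ≤ C.card := by
  have hsub : Par G k ⊆ Setoid.ker '' (C : Set (V → Fin k)) := by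
    rintro s ⟨hk, hind⟩
    have : Finite (Quotient s) := inferInstance
    let e : Quotient s ≃ Fin k := Finite.equivFinOfCardEq hk
    refine ⟨fun v => e (Quotient.mk s v), hC _ ?_, ?_⟩
    · intro u v huv h
      exact hind u v huv (Quotient.exact (e.injective h))
    · ext a b
      rw [Setoid.ker_def]
      exact ⟨fun h => Quotient.exact (e.injective h), fun h => congrArg e (Quotient.sound h)⟩
  calc (Par G k).ncard ≤ (Setoid.ker '' (C : Set (V → Fin k))).ncard :=
        Set.ncard_le_ncard hsub (Set.toFinite _)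
    _ ≤ (C : Set (V → Fin k)).ncard := Set.ncard_image_le (Set.toFinite _)
    _ = C.card := Set.ncard_coe_finset _

lemma lower (G : SimpleGraph V) (k : ℕ) (T : V → Finset (Fin k)) (a : Fin k → V)
    (ha : ∀ c, T (a c) = {c}) (hT : ∀ u v, G.Adj u v → Disjoint (T u) (T v)) :
    ∏ v, (T v).card ≤ (Par G k).ncard := by
  rw [← Fintype.card_piFinset, ← Set.ncard_coe_finset]
  have hac : ∀ f ∈ Fintype.piFinset T, ∀ c, f (a c) = c := by
    intro f hf c
    have := Fintype.mem_piFinset.1 hf (a c)
    rw [ha] at this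
    simpa using this
  refine Set.ncard_le_ncard_of_injOn Setoid.ker ?_ ?_ (Set.toFinite _)
  · intro f hf
    have hf' : f ∈ Fintype.piFinset T := hf
    constructor
    · have e : Quotient (Setoid.ker f) ≃ Fin k :=
        Setoid.quotientKerEquivOfSurjective f (fun c => ⟨a c, hac f hf' c⟩)
      rw [Nat.card_congr e]
      simp
    · intro u v huv h
      rw [Setoid.ker_def] at h
      have h1 := Fintype.mem_piFinset.1 hf' u
      have h2 := Fintype.mem_piFinset.1 hf' v
      rw [← h] at h2
      exact Finset.disjoint_left.1 (hT u v huv) h1 h2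
  · intro f hf g hg h
    funext v
    have h1 : (Setoid.ker f) (a (f v)) v := by
      rw [Setoid.ker_def, hac f hf]
    rw [h, Setoid.ker_def, hac g hg] at h1
    exact h1

end general

/-- adding a vertex adjacent to all others -/
def cone {V : Type} (G : SimpleGraph V) : SimpleGraph (Option V) where
  Adj x y := match x, y with
    | none, none => False
    | none, some _ => True
    | some _, none => True
    | some a, some b => G.Adj a b
  symm := ⟨by
    rintro (_ | a) (_ | b) h
    · exact h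
    · trivial
    · trivial
    · exact G.symm.symm _ _ h⟩
  loopless := ⟨by
    rintro (_ | a) h
    · exact h
    · exact G.loopless.irrefl a h⟩

def up {V : Type} (s : Setoid V) : Setoid (Option V) where
  r x y := match x, y with
    | none, none => True
    | none, some _ => False
    | some _, none => False
    | some a, some b => s a b
  iseqv := by
    refine ⟨?_, ?_, ?_⟩
    · rintro (_ | a)
      · trivial
      · exact s.refl a
    · rintro (_ | a) (_ | b) h
      · exact h
      · exact h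
      · exact h
      · exact s.symm h
    · rintro (_ | a) (_ | b) (_ | c) h1 h2
      · trivial
      · exact h2
      · exact h1.elim
      · exact h1.elim
      · exact h1
      · exact h1.elim
      · exact h2.elim
      · exact s.trans h1 h2

lemma up_inj {V : Type} : Function.Injective (up : Setoid V → Setoid (Option V)) := by
  intro s t h
  ext a b
  have : (up s) (some a) (some b) ↔ (up t) (some a) (some b) := by rw [h]
  exact this

lemma card_up {V : Type} [Finite V] (s : Setoid V) :
    Nat.card (Quotient (up s)) = Nat.card (Quotient s) + 1 := by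
  have e : Quotient (up s) ≃ Option (Quotient s) := by
    refine Equiv.ofBijective (Quotient.lift (fun x : Option V => x.map (Quotient.mk s)) ?_) ⟨?_, ?_⟩
    · rintro (_ | a) (_ | b) h
      · rfl
      · exact h.elim
      · exact h.elim
      · exact congrArg some (Quotient.sound h)
    · rintro ⟨x⟩ ⟨y⟩ h
      refine Quotient.sound ?_
      rcases x with _ | a <;> rcases y with _ | b
      · trivial
      · exact absurd h (by simp)
      · exact absurd h (by simp)
      · have h' : (some (Quotient.mk s a) : Option (Quotient s)) = some (Quotient.mk s b) := h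
        show s a b
        exact Quotient.exact (Option.some.inj h')
    · rintro (_ | q)
      · exact ⟨Quotient.mk _ none, rfl⟩
      · induction q using Quotient.inductionOn with
        | _ a => exact ⟨Quotient.mk _ (some a), rfl⟩
  rw [Nat.card_congr e, Finite.card_option]

lemma Par_cone {V : Type} [Finite V] (G : SimpleGraph V) (k : ℕ) :
    Par (cone G) (k + 1) = up '' Par G k := by
  ext s
  constructor
  · rintro ⟨h1, h2⟩
    let t : Setoid V := s.comap some
    have hs : up t = s := by
      ext x y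
      rcases x with _ | a <;> rcases y with _ | b
      · exact ⟨fun _ => s.refl _, fun _ => trivial⟩
      · exact ⟨fun h => h.elim, fun h => h2 none (some b) trivial h⟩
      · exact ⟨fun h => h.elim, fun h => h2 (some a) none trivial h⟩
      · exact Iff.rfl
    refine ⟨t, ⟨?_, ?_⟩, hs⟩
    · have := card_up t
      rw [hs, h1] at this
      omega
    · intro u v huv h
      exact h2 (some u) (some v) huv h
  · rintro ⟨t, ⟨h1, h2⟩, rfl⟩
    refine ⟨by rw [card_up, h1], ?_⟩
    rintro (_ | a) (_ | b) h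
    · exact h.elim
    · exact fun h' => h'
    · exact fun h' => h'
    · exact h2 a b h

lemma ncard_cone {V : Type} [Finite V] (G : SimpleGraph V) (k : ℕ) :
    (Par (cone G) (k + 1)).ncard = (Par G k).ncard := by
  rw [Par_cone, Set.ncard_image_of_injective _ up_inj]

/-- the 3-sun: triangle 0,1,2 and 3 ~ 0,1; 4 ~ 1,2; 5 ~ 0,2 -/
def sun (i j : Fin 6) : Bool :=
  (![![false, true, true, true, false, true], ![true, false, true, true, true, false],
     ![true, true, false, false, true, true], ![true, true, false, false, false, false],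
     ![false, true, true, false, false, false], ![true, false, true, false, false, false]] :
     Fin 6 → Fin 6 → Bool) i j

def ty : Fin 15 → Fin 6 := ![0, 0, 0, 1, 1, 1, 2, 2, 2, 3, 3, 4, 4, 5, 5]

abbrev W (m : ℕ) : Type := Fin 15 × Option (Fin m)

/-- blow-up of the 3-sun -/
def G (m : ℕ) : SimpleGraph (W m) where
  Adj u v := sun (ty u.1) (ty v.1) = true
  symm := ⟨fun u v => (by decide : ∀ i j : Fin 6, sun i j = true → sun j i = true) _ _⟩
  loopless := ⟨fun u => (by decide : ∀ i : Fin 6, ¬ sun i i = true) _⟩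

lemma G_adj {m : ℕ} (u v : W m) : (G m).Adj u v ↔ sun (ty u.1) (ty v.1) = true := Iff.rfl

lemma prodT {m k : ℕ} (c : Fin 15 → Fin k) (S : Fin 15 → Finset (Fin k)) :
    ∏ v : W m, ((fun v : W m => v.2.elim {c v.1} (fun _ => S v.1)) v).card
      = (∏ s, (S s).card) ^ m := by
  rw [Fintype.prod_prod_type, ← Finset.prod_pow]
  refine Finset.prod_congr rfl fun s _ => ?_
  rw [Fintype.prod_option]
  simp

lemma lowT {m k : ℕ} (c : Fin 15 → Fin k) (S : Fin 15 → Finset (Fin k)) (a : Fin k → Fin 15)
    (h1 : ∀ x, c (a x) = x) (h2 : ∀ s, c s ∈ S s)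
    (h3 : ∀ s t, sun (ty s) (ty t) = true → Disjoint (S s) (S t)) :
    (∏ s, (S s).card) ^ m ≤ (Par (G m) k).ncard := by
  rw [← prodT c S]
  refine lower (G m) k _ (fun x => (a x, none)) (fun x => by simp [h1]) ?_
  have hs : ∀ v : W m, (v.2.elim {c v.1} (fun _ => S v.1) : Finset (Fin k)) ⊆ S v.1 := by
    rintro ⟨s, _ | i⟩
    · simpa using h2 s
    · simp
  intro u v huv
  exact Finset.disjoint_of_subset_left (hs u) (Finset.disjoint_of_subset_right (hs v)
    (h3 _ _ huv))

lemma low4 (m : ℕ) : (2 ^ 6) ^ m ≤ (Par (G m) 4).ncard := by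
  have := lowT (m := m) (k := 4) ![0, 0, 0, 1, 1, 1, 2, 2, 2, 3, 3, 3, 3, 3, 3]
    (fun s => (![{0}, {1}, {2}, {2, 3}, {0, 3}, {1, 3}] : Fin 6 → Finset (Fin 4)) (ty s))
    ![0, 3, 6, 9] (by decide) (by decide) (by decide)
  refine le_trans (le_of_eq ?_) this
  congr 1

lemma low6 (m : ℕ) : (2 ^ 15) ^ m ≤ (Par (G m) 6).ncard := by
  have := lowT (m := m) (k := 6) ![0, 1, 0, 2, 3, 2, 4, 5, 4, 4, 4, 0, 0, 2, 2]
    (fun s => (![{0, 1}, {2, 3}, {4, 5}, {4, 5}, {0, 1}, {2, 3}] : Fin 6 → Finset (Fin 6)) (ty s))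
    ![0, 1, 3, 4, 6, 7] (by decide) (by decide) (by decide)
  refine le_trans (le_of_eq ?_) this
  congr 1

lemma pos5 (m : ℕ) : 0 < (Par (G m) 5).ncard := by
  have := lowT (m := m) (k := 5) ![0, 4, 0, 1, 1, 1, 2, 2, 2, 3, 3, 3, 3, 3, 3]
    (fun s => (![{0, 4}, {1}, {2}, {2, 3}, {0, 3}, {1, 3}] : Fin 6 → Finset (Fin 5)) (ty s))
    ![0, 3, 6, 9, 1] (by decide) (by decide) (by decide)
  exact lt_of_lt_of_le (pow_pos (by decide) _) this

lemma arith : ∀ a b c x y z : Fin 6, a.1 + b.1 + c.1 ≤ 5 → a.1 + b.1 + x.1 ≤ 5 →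
    b.1 + c.1 + y.1 ≤ 5 → a.1 + c.1 + z.1 ≤ 5 →
    a.1 ^ 3 * b.1 ^ 3 * c.1 ^ 3 * x.1 ^ 2 * y.1 ^ 2 * z.1 ^ 2 ≤ 1152 := by
  decide +kernel

lemma three (A B C : Finset (Fin 5)) (h1 : Disjoint A B) (h2 : Disjoint A C) (h3 : Disjoint B C) :
    A.card + B.card + C.card ≤ 5 := by
  rw [← Finset.card_union_of_disjoint h1, ← Finset.card_union_of_disjoint
    (Finset.disjoint_union_left.2 ⟨h2, h3⟩)]
  simpa using Finset.card_le_univ (A ∪ B ∪ C)

lemma patt (S : Fin 6 → Finset (Fin 5)) (h : ∀ i j, sun i j = true → Disjoint (S i) (S j)) :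
    ∏ s : Fin 15, (S (ty s)).card ≤ 1152 := by
  have hl : ∀ i, (S i).card < 6 := fun i => by
    have := Finset.card_le_univ (S i)
    simp at this
    omega
  have := arith ⟨_, hl 0⟩ ⟨_, hl 1⟩ ⟨_, hl 2⟩ ⟨_, hl 3⟩ ⟨_, hl 4⟩ ⟨_, hl 5⟩
    (three _ _ _ (h 0 1 rfl) (h 0 2 rfl) (h 1 2 rfl))
    (three _ _ _ (h 0 1 rfl) (h 0 3 rfl) (h 1 3 rfl))
    (three _ _ _ (h 1 2 rfl) (h 1 4 rfl) (h 2 4 rfl))
    (three _ _ _ (h 0 2 rfl) (h 0 5 rfl) (h 2 5 rfl))
  refine le_trans (le_of_eq ?_) this
  simp [Fin.prod_univ_succ, ty]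
  ring

lemma up5 (m : ℕ) : (Par (G m) 5).ncard ≤ 2 ^ 30 * 1152 ^ (m + 1) := by
  classical
  obtain ⟨Good, hGood⟩ : ∃ Good : Finset (Fin 6 → Finset (Fin 5)), ∀ S, S ∈ Good ↔
      ∀ i j, sun i j = true → Disjoint (S i) (S j) :=
    ⟨Finset.univ.filter fun S => ∀ i j, sun i j = true → Disjoint (S i) (S j), fun S => by
      rw [Finset.mem_filter]; exact and_iff_right (Finset.mem_univ _)⟩
  refine le_trans (upper (G m) 5 (Good.biUnion fun S =>
    Fintype.piFinset fun v : W m => S (ty v.1)) ?_) ?_
  · intro f hf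
    rw [Finset.mem_biUnion]
    refine ⟨fun i => (Finset.univ.filter fun v : W m => ty v.1 = i).image f, ?_, ?_⟩
    · refine (hGood _).2 fun i j hij => ?_
      rw [Finset.disjoint_left]
      intro c h1 h2
      obtain ⟨u, hu, rfl⟩ := Finset.mem_image.1 h1
      obtain ⟨v, hv, e⟩ := Finset.mem_image.1 h2
      rw [Finset.mem_filter] at hu hv
      have hadj : (G m).Adj u v := by
        rw [G_adj, hu.2, hv.2]
        exact hij
      exact hf u v hadj e.symm
    · rw [Fintype.mem_piFinset]
      intro v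
      rw [Finset.mem_image]
      refine ⟨v, ?_, rfl⟩
      rw [Finset.mem_filter]
      exact ⟨Finset.mem_univ _, rfl⟩
  · refine le_trans (Finset.card_biUnion_le_card_mul _ _ (1152 ^ (m + 1)) ?_) ?_
    · intro S hS
      rw [Fintype.card_piFinset, Fintype.prod_prod_type]
      have h1 : ∀ s : Fin 15, ∏ _i : Option (Fin m), (S (ty s)).card = (S (ty s)).card ^ (m + 1) := by
        intro s
        rw [Finset.prod_const, Finset.card_univ, Fintype.card_option, Fintype.card_fin]
      simp only [h1]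
      rw [Finset.prod_pow]
      exact Nat.pow_le_pow_left (patt S ((hGood S).1 hS)) _
    · refine Nat.mul_le_mul_right _ (le_trans (Finset.card_le_univ _) (le_of_eq ?_))
      simp [Fintype.card_finset]

/-- the failure at the index `4`, by any factor and also exponentially in the number of vertices -/
lemma fail4 (C : ℕ) : ∃ m, C * (Par (G m) 5).ncard ^ 2 < (Par (G m) 4).ncard * (Par (G m) 6).ncard := by
  have h : ∃ m : ℕ, (C * (2 ^ 30 * 1152) ^ 2) < 2 ^ m := ⟨_, Nat.lt_two_pow_self⟩
  obtain ⟨n, hn⟩ := h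
  refine ⟨2 * n, ?_⟩
  have h4 := low4 (2 * n)
  have h6 := low6 (2 * n)
  have h5 := up5 (2 * n)
  calc C * (Par (G (2 * n)) 5).ncard ^ 2 ≤ C * (2 ^ 30 * 1152 ^ (2 * n + 1)) ^ 2 :=
        Nat.mul_le_mul_left _ (Nat.pow_le_pow_left h5 2)
    _ = (C * (2 ^ 30 * 1152) ^ 2) * ((1152 ^ 2) ^ 2) ^ n := by
        rw [← pow_mul, ← pow_mul]; ring
    _ < 2 ^ n * ((1152 ^ 2) ^ 2) ^ n := Nat.mul_lt_mul_of_pos_right hn (by positivity)
    _ = (2 * (1152 ^ 2) ^ 2) ^ n := by rw [mul_pow]
    _ ≤ ((2 ^ 6) ^ 2 * (2 ^ 15) ^ 2) ^ n := Nat.pow_le_pow_left (by norm_num) n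
    _ = (2 ^ 6) ^ (2 * n) * (2 ^ 15) ^ (2 * n) := by
        rw [mul_pow, ← pow_mul (2 ^ 6), ← pow_mul (2 ^ 15)]
    _ ≤ _ := Nat.mul_le_mul h4 h6

/-- iterated cones -/
lemma cones (V : Type) [Finite V] (H : SimpleGraph V) (r : ℕ) :
    ∃ (V' : Type) (_ : Finite V') (H' : SimpleGraph V'), Nat.card V' = Nat.card V + r ∧
      ∀ k, (Par H' (k + r)).ncard = (Par H k).ncard := by
  induction r with
  | zero => exact ⟨V, inferInstance, H, rfl, fun _ => rfl⟩
  | succ r ih =>
    obtain ⟨V', _, H', h1, h2⟩ := ih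
    refine ⟨Option V', inferInstance, cone H', ?_, fun k => ?_⟩
    · rw [Finite.card_option, h1]; rfl
    · rw [← add_assoc, ncard_cone, h2]

theorem main (j C : ℕ) (hj : 4 ≤ j) : ∃ (V : Type) (_ : Finite V) (H : SimpleGraph V),
    0 < (Par H (j + 1)).ncard ∧
    C * (Par H (j + 1)).ncard ^ 2 < (Par H j).ncard * (Par H (j + 2)).ncard := by
  obtain ⟨m, hm⟩ := fail4 C
  obtain ⟨V, _, H, -, h⟩ := cones (W m) (G m) (j - 4)
  have e0 : j = 4 + (j - 4) := by omega
  have e1 : j + 1 = 5 + (j - 4) := by omega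
  have e2 : j + 2 = 6 + (j - 4) := by omega
  refine ⟨V, inferInstance, H, ?_, ?_⟩
  · rw [e1, h]; exact pos5 m
  · rw [e1, e2, h, h]
    conv_rhs => rw [e0, h]
    exact hm

end Pool.Agent.KS6_1.RF.LogConc
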