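import Mathlib

set_option autoImplicit false

/-! Every partially ordered group is the automorphism group, with the pointwise order, of a poset.
The rigid skeleton (`lab`, the two-sided layers, `main`) follows the library module
`R_pool_sql_team_22a80281.Lib.helper22_.Bard`, which treats lattice-ordered groups; directedness of
the order is replaced here by a well-ordered family of minimal fixed points. -/

namespace Pool.Agent.KS6_1.RF.PoGroup

universe u

section

variable {G W : Type u} [Group G] [PartialOrder G] [MulLeftMono G] [MulRightMono G] [LinearOrder W]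

def lab (c : W → G) (v w : W) : G := if v = w then c v else 1

inductive Om (c : W → G) : Type u
  | F (i : W ×ₗ Bool) : Om c
  | P (g : G) (w : W) (s : Bool) : Om c

variable {c : W → G}

def le' (c : W → G) : Om c → Om c → Prop
  | .F i, .F j => i = j
  | .F i, .P _ w s => i ≤ toLex (w, s)
  | .P _ _ _, .F _ => False
  | .P g v s, .P h w t => (s = t ∧ v = w ∧ g ≤ h) ∨
      (s = false ∧ t = true ∧ v ≤ w ∧ g * lab c v w ≤ h)

theorem lex_aux {v w : W} (h : v ≤ w) : toLex (v, false) ≤ toLex (w, true) := by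
  rw [Prod.Lex.toLex_le_toLex]
  rcases h.lt_or_eq with h | h
  · exact Or.inl h
  · exact Or.inr ⟨h, Bool.false_le _⟩

instance : PartialOrder (Om c) where
  le x y := le' c x y
  le_refl x := by
    cases x with
    | F i => rfl
    | P g w s => exact Or.inl ⟨rfl, rfl, le_rfl⟩
  le_trans := by
    intro x y z hxy hyz
    cases x with
    | F i =>
      cases y with
      | F j => cases hxy; exact hyz
      | P g v s =>
        cases z with
        | F k => exact hyz.elim
        | P h w t =>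
          rcases hyz with ⟨rfl, rfl, -⟩ | ⟨rfl, rfl, h1, -⟩
          · exact hxy
          · exact le_trans (a := i) hxy (lex_aux h1)
    | P g v s =>
      cases y with
      | F j => exact hxy.elim
      | P h w t =>
        cases z with
        | F k => exact hyz.elim
        | P k u r =>
          rcases hxy with ⟨rfl, rfl, h3⟩ | ⟨rfl, rfl, h3, h4⟩
          · rcases hyz with ⟨rfl, rfl, h7⟩ | ⟨rfl, rfl, h7, h8⟩
            · exact Or.inl ⟨rfl, rfl, h3.trans h7⟩
            · exact Or.inr ⟨rfl, rfl, h7, (mul_le_mul_left h3 _).trans h8⟩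
          · rcases hyz with ⟨h5, rfl, h7⟩ | ⟨h5, -, -, -⟩
            · subst h5
              exact Or.inr ⟨rfl, rfl, h3, h4.trans h7⟩
            · exact absurd h5 (by decide)
  le_antisymm := by
    intro x y hxy hyx
    cases x with
    | F i =>
      cases y with
      | F j => cases hxy; rfl
      | P g v s => exact hyx.elim
    | P g v s =>
      cases y with
      | F j => exact hxy.elim
      | P h w t =>
        rcases hxy with ⟨rfl, rfl, h3⟩ | ⟨rfl, rfl, h3, h4⟩
        · rcases hyx with ⟨-, -, h7⟩ | ⟨h5, h6, -, -⟩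
          · rw [le_antisymm h3 h7]
          · exact absurd (h5.symm.trans h6) (by decide)
        · rcases hyx with ⟨h5, -, -⟩ | ⟨h5, -, -, -⟩
          · exact absurd h5 (by decide)
          · exact absurd h5 (by decide)

theorem FP (i : W ×ₗ Bool) (g : G) (w : W) (s : Bool) :
    (Om.F i : Om c) ≤ .P g w s ↔ i ≤ toLex (w, s) := Iff.rfl

theorem PP (g h : G) (v w : W) (s t : Bool) :
    (Om.P g v s : Om c) ≤ .P h w t ↔ (s = t ∧ v = w ∧ g ≤ h) ∨
      (s = false ∧ t = true ∧ v ≤ w ∧ g * lab c v w ≤ h) := Iff.rfl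

theorem isMin_F (i : W ×ₗ Bool) : IsMin (Om.F i : Om c) := by
  intro y hy
  cases y with
  | F j => exact (show j = i from hy) ▸ le_rfl
  | P g w s => exact (show False from hy).elim

theorem not_isMin_P (g : G) (w : W) (s : Bool) : ¬ IsMin (Om.P g w s : Om c) := by
  intro h
  exact (show False from h ((FP (toLex (w, s)) g w s).2 le_rfl))

def idx : Om c → W ×ₗ Bool
  | .F i => i
  | .P _ w s => toLex (w, s)

theorem mapF (φ : Om c ≃o Om c) (i : W ×ₗ Bool) : ∃ j, φ (.F i) = .F j := by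
  have h : IsMin (φ (.F i)) := φ.isMin_apply.2 (isMin_F i)
  generalize φ (.F i) = y at h ⊢
  cases y with
  | F j => exact ⟨j, rfl⟩
  | P g w s => exact absurd h (not_isMin_P g w s)

theorem mapP (φ : Om c ≃o Om c) (g : G) (w : W) (s : Bool) : ∃ h v t, φ (.P g w s) = .P h v t := by
  have h : ¬ IsMin (φ (.P g w s)) := fun h => not_isMin_P g w s (φ.isMin_apply.1 h)
  generalize φ (.P g w s) = y at h ⊢
  cases y with
  | F j => exact absurd (isMin_F j) h
  | P k v t => exact ⟨k, v, t, rfl⟩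

/-- the order of the indices of the moving points is determined by the fixed points below them -/
theorem idx_le (φ : Om c ≃o Om c) (g h : G) (v w : W) (s t : Bool) :
    idx (φ (.P g v s)) ≤ idx (φ (.P h w t)) ↔ toLex (v, s) ≤ toLex (w, t) := by
  have key : ∀ (ψ : Om c ≃o Om c) (g h : G) (v w : W) (s t : Bool), toLex (v, s) ≤ toLex (w, t) →
      idx (ψ (.P g v s)) ≤ idx (ψ (.P h w t)) := by
    intro ψ g h v w s t hle
    obtain ⟨g', v', s', e1⟩ := mapP ψ g v s
    obtain ⟨h', w', t', e2⟩ := mapP ψ h w t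
    rw [e1, e2]
    obtain ⟨j, hj⟩ := mapF ψ.symm (toLex (v', s'))
    have h1 : (Om.F j : Om c) ≤ .P g v s := by
      rw [← hj, ψ.symm_apply_le, e1]
      exact (FP _ _ _ _).2 le_rfl
    have h2 : (Om.F j : Om c) ≤ .P h w t := (FP _ _ _ _).2 (((FP _ _ _ _).1 h1).trans hle)
    rw [← hj, ψ.symm_apply_le, e2] at h2
    exact (FP _ _ _ _).1 h2
  refine ⟨fun hle => ?_, key φ g h v w s t⟩
  obtain ⟨g', v', s', e1⟩ := mapP φ g v s
  obtain ⟨h', w', t', e2⟩ := mapP φ h w t
  rw [e1, e2] at hle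
  have := key φ.symm g' h' v' w' s' t' hle
  rwa [← e1, ← e2, φ.symm_apply_apply, φ.symm_apply_apply] at this

theorem idx_fix [WellFoundedLT W] (φ : Om c ≃o Om c) (g : G) (v : W) (s : Bool) :
    idx (φ (.P g v s)) = toLex (v, s) := by
  have key : ∀ (ψ : Om c ≃o Om c) (g : G) (v : W) (s : Bool),
      toLex (v, s) ≤ idx (ψ (.P g v s)) := by
    intro ψ g v s
    have h1 : StrictMono fun i : W ×ₗ Bool =>
        idx (ψ (.P g (ofLex i).1 (ofLex i).2)) := by
      intro i j hij
      exact lt_of_not_ge fun h => hij.not_ge ((idx_le ψ g g _ _ _ _).1 h)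
    exact h1.le_apply (x := toLex (v, s))
  refine le_antisymm ?_ (key φ g v s)
  obtain ⟨g', v', s', e1⟩ := mapP φ g v s
  have := key φ.symm g' v' s'
  rw [← e1, φ.symm_apply_apply] at this
  rw [e1]
  exact this

theorem form [WellFoundedLT W] (φ : Om c ≃o Om c) (g : G) (v : W) (s : Bool) :
    ∃ h, φ (.P g v s) = .P h v s := by
  obtain ⟨g', v', s', e1⟩ := mapP φ g v s
  have := idx_fix φ g v s
  rw [e1] at this
  have h2 : (v', s') = (v, s) := toLex.injective this
  rw [Prod.mk.injEq] at h2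
  obtain ⟨rfl, rfl⟩ := h2
  exact ⟨g', e1⟩

theorem formF [WellFoundedLT W] (φ : Om c ≃o Om c) (i : W ×ₗ Bool) : φ (.F i) = .F i := by
  obtain ⟨j, hj⟩ := mapF φ i
  rw [hj]
  congr 1
  refine eq_of_forall_ge_iff fun k => ?_
  obtain ⟨h, hh⟩ := form φ 1 (ofLex k).1 (ofLex k).2
  have e1 : (Om.F i : Om c) ≤ .P 1 (ofLex k).1 (ofLex k).2 ↔
      φ (.F i) ≤ φ (.P 1 (ofLex k).1 (ofLex k).2) := φ.le_iff_le.symm
  rw [hj, hh, FP, FP] at e1
  exact e1.symm

def gp : Om c → G
  | .F _ => 1
  | .P g _ _ => g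

theorem main [WellFoundedLT W] [NoMaxOrder W] (hc : ∀ g, ∃ v w, v < w ∧ c w = g)
    (φ : Om c ≃o Om c) : ∃ a : G, ∀ g w s, φ (.P g w s) = .P (a * g) w s := by
  have form' : ∀ (φ : Om c ≃o Om c) g w s, φ (.P g w s) = .P (gp (φ (.P g w s))) w s := by
    intro φ g w s
    obtain ⟨h, hh⟩ := form φ g w s
    rw [hh]; rfl
  have key : ∀ g v w, v ≤ w →
      gp (φ (.P (g * lab c v w) w true)) = gp (φ (.P g v false)) * lab c v w := by
    intro g v w h
    refine eq_of_forall_ge_iff fun k => ?_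
    have e1 : φ (.P (g * lab c v w) w true) ≤ .P k w true ↔ φ (.P g v false) ≤ .P k w true := by
      rw [← φ.le_symm_apply, ← φ.le_symm_apply, form' φ.symm, PP, PP]
      simp [h]
    rw [form' φ _ w true, form' φ g v false, PP, PP] at e1
    simpa [h] using e1
  have k1 : ∀ g v w, v < w → gp (φ (.P g w true)) = gp (φ (.P g v false)) := by
    intro g v w h
    simpa [lab, h.ne] using key g v w h.le
  have k2 : ∀ g v w, gp (φ (.P g v false)) = gp (φ (.P g w false)) := by
    intro g v w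
    obtain ⟨u, hu⟩ := exists_gt (max v w)
    rw [← k1 g v u ((le_max_left _ _).trans_lt hu), k1 g w u ((le_max_right _ _).trans_lt hu)]
  obtain ⟨v0, -⟩ := hc 1
  have k3 : ∀ g v, gp (φ (.P g v false)) = gp (φ (.P 1 v0 false)) * g := by
    intro g v
    obtain ⟨u, w, huw, rfl⟩ := hc g
    have := key 1 w w le_rfl
    simp only [lab, if_true, one_mul] at this
    rw [k2 _ v u, ← k1 _ u w huw, this, k2 1 w v0]
  refine ⟨gp (φ (.P 1 v0 false)), fun g w s => ?_⟩
  rw [form' φ]
  cases s with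
  | false => rw [k3]
  | true =>
    have := key (g * (lab c w w)⁻¹) w w le_rfl
    rw [inv_mul_cancel_right, k3, mul_assoc, inv_mul_cancel_right] at this
    rw [this]

def mv (c : W → G) (a : G) : Om c → Om c
  | .F i => .F i
  | .P g w s => .P (a * g) w s

def act (c : W → G) (a : G) : Om c ≃o Om c where
  toFun := mv c a
  invFun := mv c a⁻¹
  left_inv x := by cases x <;> simp [mv]
  right_inv x := by cases x <;> simp [mv]
  map_rel_iff' := by
    intro x y
    cases x <;> cases y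
    · exact Iff.rfl
    · exact Iff.rfl
    · exact Iff.rfl
    · simp [mv, PP, mul_assoc]

theorem final [NoMaxOrder W] [WellFoundedLT W] (c : W → G) (hc : ∀ g, ∃ v w, v < w ∧ c w = g) :
    ∃ (φ : G → (Om c ≃o Om c)),
      Function.Bijective φ ∧ (∀ a b : G, φ (a * b) = (φ b).trans (φ a)) ∧
      (∀ a b : G, a ≤ b ↔ ∀ x : Om c, φ a x ≤ φ b x) := by
  obtain ⟨v0, -⟩ := hc 1
  refine ⟨act c, ⟨fun a b h => ?_, fun φ => ?_⟩, fun a b => ?_, fun a b => ?_⟩
  · simpa [act, mv, gp] using congrArg (fun ψ : Om c ≃o Om c => gp (ψ (.P 1 v0 false))) h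
  · obtain ⟨a, ha⟩ := main hc φ
    refine ⟨a, OrderIso.ext (funext fun x => ?_)⟩
    cases x with
    | F i => exact (formF φ i).symm
    | P g w s => exact (ha g w s).symm
  · exact OrderIso.ext (funext fun x => by cases x <;> simp [act, mv, mul_assoc])
  · refine ⟨fun h x => ?_, fun h => ?_⟩
    · cases x with
      | F i => exact le_rfl
      | P g w s => exact Or.inl ⟨rfl, rfl, mul_le_mul_left h _⟩
    · have := h (.P 1 v0 false)
      simpa [act, mv, PP] using this

end

open Cardinal in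
theorem exists_W (G : Type u) : ∃ (W : Type u) (_ : LinearOrder W) (_ : NoMaxOrder W)
    (_ : WellFoundedLT W) (c : W → G), (∀ g, ∃ v w, v < w ∧ c w = g) ∧ #W = #G * ℵ₀ := by
  obtain ⟨i1, i2⟩ := exists_wellFoundedLT (α := G)
  refine ⟨Lex (G × ℕ), inferInstance,
    ⟨fun x => ⟨toLex ((ofLex x).1, (ofLex x).2 + 1), Prod.Lex.right _ (Nat.lt_succ_self _)⟩⟩,
    inferInstance, fun w => (ofLex w).1,
    fun g => ⟨toLex (g, 0), toLex (g, 1), Prod.Lex.right _ one_pos, rfl⟩, ?_⟩
  have : #(Lex (G × ℕ)) = #(G × ℕ) := mk_congr ofLex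
  rw [this, mk_prod, mk_nat, lift_uzero, lift_aleph0]

open Cardinal in
theorem mk_Om {G W : Type u} [Group G] [LinearOrder W] (c : W → G) (h : #W = #G * ℵ₀) :
    #(Om c) = max #G ℵ₀ := by
  have e : Om c ≃ (W × Bool) ⊕ (G × W × Bool) :=
    { toFun := fun x => match x with
        | .F i => .inl (ofLex i)
        | .P g w s => .inr (g, w, s)
      invFun := fun x => match x with
        | .inl i => .F (toLex i)
        | .inr (g, w, s) => .P g w s
      left_inv := fun x => by cases x <;> rfl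
      right_inv := fun x => by rcases x with x | ⟨g, w, s⟩ <;> rfl }
  have hG : #G ≠ 0 := by simp
  have hW : #W = max #G ℵ₀ := by
    rw [h]; exact mul_eq_max_of_aleph0_le_right hG le_rfl
  have hi : ℵ₀ ≤ max #G ℵ₀ := le_max_right _ _
  have h2 : #(W × Bool) = max #G ℵ₀ := by
    rw [mk_prod, lift_uzero, hW, mk_bool]
    have : lift.{u} (2 : Cardinal.{0}) = ((2 : ℕ) : Cardinal.{u}) := by simp
    rw [this, mul_eq_max_of_aleph0_le_left hi (by simp)]
    exact max_eq_left (natCast_le_aleph0.trans hi)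
  have h3 : #(G × W × Bool) = max #G ℵ₀ := by
    rw [mk_prod, lift_id, lift_id, h2, mul_eq_max_of_aleph0_le_right hG hi]
    exact max_eq_right (le_max_left _ _)
  rw [mk_congr e, mk_sum, lift_id, lift_id, h2, h3, add_eq_self hi]

/-- every partially ordered group is `Aut` of a poset with the pointwise order -/
theorem poset (G : Type u) [Group G] [PartialOrder G] [MulLeftMono G] [MulRightMono G] :
    ∃ (Ω : Type u) (_ : PartialOrder Ω), Cardinal.mk Ω = max (Cardinal.mk G) Cardinal.aleph0 ∧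
      ∃ (φ : G → (Ω ≃o Ω)),
      Function.Bijective φ ∧ (∀ a b : G, φ (a * b) = (φ b).trans (φ a)) ∧
      (∀ a b : G, a ≤ b ↔ ∀ x : Ω, φ a x ≤ φ b x) := by
  obtain ⟨W, _, _, _, c, hc, hW⟩ := exists_W G
  exact ⟨Om c, inferInstance, mk_Om c hW, final c hc⟩

/-! ### from posets to completely distributive lattices -/

section

variable {Ω : Type u} [PartialOrder Ω]

/-- complete join primes of the lattice of lower sets are the principal ones -/
theorem cjp (D : LowerSet Ω) :
    (∀ S : Set (LowerSet Ω), D ≤ sSup S → ∃ E ∈ S, D ≤ E) ↔ ∃ x, D = LowerSet.Iic x := by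
  constructor
  · intro h
    obtain ⟨E, ⟨x, hx, rfl⟩, hE⟩ := h (LowerSet.Iic '' (D : Set Ω)) (by
      intro x hx
      refine LowerSet.mem_sSup_iff.2 ?_
      exact ⟨_, ⟨x, hx, rfl⟩, le_rfl⟩)
    exact ⟨x, le_antisymm hE (LowerSet.Iic_le.2 hx)⟩
  · rintro ⟨x, rfl⟩ S hS
    have := LowerSet.mem_sSup_iff.1 (LowerSet.Iic_le.1 hS)
    obtain ⟨E, hE, hx⟩ := this
    exact ⟨E, hE, LowerSet.Iic_le.2 hx⟩

theorem map_prin (φ : LowerSet Ω ≃o LowerSet Ω) (x : Ω) : ∃ y, φ (LowerSet.Iic x) = LowerSet.Iic y := by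
  rw [← cjp]
  intro S hS
  have h1 : LowerSet.Iic x ≤ sSup (φ.symm '' S) := by
    rw [← map_sSup, φ.le_symm_apply]
    exact hS
  obtain ⟨E, ⟨E', hE', rfl⟩, hE⟩ := (cjp _).2 ⟨x, rfl⟩ _ h1
  exact ⟨E', hE', φ.le_symm_apply.1 hE⟩

theorem exists_base (φ : LowerSet Ω ≃o LowerSet Ω) : ∃ ψ : Ω ≃o Ω, φ = LowerSet.map ψ := by
  choose f hf using map_prin φ
  choose g hg using map_prin φ.symm
  have inj : ∀ x y : Ω, LowerSet.Iic x = LowerSet.Iic y → x = y := by
    intro x y h
    exact le_antisymm (LowerSet.Iic_le.1 h.le) (LowerSet.Iic_le.1 h.ge)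
  have h1 : ∀ x, g (f x) = x := fun x => inj _ _ (by rw [← hg, ← hf, φ.symm_apply_apply])
  have h2 : ∀ x, f (g x) = x := fun x => inj _ _ (by rw [← hf, ← hg, φ.apply_symm_apply])
  have h3 : ∀ x y, f x ≤ f y ↔ x ≤ y := by
    intro x y
    have := φ.le_iff_le (x := LowerSet.Iic x) (y := LowerSet.Iic y)
    rw [hf, hf, LowerSet.Iic_le, LowerSet.Iic_le] at this
    exact this
  refine ⟨⟨⟨f, g, h1, h2⟩, h3 _ _⟩, ?_⟩
  ext D x
  have e : x ∈ φ D ↔ LowerSet.Iic x ≤ φ D := LowerSet.Iic_le.symm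
  rw [SetLike.mem_coe, e, ← φ.symm_apply_le, hg, LowerSet.Iic_le]
  constructor
  · intro h
    exact ⟨g x, h, h2 x⟩
  · rintro ⟨y, hy, rfl⟩
    change g (f y) ∈ D
    rwa [h1]

theorem map_le_map (ψ χ : Ω ≃o Ω) :
    (∀ D : LowerSet Ω, LowerSet.map ψ D ≤ LowerSet.map χ D) ↔ ∀ x, ψ x ≤ χ x := by
  constructor
  · intro h x
    have := h (LowerSet.Iic x)
    rw [LowerSet.map_Iic, LowerSet.map_Iic, LowerSet.Iic_le] at this
    exact this
  · rintro h D y ⟨x, hx, rfl⟩
    exact (LowerSet.map χ D).lower (h x) ⟨x, hx, rfl⟩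

end

/-- every partially ordered group is `Aut` of a completely distributive complete lattice with the
pointwise order -/
theorem lattice (G : Type u) [Group G] [PartialOrder G] [MulLeftMono G] [MulRightMono G] :
    ∃ (L : Type u) (_ : CompletelyDistribLattice L) (φ : G → (L ≃o L)),
      Function.Bijective φ ∧ (∀ a b : G, φ (a * b) = (φ b).trans (φ a)) ∧
      (∀ a b : G, a ≤ b ↔ ∀ x : L, φ a x ≤ φ b x) := by
  obtain ⟨Ω, _, -, φ, ⟨h1, h2⟩, h3, h4⟩ := poset G
  refine ⟨LowerSet Ω, inferInstance, fun a => LowerSet.map (φ a), ⟨fun a b h => ?_, fun χ => ?_⟩,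
    fun a b => ?_, fun a b => ?_⟩
  · refine h1 (OrderIso.ext (funext fun x => ?_))
    have := congrArg (fun ψ : LowerSet Ω ≃o LowerSet Ω => ψ (LowerSet.Iic x)) h
    simp only [LowerSet.map_Iic] at this
    exact le_antisymm (LowerSet.Iic_le.1 this.le) (LowerSet.Iic_le.1 this.ge)
  · obtain ⟨ψ, rfl⟩ := exists_base χ
    obtain ⟨a, rfl⟩ := h2 ψ
    exact ⟨a, rfl⟩
  · refine OrderIso.ext (funext fun D => ?_)
    simp only [h3]
    ext x
    simp
  · rw [h4, ← map_le_map]

theorem conv (G : Type u) [Group G] [PartialOrder G] (Ω : Type u) [PartialOrder Ω]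
    (φ : G → (Ω ≃o Ω)) (h1 : ∀ a b : G, φ (a * b) = (φ b).trans (φ a))
    (h2 : ∀ a b : G, a ≤ b ↔ ∀ x : Ω, φ a x ≤ φ b x) : MulLeftMono G ∧ MulRightMono G := by
  constructor
  · refine ⟨fun c a b h => ?_⟩
    have h := (h2 a b).1 h
    show c * a ≤ c * b
    rw [h2]
    intro x
    rw [h1, h1]
    exact (φ c).monotone (h x)
  · refine ⟨fun c a b h => ?_⟩
    have h := (h2 a b).1 h
    show a * c ≤ b * c
    rw [h2]
    intro x
    rw [h1, h1]
    exact h (φ c x)

end Pool.Agent.KS6_1.RF.PoGroup
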