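import Mathlib
import Pool.Graph.R_pool_sql_team_22a80281.S19597

set_option autoImplicit false

/-! One protocol for all small arrival rates. The construction and the Lyapunov function are those of
the library module `R_pool_sql_team_22a80281.S19597` (arrival rate `2^-18`); the proof is adapted to
an arbitrary arrival rate in `(0, 2^-18]` by enlarging the finite exceptional set. -/

namespace Pool.Agent.KS6_1.RF.Slot

open Pool.Agent.S19597
open scoped ENNReal
open Filter Topology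
noncomputable def poi (lam : ℝ) (a : ℕ) : ℝ := Real.exp (-lam) * lam ^ a / (a.factorial : ℝ)

lemma poi_nonneg {lam : ℝ} (hl : 0 ≤ lam) (a : ℕ) : 0 ≤ poi lam a := by unfold poi; positivity

lemma poi_sum (lam : ℝ) : HasSum (poi lam) 1 := by
  have := (NormedSpace.expSeries_div_hasSum_exp lam).mul_left (Real.exp (-lam))
  rw [← Real.exp_eq_exp_ℝ, ← Real.exp_add, neg_add_cancel, Real.exp_zero] at this
  have e : poi lam = fun i => Real.exp (-lam) * (lam ^ i / (i.factorial : ℝ)) := by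
    funext a; rw [poi, mul_div_assoc]
  rw [e]; exact this

lemma poi_mean (lam : ℝ) : HasSum (fun a => poi lam a * a) lam := by
  rw [← hasSum_nat_add_iff' 1]
  have e : (fun a : ℕ => poi lam (a + 1) * ((a + 1 : ℕ) : ℝ)) = fun a => lam * poi lam a := by
    funext a
    have : (a.factorial : ℝ) ≠ 0 := by positivity
    simp only [poi, Nat.factorial_succ]
    push_cast
    field_simp
    ring
  rw [e]
  simpa using (poi_sum lam).mul_left lam

lemma poi_bound {lam : ℝ} (hl : 0 ≤ lam) (hl1 : lam ≤ 1 / 2 ^ 18) {g : ℕ → ℝ} {c u : ℝ} (hc : 0 ≤ c) (hu : 0 ≤ u)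
    (h : ∀ a, g a ≤ c + 2 ^ 18 * a + if a = 0 then u else 0) :
    ∑' a, ENNReal.ofReal (poi lam a) * ENNReal.ofReal (g a) ≤ ENNReal.ofReal (c + 1 + u * Real.exp (-lam)) := by
  have h1 := (((poi_sum lam).mul_right c).add ((poi_mean lam).mul_left (2 ^ 18))).add
    (hasSum_ite_eq 0 (u * Real.exp (-lam)))
  have h2 : (2 : ℝ) ^ 18 * lam ≤ 1 := by
    rw [le_div_iff₀ (by positivity)] at hl1; linarith
  rw [one_mul] at h1
  have h3 : ∀ a, poi lam a * c + 2 ^ 18 * (poi lam a * a) + (if a = 0 then u * Real.exp (-lam) else 0) =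
      poi lam a * (c + 2 ^ 18 * a + if a = 0 then u else 0) := by
    intro a
    split_ifs with ha
    · subst ha; simp [poi]; ring
    · ring
  simp_rw [h3] at h1
  refine le_trans ?_ (ENNReal.ofReal_le_ofReal
    (show c + 2 ^ 18 * lam + u * Real.exp (-lam) ≤ c + 1 + u * Real.exp (-lam) by linarith))
  rw [← h1.tsum_eq, ENNReal.ofReal_tsum_of_nonneg
    (fun a => mul_nonneg (poi_nonneg hl a) (by positivity)) h1.summable]
  refine ENNReal.tsum_le_tsum fun a => ?_
  rw [ENNReal.ofReal_mul (poi_nonneg hl a)]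
  gcongr
  exact h a

def Drift (lam : ℝ) (w : ℕ) (s : St) (T : ℝ) : Prop := ∃ c1 c0 u : ℝ, 0 ≤ c1 ∧ 0 ≤ c0 ∧ 0 ≤ u ∧
  (∀ a : ℕ, v (w - 1 + a) (nxt s true) ≤ c1 + 2 ^ 18 * a) ∧
  (∀ a : ℕ, v (w + a) (nxt s false) ≤ c0 + 2 ^ 18 * a + if a = 0 then u else 0) ∧
  sc w (pp s) * (c1 + 1) + (1 - sc w (pp s)) * (c0 + 1 + u * Real.exp (-lam)) + 1 ≤ T

lemma mkD {lam : ℝ} {w : ℕ} {s : St} {T c1 c0 u : ℝ} (hs : ∀ a : ℕ, v (w - 1 + a) (nxt s true) ≤ c1 + 2 ^ 18 * a)
    (hf : ∀ a : ℕ, v (w + a) (nxt s false) ≤ c0 + 2 ^ 18 * a + if w + a = 0 then u else 0)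
    (h1 : 0 ≤ c1) (h0 : 0 ≤ c0) (hu : 0 ≤ u)
    (hT : sc w (pp s) * (c1 + 1) + (1 - sc w (pp s)) *
      (c0 + 1 + (if w = 0 then u else 0) * Real.exp (-lam)) + 1 ≤ T) : Drift lam w s T := by
  refine ⟨c1, c0, _, h1, h0, by split_ifs <;> simp [hu], hs, fun a => (hf a).trans ?_, hT⟩
  by_cases hw : w = 0 <;> by_cases ha : a = 0 <;> simp [hw, ha]

lemma mkD' {lam : ℝ} {w : ℕ} {s : St} {T c1 c0 : ℝ} (hs : ∀ a : ℕ, v (w - 1 + a) (nxt s true) ≤ c1 + 2 ^ 18 * a)
    (hf : ∀ a : ℕ, v (w + a) (nxt s false) ≤ c0 + 2 ^ 18 * a) (h1 : 0 ≤ c1) (h0 : 0 ≤ c0)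
    (hT : sc w (pp s) * (c1 + 1) + (1 - sc w (pp s)) * (c0 + 1) + 1 ≤ T) : Drift lam w s T :=
  ⟨c1, c0, 0, h1, h0, le_rfl, hs, by simpa using hf, by simpa using hT⟩

lemma max_add (x : ℝ) (a : ℕ) {y : ℝ} (h : y ≤ x + a) : max y 0 ≤ max x 0 + a := by
  have := le_max_left x 0; have := le_max_right x 0
  have : (0 : ℝ) ≤ a := by positivity
  exact max_le (by linarith) (by linarith)

lemma cast_le (w a : ℕ) : ((w - 1 + a : ℕ) : ℝ) ≤ w + a := by
  exact_mod_cast (by omega : w - 1 + a ≤ w + a)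

lemma drift1 {lam : ℝ} (hl1 : lam ≤ 1 / 2 ^ 18) (m t w : ℕ) (ht : t < N m) (hw : w ≤ N m)
    (hm : w = 0 → 12 ≤ lam * N m) : Drift lam w (false, m, t) (V1 (N m) t w) := by
  have hn := N_big m
  obtain ⟨q1, -⟩ := q_mem m
  have ht' : (t : ℝ) + 1 ≤ N m := by exact_mod_cast ht
  have e : (1 - 3 / N m : ℝ) ^ (N m - t) = (1 - 3 / N m) ^ (N m - (t + 1)) * (1 - 3 / N m) := by
    rw [← pow_succ]; congr 1; omega
  have r0 : 0 ≤ 4104 * N m * (1 - 3 / N m : ℝ) ^ (N m - (t + 1)) := by positivity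
  have m0 := le_max_right ((w : ℝ) - N m / 2) 0
  have w0 : (0 : ℝ) ≤ w := by positivity
  have hs : ∀ a : ℕ, v (w - 1 + a) (nxt (false, m, t) true) ≤
      2 ^ 16 * w + 2 ^ 17 * max ((w : ℝ) - N m / 2) 0 + 2048 * N m + 2 ^ 18 * a := by
    intro a
    refine (B4 m _).1.trans ?_
    have a0 : (0 : ℝ) ≤ a := by positivity
    have a1 := cast_le w a
    have := max_add (w - N m / 2) a (y := ((w - 1 + a : ℕ) : ℝ) - 64 * N m) (by linarith)
    linarith
  have hf : ∀ a : ℕ, v (w + a) (nxt (false, m, t) false) ≤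
      2 ^ 16 * w + 2 ^ 17 * max ((w : ℝ) - N m / 2) 0 + 2048 * N m +
        4104 * N m * (1 - 3 / N m : ℝ) ^ (N m - (t + 1)) + 2 * (N m - (t + 1)) + 2 ^ 18 * a +
        if w + a = 0 then 4104 * N m * (1 - 3 / N m : ℝ) ^ (N m - (t + 1)) else 0 := by
    intro a
    refine (B1 m t _ ht).trans ?_
    have a0 : (0 : ℝ) ≤ a := by positivity
    have := max_add (w - N m / 2) a (y := ((w + a : ℕ) : ℝ) - N m / 2) (by push_cast; linarith)
    unfold V1
    push_cast at this ⊢
    split_ifs <;> linarith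
  unfold V1
  rw [e]
  generalize (1 - 3 / N m : ℝ) ^ (N m - (t + 1)) = r at *
  refine mkD hs hf (by linarith) (by linarith) r0 ?_
  rcases Nat.eq_zero_or_pos w with rfl | hw0
  · have a1 : Real.exp (-lam) ≤ 1 - 6 / N m := by
      have b0 := hm rfl
      have b1 := Real.add_one_le_exp lam
      have b2 : (6 / N m : ℝ) ≤ lam / 2 := by rw [div_le_iff₀ (by linarith)]; linarith
      have b3 : 0 ≤ (6 / N m : ℝ) := by positivity
      have b4 : lam ≤ 1 := hl1.trans (by norm_num)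
      rw [Real.exp_neg, inv_le_iff_one_le_mul₀ (Real.exp_pos _)]
      nlinarith
    have a2 := mul_le_mul_of_nonneg_left a1 r0
    have a3 : (6 / N m : ℝ) = 2 * (3 / N m) := by ring
    simp only [sc, Nat.cast_zero, if_true]
    rw [a3] at a2
    nlinarith
  · have a1 : (3 / N m : ℝ) ≤ sc w (pp (false, m, t)) := by
      have b1 := pp_lo (false, m, t)
      have := sc_low (M := m + 96) (by omega) b1.1 (b1.2.trans (le_of_eq (by simp only [lo]; ring))) hw0
        (N_def m ▸ hw)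
      rwa [← N_cast] at this
    have a2 := (sc_mem (pp_mem (false, m, t)).1 (pp_mem _).2 w).1
    rw [if_neg (by omega), if_neg (by omega)]
    nlinarith [mul_le_mul_of_nonneg_left a1 r0]

lemma drift2 (lam : ℝ) (m t w : ℕ) (ht : t < N m) (hw : N m ≤ 4 * w) : Drift lam w (false, m, t) (V2 (N m) t w) := by
  have hn := N_big m
  have ht' : (t : ℝ) + 1 ≤ N m := by exact_mod_cast ht
  have t0 : (0 : ℝ) ≤ t := by positivity
  have hw' : (N m : ℝ) ≤ 4 * w := by exact_mod_cast hw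
  obtain ⟨s0, s1⟩ := sc_mem (pp_mem (false, m, t)).1 (pp_mem _).2 w
  have hf : ∀ a : ℕ, v (w + a) (nxt (false, m, t) false) ≤
      (2 ^ 17 * w - 1028 * (N m + (t + 1))) + 2 ^ 18 * a := by
    intro a
    refine (B2 m t _ ht (by omega)).trans ?_
    have a0 : (0 : ℝ) ≤ a := by positivity
    unfold V2
    push_cast
    linarith
  unfold V2
  rcases le_total w (64 * N m) with h | h
  · have h' : (w : ℝ) ≤ 64 * N m := by exact_mod_cast h
    refine mkD' (c1 := 2 ^ 16 * w + 2048 * N m) (fun a => ?_) hf (by linarith) (by linarith) (by nlinarith)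
    refine (B4 m _).1.trans ?_
    have a0 : (0 : ℝ) ≤ a := by positivity
    have a1 := cast_le w a
    have : max (((w - 1 + a : ℕ) : ℝ) - 64 * N m) 0 ≤ a := max_le (by linarith) a0
    linarith
  · refine mkD' (c1 := 2 ^ 17 * w + 2048 * N m) (fun a => ?_) hf (by linarith) (by linarith) ?_
    · refine (B4 m _).2.trans ?_
      have a0 : (0 : ℝ) ≤ a := by positivity
      have a1 := cast_le w a
      linarith
    · have := sc_high (M := m + 96) (by omega) (pp_lo (false, m, t)).1 (pp_mem _).2 (w := w) (N_def m ▸ h)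
      rw [← N_cast] at this
      nlinarith

lemma drift3 (lam : ℝ) (m t w : ℕ) (ht : t < 1024 * N m) : Drift lam w (true, m, t) (VC (N m) t w) := by
  have hn := N_big m
  have ht' : (t : ℝ) + 1 ≤ 1024 * N m := by exact_mod_cast ht
  have t0 : (0 : ℝ) ≤ t := by positivity
  have w0 : (0 : ℝ) ≤ w := by positivity
  obtain ⟨s0, s1⟩ := sc_mem (pp_mem (true, m, t)).1 (pp_mem _).2 w
  have e1 : al (N m) t = al (N m) (t + 1) - 1 / (2048 * N m) := by
    unfold al; push_cast; field_simp; ring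
  have e2 : 1 / 2 ≤ al (N m) (t + 1) ∧ al (N m) (t + 1) ≤ 1 := by
    unfold al; push_cast
    have a1 : (1024 * N m - (t + 1) : ℝ) / (2048 * N m) ≤ 1 / 2 := by
      rw [div_le_iff₀ (by linarith)]; linarith
    have a2 : 0 ≤ (1024 * N m - (t + 1) : ℝ) / (2048 * N m) := div_nonneg (by linarith) (by linarith)
    constructor <;> linarith
  have m0 := le_max_right ((w : ℝ) - 64 * N m) 0
  have k0 : (0 : ℝ) < 1 / (2048 * N m) := by positivity
  have g1 : ∀ (b : Bool) (w' a : ℕ), w' ≤ w → v (w' + a) (nxt (true, m, t) b) ≤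
      2 ^ 17 * w + 2 * (1024 * N m - (t + 1)) + 2 ^ 18 * a := by
    intro b w' a h
    refine (B3 m t _ b ht).trans ?_
    have a0 : (0 : ℝ) ≤ a := by positivity
    have h' : (w' : ℝ) ≤ w := by exact_mod_cast h
    unfold VC
    refine (add_le_add_left (min_le_right _ _) _).trans ?_
    push_cast; linarith
  have g2 : ∀ (b : Bool) (w' a : ℕ), w' ≤ w → v (w' + a) (nxt (true, m, t) b) ≤
      2 ^ 17 * (al (N m) (t + 1) * w' + 2 * (1 - al (N m) (t + 1)) * max ((w : ℝ) - 64 * N m) 0) +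
        2 * (1024 * N m - (t + 1)) + 2 ^ 18 * a := by
    intro b w' a h
    refine (B3 m t _ b ht).trans ?_
    have a0 : (0 : ℝ) ≤ a := by positivity
    have h' : (w' : ℝ) ≤ w := by exact_mod_cast h
    unfold VC
    refine (add_le_add_left (min_le_left _ _) _).trans ?_
    have := max_add (w - 64 * N m) a (y := ((w' + a : ℕ) : ℝ) - 64 * N m) (by push_cast; linarith)
    push_cast at this ⊢
    nlinarith [mul_le_mul_of_nonneg_left this (sub_nonneg.2 e2.2)]
  unfold VC
  rw [e1]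
  generalize al (N m) (t + 1) = A at *
  rcases le_total w (128 * N m) with h | h
  · rcases min_choice (2 ^ 17 * ((A - 1 / (2048 * N m)) * w +
      2 * (1 - (A - 1 / (2048 * N m))) * max ((w : ℝ) - 64 * N m) 0) : ℝ) (2 ^ 17 * (w : ℝ)) with h1 | h1
    · have x0 : (0 : ℝ) ≤ ((w - 1 : ℕ) : ℝ) := by positivity
      have x1 := mul_nonneg (sub_nonneg.2 e2.2) m0
      refine mkD' (fun a => g2 true _ a (by omega)) (fun a => g2 false w a le_rfl)
        (by nlinarith) (by nlinarith) ?_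
      rw [h1]
      have h' : (w : ℝ) ≤ 128 * N m := by exact_mod_cast h
      obtain ⟨p1, p2⟩ := pp_lo (true, m, t)
      simp only [lo] at p1 p2
      have a1 : w * pp (true, m, t) ≤ 1 / 2 := by
        calc _ ≤ (128 * N m * (2 * (1 / (512 * N m))) : ℝ) := by gcongr; exact (pp_mem _).1
          _ = _ := by field_simp; norm_num
      have a2 := sc_half (pp_mem _).1 (pp_mem _).2 a1
      have a3 : 2 * (1 / (2048 * N m) * w) ≤ sc w (pp (true, m, t)) := by
        refine le_trans ?_ a2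
        calc _ = (w * (1 / (512 * N m)) / 2 : ℝ) := by field_simp; ring
          _ ≤ _ := by gcongr
      have a4 : sc w (pp (true, m, t)) * ((w - 1 : ℕ) : ℝ) = sc w (pp (true, m, t)) * (w - 1) := by
        cases w with
        | zero => simp [sc]
        | succ k => simp
      have a5 := mul_nonneg k0.le m0
      generalize sc w (pp (true, m, t)) = σ at *
      have a6 : σ * (A * ((w - 1 : ℕ) : ℝ)) = A * (σ * (w - 1)) := by rw [← a4]; ring
      nlinarith [mul_le_mul_of_nonneg_right e2.1 s0]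
    · refine mkD' (fun a => g1 true _ a (by omega)) (fun a => g1 false w a le_rfl)
        (by linarith) (by linarith) ?_
      rw [h1]; linarith
  · have h' : (128 * N m : ℝ) ≤ w := by exact_mod_cast h
    refine mkD' (fun a => g1 true _ a (by omega)) (fun a => g1 false w a le_rfl)
      (by linarith) (by linarith) ?_
    rw [min_eq_right]
    · linarith
    · rw [max_eq_left (by linarith)]
      nlinarith [mul_nonneg (sub_nonneg.2 e2.2) (sub_nonneg.2 h'), mul_nonneg k0.le (sub_nonneg.2 h')]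

lemma drift {lam : ℝ} (hl1 : lam ≤ 1 / 2 ^ 18) (w : ℕ) (s : St) (hs : valid s)
    (hm : w = 0 → s.1 = false → 12 ≤ lam * N s.2.1) :
    ∃ T, Drift lam w s T ∧ (¬ (s = (false, 0, 0) ∧ w < N 0) → T = v w s) := by
  rcases s with ⟨_ | _, m, t⟩
  · have hm' : w = 0 → 12 ≤ lam * N m := fun h => hm h rfl
    by_cases h : 4 * w < N m
    · refine ⟨_, drift1 hl1 m t w hs (by omega) hm', fun h1 => ?_⟩
      simp only [v]
      rw [if_pos h, if_neg]
      rintro ⟨rfl, rfl⟩
      exact h1 ⟨rfl, by omega⟩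
    · simp only [v, if_neg h]
      rcases le_total (V2 (N m) t w) (V1 (N m) t w) with h1 | h1
      · exact ⟨_, drift2 lam m t w hs (by omega), fun _ => (min_eq_right h1).symm⟩
      · by_cases h2 : w ≤ N m
        · exact ⟨_, drift1 hl1 m t w hs h2 hm', fun _ => (min_eq_left h1).symm⟩
        · refine ⟨_, drift2 lam m t w hs (by omega), fun _ => (min_eq_right ?_).symm⟩
          have a1 : (N m : ℝ) ≤ w := by exact_mod_cast (not_le.1 h2).le
          have a2 : (t : ℝ) ≤ N m := by exact_mod_cast (show t < N m from hs).le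
          have a3 := le_max_left ((w : ℝ) - N m / 2) 0
          have a4 : 0 ≤ 4104 * N m * (1 - 3 / N m : ℝ) ^ (N m - t) * (if w = 0 then 2 else 1) := by
            have := (q_mem m).1; positivity
          have a5 : (0 : ℝ) ≤ t := by positivity
          unfold V1 V2
          linarith
  · exact ⟨_, drift3 lam m t w hs, fun _ => rfl⟩

open Classical in
noncomputable def Pr (lam : ℝ) (x y : ℕ × St) : ℝ :=
  (if x.1 ≤ y.1 + 1 ∧ nxt x.2 true = y.2 then sc x.1 (pp x.2) * poi lam (y.1 + 1 - x.1) else 0) +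
  (if x.1 ≤ y.1 ∧ nxt x.2 false = y.2 then (1 - sc x.1 (pp x.2)) * poi lam (y.1 - x.1) else 0)

lemma sc_pp (w : ℕ) (s : St) : 0 ≤ sc w (pp s) ∧ 0 ≤ 1 - sc w (pp s) := by
  have := sc_mem (pp_mem s).1 (pp_mem s).2 w
  exact ⟨this.1, by linarith⟩

lemma Pr_nonneg {lam : ℝ} (hl : 0 ≤ lam) (x y : ℕ × St) : 0 ≤ Pr lam x y := by
  have := sc_pp x.1 x.2
  have h1 := mul_nonneg this.1 (poi_nonneg hl (y.1 + 1 - x.1))
  have h2 := mul_nonneg this.2 (poi_nonneg hl (y.1 - x.1))
  unfold Pr; split_ifs <;> linarith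

open Classical in
lemma shift (lam : ℝ) (k : ℕ) (s : St) {c : ℝ} (hc : 0 ≤ c) (F : ℕ × St → ℝ≥0∞) :
    ∑' y : ℕ × St, ENNReal.ofReal (if k ≤ y.1 ∧ s = y.2 then c * poi lam (y.1 - k) else 0) * F y =
      ENNReal.ofReal c * ∑' a, ENNReal.ofReal (poi lam a) * F (k + a, s) := by
  have hi : Function.Injective fun a : ℕ => ((k + a, s) : ℕ × St) := fun a b h => by simpa using h
  rw [← hi.tsum_eq, ← ENNReal.tsum_mul_left]
  · refine tsum_congr fun a => ?_
    simp [ENNReal.ofReal_mul hc, mul_assoc]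
  · rintro ⟨w, s'⟩ h
    by_cases h1 : k ≤ w ∧ s = s'
    · exact ⟨w - k, by simp [h1.1, h1.2]⟩
    · simp [h1] at h

lemma Pr_sum {lam : ℝ} (hl : 0 ≤ lam) (w : ℕ) (s : St) (F : ℕ × St → ℝ≥0∞) :
    ∑' y, ENNReal.ofReal (Pr lam (w, s) y) * F y =
      ENNReal.ofReal (sc w (pp s)) * ∑' a, ENNReal.ofReal (poi lam a) * F (w - 1 + a, nxt s true) +
      ENNReal.ofReal (1 - sc w (pp s)) * ∑' a, ENNReal.ofReal (poi lam a) * F (w + a, nxt s false) := by
  classical
  have h := sc_pp w s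
  rw [← shift _ _ _ h.1, ← shift _ _ _ h.2, ← ENNReal.tsum_add]
  refine tsum_congr fun y => ?_
  have h1 := mul_nonneg h.1 (poi_nonneg hl (y.1 - (w - 1)))
  have h2 := mul_nonneg h.2 (poi_nonneg hl (y.1 - w))
  rw [← add_mul, ← ENNReal.ofReal_add (by positivity) (by positivity)]
  congr 2
  cases w with
  | zero => simp [sc, Pr]
  | succ k => simp [Pr]

open Classical in
noncomputable def VV (y : ℕ × St) : ℝ≥0∞ := if valid y.2 then ENNReal.ofReal (v y.1 y.2) else ∞

lemma VV_drift {lam : ℝ} (hl : 0 ≤ lam) (hl1 : lam ≤ 1 / 2 ^ 18) {w : ℕ} {s : St} {T : ℝ} (h : Drift lam w s T) :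
    ∑' y, ENNReal.ofReal (Pr lam (w, s) y) * VV y + 1 ≤ ENNReal.ofReal T := by
  obtain ⟨c1, c0, u, h1, h0, hu, hs, hf, hT⟩ := h
  obtain ⟨s0, s1⟩ := sc_pp w s
  have a1 := poi_bound hl hl1 h1 le_rfl (g := fun a => v (w - 1 + a) (nxt s true)) (by simpa using hs)
  have a2 := poi_bound hl hl1 h0 hu hf
  rw [Pr_sum hl]
  simp only [VV, valid_nxt, if_true]
  refine le_trans ?_ (ENNReal.ofReal_le_ofReal hT)
  rw [ENNReal.ofReal_add (by positivity) zero_le_one, ENNReal.ofReal_add (by positivity) (by positivity),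
    ENNReal.ofReal_mul s0, ENNReal.ofReal_mul s1, ENNReal.ofReal_one]
  rw [zero_mul, add_zero] at a1
  gcongr

lemma some_drift {lam : ℝ} (m t w : ℕ) (ht : t < N m) : ∃ T, Drift lam w (false, m, t) T := by
  have w0 : (0 : ℝ) ≤ w := by positivity
  have hn := N_big m
  obtain ⟨q1, -⟩ := q_mem m
  have ht' : (t : ℝ) + 1 ≤ N m := by exact_mod_cast ht
  have m0 := le_max_right ((w : ℝ) - N m / 2) 0
  have r0 : 0 ≤ 4104 * N m * (1 - 3 / N m : ℝ) ^ (N m - (t + 1)) := by positivity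
  refine ⟨_, mkD' (c1 := 2 ^ 17 * w + 2048 * N m) (c0 := 2 ^ 16 * w + 2 ^ 17 * max ((w : ℝ) - N m / 2) 0 +
    2048 * N m + 2 * (4104 * N m * (1 - 3 / N m : ℝ) ^ (N m - (t + 1))) + 2 * (N m - (t + 1)))
    (fun a => ?_) (fun a => ?_) (by positivity) (by linarith) le_rfl⟩
  · refine (B4 m _).2.trans ?_
    have a0 : (0 : ℝ) ≤ a := by positivity
    have a1 := cast_le w a
    linarith
  · refine (B1 m t _ ht).trans ?_
    have a0 : (0 : ℝ) ≤ a := by positivity
    have := max_add (w - N m / 2) a (y := ((w + a : ℕ) : ℝ) - N m / 2) (by push_cast; linarith)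
    unfold V1
    push_cast at this ⊢
    split_ifs <;> linarith

lemma N_mono {m n : ℕ} (h : m ≤ n) : N m ≤ N n := by
  rw [N_def, N_def]; exact Nat.pow_le_pow_right (by norm_num) (by omega)

lemma exists_pi {lam : ℝ} (hl0 : 0 < lam) (hl1 : lam ≤ 1 / 2 ^ 18) : ∃ π : ℕ × St → ℝ≥0∞,
    ∑' x, π x = 1 ∧ ∀ y, π y = ∑' x, π x * ENNReal.ofReal (Pr lam x y) := by
  classical
  obtain ⟨M, hM⟩ := pow_unbounded_of_one_lt (12 / lam) (show (1 : ℝ) < 2 by norm_num)
  have hM' : ∀ m, M ≤ m → 12 ≤ lam * N m := by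
    intro m hm
    rw [N_cast]
    rw [div_lt_iff₀ hl0] at hM
    have : (2 : ℝ) ^ M ≤ 2 ^ (m + 96) := pow_le_pow_right₀ (by norm_num) (by omega)
    nlinarith
  refine FL (fun x y => ENNReal.ofReal (Pr lam x y)) ?_ VV (0, (false, 0, 0)) ?_
    (((Finset.range (N 0)).image fun w => (w, (false, 0, 0))) ∪
      (Finset.range M).biUnion fun m => (Finset.range (N m)).image fun t => (0, (false, m, t))) ?_ ?_
  · rintro ⟨w, s⟩
    have h := Pr_sum hl0.le w s fun _ => 1
    have h1 : ∑' a, ENNReal.ofReal (poi lam a) = 1 := by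
      rw [← ENNReal.ofReal_tsum_of_nonneg (poi_nonneg hl0.le) (poi_sum lam).summable,
        (poi_sum lam).tsum_eq, ENNReal.ofReal_one]
    simp only [mul_one, h1] at h
    rw [h, ← ENNReal.ofReal_add (sc_pp w s).1 (sc_pp w s).2]
    simp
  · have : valid (false, 0, 0) := N_pos 0
    simp [VV, this]
  · rintro ⟨w, s⟩ h
    rw [Finset.mem_union, not_or] at h
    by_cases hs : valid s
    · obtain ⟨T, h1, h2⟩ := drift hl1 w s hs (by
        intro hw hs1
        obtain ⟨b, m, t⟩ := s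
        subst hw
        have hb : b = false := hs1
        subst hb
        refine hM' m ?_
        by_contra hm
        exact h.2 (Finset.mem_biUnion.2 ⟨m, Finset.mem_range.2 (not_le.1 hm),
          Finset.mem_image.2 ⟨t, Finset.mem_range.2 hs, rfl⟩⟩))
      have := VV_drift hl0.le hl1 h1
      rw [h2 fun h3 => h.1 (Finset.mem_image.2 ⟨w, Finset.mem_range.2 h3.2, by rw [h3.1]⟩)] at this
      simpa only [VV, hs, if_true] using this
    · simp [VV, hs]
  · intro x hx
    rcases Finset.mem_union.1 hx with hx | hx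
    · obtain ⟨w, -, rfl⟩ := Finset.mem_image.1 hx
      obtain ⟨T, h1⟩ := some_drift (lam := lam) 0 0 w (N_pos 0)
      exact ne_top_of_le_ne_top ENNReal.ofReal_ne_top (le_self_add.trans (VV_drift hl0.le hl1 h1))
    · obtain ⟨m, -, hx⟩ := Finset.mem_biUnion.1 hx
      obtain ⟨t, ht, rfl⟩ := Finset.mem_image.1 hx
      obtain ⟨T, h1⟩ := some_drift (lam := lam) m t 0 (Finset.mem_range.1 ht)
      exact ne_top_of_le_ne_top ENNReal.ofReal_ne_top (le_self_add.trans (VV_drift hl0.le hl1 h1))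

theorem main :
      ∃ f : ℝ → Bool → ℝ,
        (∀ p ∈ Set.Icc (0:ℝ) 1, ∀ b : Bool, f p b ∈ Set.Icc (0:ℝ) 1) ∧
        ∀ lam : ℝ, 0 < lam → lam ≤ 1 / 2 ^ 18 →
        ∃ π : ℕ → ℝ → ℝ,
          (∀ w p, 0 ≤ π w p) ∧
          (∀ w p, π w p ≠ 0 → p ∈ Set.Icc (0:ℝ) 1) ∧
          Summable (fun x : ℕ × ℝ => π x.1 x.2) ∧
          (∑' x : ℕ × ℝ, π x.1 x.2) = 1 ∧
          ∀ w' : ℕ, ∀ p' : ℝ,
            π w' p' = ∑' x : ℕ × ℝ, π x.1 x.2 *
              ((if x.1 ≤ w' + 1 ∧ f x.2 true = p' then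
                  ((x.1 : ℝ) * x.2 * (1 - x.2) ^ (x.1 - 1)) *
                    (Real.exp (-lam) * lam ^ (w' + 1 - x.1) / ((w' + 1 - x.1).factorial : ℝ))
                else 0) +
               (if x.1 ≤ w' ∧ f x.2 false = p' then
                  (1 - (x.1 : ℝ) * x.2 * (1 - x.2) ^ (x.1 - 1)) *
                    (Real.exp (-lam) * lam ^ (w' - x.1) / ((w' - x.1).factorial : ℝ))
                else 0)) := by
  classical
  set f : ℝ → Bool → ℝ := fun p b => Function.extend pp (fun s => pp (nxt s b)) 0 p with hf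
  have f1 : ∀ s b, f (pp s) b = pp (nxt s b) := fun s b => pp_inj.extend_apply _ _ s
  refine ⟨f, fun p _ b => ?_, fun lam hl0 hl1 => ?_⟩
  · by_cases h : ∃ s, pp s = p
    · obtain ⟨s, rfl⟩ := h
      rw [f1]; exact pp_mem _
    · simp [hf, Function.extend_apply' _ _ p h]
  obtain ⟨π, h1, h2⟩ := exists_pi hl0 hl1
  have hi : Function.Injective fun y : ℕ × St => ((y.1, pp y.2) : ℕ × ℝ) := by
    rintro ⟨w, s⟩ ⟨w', s'⟩ h
    simp only [Prod.mk.injEq] at h
    rw [h.1, pp_inj h.2]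
  set e := fun y : ℕ × St => ((y.1, pp y.2) : ℕ × ℝ) with he
  set π' : ℕ × ℝ → ℝ := Function.extend e (fun y => (π y).toReal) 0 with hπ'
  have e1 : ∀ y, π' (e y) = (π y).toReal := fun y => hi.extend_apply _ _ y
  have e2 : ∀ x, x ∉ Set.range e → π' x = 0 := fun x hx => Function.extend_apply' _ _ x hx
  have e3 : ∀ g : ℕ × ℝ → ℝ, ∑' x, π' x * g x = ∑' y, (π y).toReal * g (e y) := by
    intro g
    rw [← hi.tsum_eq]
    · simp only [e1]
    · intro x hx
      by_contra h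
      exact hx (by simp [e2 x h])
  have πt : ∀ y, π y ≠ ∞ := fun y => ne_top_of_le_ne_top (by simp [h1]) (ENNReal.le_tsum (f := π) y)
  refine ⟨fun w p => π' (w, p), fun w p => ?_, fun w p h => ?_, ?_, ?_, fun w' p' => ?_⟩
  · by_cases h : (w, p) ∈ Set.range e
    · obtain ⟨y, hy⟩ := h
      simp only [← hy, e1]; exact ENNReal.toReal_nonneg
    · exact (e2 _ h).ge
  · by_cases h' : (w, p) ∈ Set.range e
    · obtain ⟨y, hy⟩ := h'
      have h3 : pp y.2 = p := (Prod.ext_iff.1 hy).2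
      rw [← h3]; exact pp_mem _
    · exact absurd (e2 _ h') h
  · refine (hi.summable_iff e2).1 ?_
    have : π' ∘ e = fun y => (π y).toReal := funext e1
    rw [this]
    exact ENNReal.summable_toReal (by simp [h1])
  · have := e3 fun _ => 1
    simp only [mul_one] at this
    rw [this, ← ENNReal.tsum_toReal_eq πt, h1, ENNReal.toReal_one]
  · refine Eq.trans ?_ (e3 _).symm
    simp only [he, f1]
    by_cases h : ∃ s, pp s = p'
    · obtain ⟨s, rfl⟩ := h
      refine (e1 (w', s)).trans ?_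
      rw [h2, ENNReal.tsum_toReal_eq fun x => ENNReal.mul_ne_top (πt x) ENNReal.ofReal_ne_top]
      refine tsum_congr fun x => ?_
      rw [ENNReal.toReal_mul, ENNReal.toReal_ofReal (Pr_nonneg hl0.le _ _)]
      simp only [pp_inj.eq_iff]
      rfl
    · rw [e2 _ (by rintro ⟨y, hy⟩; exact h ⟨_, (Prod.ext_iff.1 hy).2⟩)]
      push Not at h
      simp [h]



end Pool.Agent.KS6_1.RF.Slot
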