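import Mathlib
import Pool.Graph.R_seed8.Helper278.GroupMain

set_option autoImplicit false
set_option linter.unusedSectionVars false
set_option linter.unusedVariables false

open scoped ComplexOrder Topology
open Filter

namespace Pool.Agent.KS6_1.RF.UBasis

open Pool.Agent.Helper278 (TrAlg IsRad n2 atm Idx ExtProp FarProp ConjProp Adm exists_adm adm_n2 exists_seq isRad_zero pvm_atm atm_comm n2_nonneg)

universe u v

variable {A : Type u} [Ring A] [StarRing A] [Algebra ℂ A] [StarModule ℂ A] {σ : A →ₗ[ℂ] ℂ}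

/-- Finite Rademacher prefixes extend to infinite Rademacher sequences. -/
def ExtProp (σ : A →ₗ[ℂ] ℂ) : Prop :=
  ∀ (s : ℕ → A) (m : ℕ), IsRad σ s m → ∃ t : ℕ → A, (∀ i < m, t i = s i) ∧ ∀ k, IsRad σ t k

/-- Symmetries orthogonal to countable sets. -/
def FarProp (σ : A →ₗ[ℂ] ℂ) : Prop :=
  ∀ s : ℕ → A, (∀ k, IsRad σ s k) → ∀ Y : Set A, Y.Countable →
    ∃ b : A, star b = b ∧ b * b = 1 ∧ (∀ j, b * s j = s j * b) ∧ ∀ y ∈ Y, σ (b * y) = 0

/-- Infinite Rademacher sequences are unitarily conjugate. -/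
def ConjProp (σ : A →ₗ[ℂ] ℂ) : Prop :=
  ∀ s t : ℕ → A, (∀ k, IsRad σ s k) → (∀ k, IsRad σ t k) →
    ∃ w : A, star w * w = 1 ∧ w * star w = 1 ∧ ∀ j, w * s j * star w = t j

theorem TrAlg.n2_iso (h : TrAlg σ) {z : A} (hz : star z * z = 1) : n2 σ z = 1 := by
  unfold n2
  rw [hz, h.one, Complex.one_re, Real.sqrt_one]

section

variable {G : Type v} [Group G] (u : G →* unitary A)

theorem um (g : G) : star (u g : A) * (u g : A) = 1 := Unitary.coe_star_mul_self (u g)

theorem um' (g : G) : (u g : A) * star (u g : A) = 1 := Unitary.coe_mul_star_self (u g)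

theorem umul (g k : G) : (u (g * k) : A) = (u g : A) * (u k : A) := by rw [map_mul]; rfl

theorem uinv (g : G) : (u g⁻¹ : A) = star (u g : A) := by rw [map_inv]; rfl

/-- Parseval's identity for the family `u`. -/
def Parseval (σ : A →ₗ[ℂ] ℂ) (u : G →* unitary A) : Prop :=
  ∀ x : A, HasSum (fun g => ‖σ (star (u g : A) * x)‖ ^ 2) ((n2 σ x) ^ 2)

variable {u}

theorem coef_le (h : TrAlg σ) (x : A) (g : G) : ‖σ (star (u g : A) * x)‖ ≤ n2 σ x := by
  have := h.cauchy (u g : A) x
  rwa [h.n2_iso (um u g), one_mul] at this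

theorem orthonormal (h : TrAlg σ) (hP : Parseval σ u) (g k : G) (hgk : g ≠ k) :
    σ (star (u g : A) * (u k : A)) = 0 := by
  classical
  have h1 := hP (u k : A)
  rw [h.n2_iso (um u k), one_pow] at h1
  have h2 := sum_le_hasSum ({g, k} : Finset G) (fun i _ => sq_nonneg _) h1
  rw [Finset.sum_pair hgk, um u k, h.one, norm_one, one_pow] at h2
  have h3 : ‖σ (star (u g : A) * (u k : A))‖ ^ 2 = 0 :=
    le_antisymm (by linarith) (sq_nonneg _)
  exact norm_eq_zero.1 (pow_eq_zero_iff two_ne_zero |>.1 h3)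

theorem approx (h : TrAlg σ) (hP : Parseval σ u) (x : A) (ε : ℝ) (hε : 0 < ε) :
    ∃ E : Finset G, n2 σ (x - ∑ g ∈ E, σ (star (u g : A) * x) • (u g : A)) ≤ ε := by
  classical
  have h1 := hP x
  have h2 : ∀ᶠ E in (atTop : Filter (Finset G)),
      (n2 σ x) ^ 2 - ε ^ 2 < ∑ g ∈ E, ‖σ (star (u g : A) * x)‖ ^ 2 :=
    h1.eventually (lt_mem_nhds (by linarith [pow_pos hε 2]))
  obtain ⟨E, hE⟩ := h2.exists
  refine ⟨E, ?_⟩
  set c : G → ℂ := fun g => σ (star (u g : A) * x) with hc
  set y : A := ∑ g ∈ E, c g • (u g : A) with hy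
  have hcc : ∀ g, star (c g) * c g = ((‖c g‖ ^ 2 : ℝ) : ℂ) := by
    intro g
    rw [mul_comm, Complex.star_def, Complex.mul_conj, Complex.normSq_eq_norm_sq]
  have hsy : star y = ∑ g ∈ E, star (c g) • star (u g : A) := by
    rw [hy, star_sum]
    exact Finset.sum_congr rfl fun g _ => star_smul _ _
  have e1 : σ (star y * x) = ((∑ g ∈ E, ‖c g‖ ^ 2 : ℝ) : ℂ) := by
    rw [hsy, Finset.sum_mul, map_sum, Complex.ofReal_sum]
    refine Finset.sum_congr rfl fun g _ => ?_
    rw [smul_mul_assoc, map_smul, smul_eq_mul]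
    exact hcc g
  have e2 : σ (star x * y) = ((∑ g ∈ E, ‖c g‖ ^ 2 : ℝ) : ℂ) := by
    have : star x * y = star (star y * x) := by rw [star_mul, star_star]
    rw [this, h.conj, e1, Complex.star_def, Complex.conj_ofReal]
  have e3 : σ (star y * y) = ((∑ g ∈ E, ‖c g‖ ^ 2 : ℝ) : ℂ) := by
    rw [hsy, Finset.sum_mul, map_sum, Complex.ofReal_sum]
    refine Finset.sum_congr rfl fun g hg => ?_
    rw [smul_mul_assoc, map_smul, smul_eq_mul, hy, Finset.mul_sum, map_sum,
      Finset.sum_eq_single g]
    · rw [mul_smul_comm, map_smul, um u g, h.one, smul_eq_mul, mul_one]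
      exact hcc g
    · intro k _ hk
      rw [mul_smul_comm, map_smul, orthonormal h hP g k (Ne.symm hk), smul_zero]
    · intro hg'
      exact absurd hg hg'
  have e4 : n2 σ (x - y) ^ 2 = (n2 σ x) ^ 2 - ∑ g ∈ E, ‖c g‖ ^ 2 := by
    rw [h.n2_sq, h.n2_sq]
    have : star (x - y) * (x - y) = star x * x - star x * y - star y * x + star y * y := by
      rw [star_sub]; noncomm_ring
    rw [this, map_add, map_sub, map_sub, e1, e2, e3, Complex.add_re, Complex.sub_re,
      Complex.sub_re, Complex.ofReal_re]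
    ring
  have e5 : n2 σ (x - y) ^ 2 ≤ ε ^ 2 := by
    rw [e4]
    have : (n2 σ x) ^ 2 - ε ^ 2 < ∑ g ∈ E, ‖c g‖ ^ 2 := hE
    linarith
  exact (pow_le_pow_iff_left₀ (n2_nonneg _ _) hε.le two_ne_zero).1 e5

/-- Conjugation by a fixed unitary does not increase small heights too much. -/
theorem height (h : TrAlg σ) (hP : Parseval σ u) (w : A) (hw1 : star w * w = 1)
    (hw2 : w * star w = 1) (ε : ℝ) (hε : 0 < ε) :
    ∃ K : ℝ, 0 ≤ K ∧ ∀ v : A, star v * v = 1 → v * star v = 1 → ∀ δ : ℝ,
      (∀ g, ‖σ (star (u g : A) * v)‖ ≤ δ) →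
        ∀ g, ‖σ (star (u g : A) * (w * v * star w))‖ ≤ K * δ + ε := by
  classical
  obtain ⟨E1, hE1⟩ := approx h hP w (ε / 2) (by positivity)
  set ε2 : ℝ := ε / (2 * ((E1.card : ℝ) + 1)) with hε2
  have hε2p : 0 < ε2 := by positivity
  obtain ⟨E2, hE2⟩ := approx h hP w ε2 hε2p
  set a : G → ℂ := fun g => σ (star (u g : A) * w) with ha
  have ha1 : ∀ g, ‖a g‖ ≤ 1 := by
    intro g
    have := coef_le (u := u) h w g
    rwa [h.n2_iso hw1] at this
  set r1 : A := w - ∑ g ∈ E1, a g • (u g : A) with hr1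
  set r2 : A := w - ∑ g ∈ E2, a g • (u g : A) with hr2
  refine ⟨E1.card * E2.card, by positivity, ?_⟩
  intro v hv1 hv2 δ hδ g
  have hδ0 : 0 ≤ δ := (norm_nonneg _).trans (hδ 1)
  have hw : w = r1 + ∑ k ∈ E1, a k • (u k : A) := by rw [hr1, sub_add_cancel]
  have hsw : star w = star r2 + ∑ l ∈ E2, star (a l) • star (u l : A) := by
    have h1 : star r2 = star w - ∑ l ∈ E2, star (a l) • star (u l : A) := by
      rw [hr2, star_sub, star_sum]
      congr 1
      exact Finset.sum_congr rfl fun l _ => star_smul _ _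
    rw [h1, sub_add_cancel]
  -- inner estimate
  have hin : ∀ k, ‖σ (star (u g : A) * (u k : A) * v * star w)‖ ≤ E2.card * δ + ε2 := by
    intro k
    have hterm : ∀ l, ‖σ (star (u g : A) * (u k : A) * v * star (u l : A))‖ ≤ δ := by
      intro l
      have e : σ (star (u g : A) * (u k : A) * v * star (u l : A)) =
          σ (star (u (k⁻¹ * g * l) : A) * v) := by
        rw [h.comm, umul, umul, star_mul, star_mul, uinv, star_star]
        congr 1
        noncomm_ring
      rw [e]
      exact hδ _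
    have e1 : star (u g : A) * (u k : A) * v * star w = star (u g : A) * (u k : A) * v * star r2 +
        ∑ l ∈ E2, star (a l) • (star (u g : A) * (u k : A) * v * star (u l : A)) := by
      conv_lhs => rw [hsw]
      rw [mul_add, Finset.mul_sum]
      congr 1
      exact Finset.sum_congr rfl fun l _ => mul_smul_comm _ _ _
    rw [e1, map_add, map_sum]
    refine (norm_add_le _ _).trans ?_
    have e2 : ‖σ (star (u g : A) * (u k : A) * v * star r2)‖ ≤ ε2 := by
      refine (h.cauchy' _ _).trans ?_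
      have h3 : n2 σ (star (u g : A) * (u k : A) * v) = 1 := by
        apply h.n2_iso
        rw [star_mul, star_mul, star_star]
        calc star v * (star (u k : A) * (u g : A)) * (star (u g : A) * (u k : A) * v)
            = star v * (star (u k : A) * ((u g : A) * star (u g : A)) * (u k : A)) * v := by
              noncomm_ring
          _ = 1 := by rw [um', mul_one, um, mul_one, hv1]
      rw [h3, one_mul, h.n2_star]
      exact hE2
    have e3 : ‖∑ l ∈ E2, σ (star (a l) • (star (u g : A) * (u k : A) * v * star (u l : A)))‖ ≤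
        E2.card * δ := by
      refine (norm_sum_le _ _).trans ?_
      rw [← nsmul_eq_mul]
      refine Finset.sum_le_card_nsmul _ _ _ fun l _ => ?_
      rw [map_smul, norm_smul, norm_star]
      calc ‖a l‖ * ‖σ (star (u g : A) * (u k : A) * v * star (u l : A))‖ ≤ 1 * δ :=
            mul_le_mul (ha1 l) (hterm l) (norm_nonneg _) zero_le_one
        _ = δ := one_mul δ
    linarith
  have e1 : star (u g : A) * (w * v * star w) = star (u g : A) * r1 * (v * star w) +
      ∑ k ∈ E1, a k • (star (u g : A) * (u k : A) * v * star w) := by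
    have e0 : star (u g : A) * (w * v * star w) =
        star (u g : A) * (r1 + ∑ k ∈ E1, a k • (u k : A)) * (v * star w) := by
      rw [← hw]
      simp only [mul_assoc]
    rw [e0, mul_add, add_mul, Finset.mul_sum, Finset.sum_mul]
    congr 1
    refine Finset.sum_congr rfl fun k _ => ?_
    rw [mul_smul_comm, smul_mul_assoc, ← mul_assoc]
  rw [e1, map_add, map_sum]
  refine (norm_add_le _ _).trans ?_
  have e2 : ‖σ (star (u g : A) * r1 * (v * star w))‖ ≤ ε / 2 := by
    rw [h.comm, ← mul_assoc]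
    refine (h.cauchy' _ _).trans ?_
    have h3 : n2 σ (v * star w * star (u g : A)) = 1 := by
      apply h.n2_iso
      rw [star_mul, star_mul, star_star, star_star]
      calc (u g : A) * (w * star v) * (v * star w * star (u g : A))
          = (u g : A) * (w * (star v * v) * star w) * star (u g : A) := by noncomm_ring
        _ = 1 := by rw [hv1, mul_one, hw2, mul_one, um']
    rw [h3, one_mul]
    exact hE1
  have e3 : ‖∑ k ∈ E1, σ (a k • (star (u g : A) * (u k : A) * v * star w))‖ ≤
      E1.card * (E2.card * δ + ε2) := by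
    refine (norm_sum_le _ _).trans ?_
    rw [← nsmul_eq_mul]
    refine Finset.sum_le_card_nsmul _ _ _ fun k _ => ?_
    rw [map_smul, norm_smul]
    calc ‖a k‖ * ‖σ (star (u g : A) * (u k : A) * v * star w)‖ ≤ 1 * (E2.card * δ + ε2) :=
          mul_le_mul (ha1 k) (hin k) (norm_nonneg _) zero_le_one
      _ = _ := one_mul _
  have e4 : (E1.card : ℝ) * ε2 ≤ ε / 2 := by
    rw [hε2]
    have hc : (0 : ℝ) ≤ E1.card := Nat.cast_nonneg _
    have h5 : (0 : ℝ) < 2 * ((E1.card : ℝ) + 1) := by linarith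
    rw [mul_div_assoc', div_le_div_iff₀ h5 two_pos]
    nlinarith
  calc ‖σ (star (u g : A) * r1 * (v * star w))‖ +
      ‖∑ k ∈ E1, σ (a k • (star (u g : A) * (u k : A) * v * star w))‖
      ≤ ε / 2 + E1.card * (E2.card * δ + ε2) := add_le_add e2 e3
    _ = E1.card * E2.card * δ + (ε / 2 + E1.card * ε2) := by ring
    _ ≤ E1.card * E2.card * δ + ε := by linarith

/-- admissible extensions -/
def Adm (σ : A → ℂ) (s : ℕ → A) (m : ℕ) (b : A) : Prop :=
  star b = b ∧ b * b = 1 ∧ (∀ i < m, b * s i = s i * b) ∧ ∀ i : Idx m, σ (atm s m i * b) = 0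

theorem Adm.congr {s s' : ℕ → A} {m : ℕ} {b : A} (hb : Adm σ s m b) (h : ∀ i < m, s i = s' i) :
    Adm σ s' m b :=
  ⟨hb.1, hb.2.1, fun i hi => by rw [← h i hi]; exact hb.2.2.1 i hi, fun i => by
    rw [← atm_congr s s' m h i]; exact hb.2.2.2 i⟩

theorem exists_adm (hE : ExtProp σ) (s : ℕ → A) (m : ℕ) (hs : IsRad σ s m) : ∃ b, Adm σ s m b := by
  obtain ⟨t, ht, htr⟩ := hE s m hs
  have h1 := htr (m + 1)
  have h2 : Adm σ t m (t m) := ⟨h1.1.sa m (by omega), h1.1.sq m (by omega),
    fun i hi => h1.1.comm m (by omega) i (by omega), fun i => h1.orth i⟩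
  exact ⟨t m, h2.congr ht⟩

theorem adm_n2 (h : TrAlg σ) {s : ℕ → A} {m : ℕ} {b : A} (hb : Adm σ s m b) : n2 σ b = 1 := by
  apply h.n2_iso
  rw [hb.1, hb.2.1]

theorem greedy (h : TrAlg σ) (hE : ExtProp σ) (hF : FarProp σ) (hP : Parseval σ u) :
    ∃ s : ℕ → A, (∀ m, IsRad σ s m) ∧ ∃ c : ℝ, 0 < c ∧ ∀ m, ∃ g, c ≤ ‖σ (star (u g : A) * s m)‖ := by
  classical
  obtain ⟨s, hs⟩ := exists_seq (0 : A)
    (fun m s => IsRad σ s m ∧ ∀ k < m, ∀ b, Adm σ s k b → ∀ g : G, ∃ g' : G,
      ‖σ (star (u g : A) * b)‖ ≤ 2 * ‖σ (star (u g' : A) * s k)‖)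
    (by
      rintro m s s' hss ⟨h1, h2⟩
      refine ⟨h1.congr hss, fun k hk b hb g => ?_⟩
      have h3 : ∀ i < k, s' i = s i := fun i hi => (hss i (by omega)).symm
      obtain ⟨g', hg'⟩ := h2 k hk b (hb.congr h3) g
      refine ⟨g', ?_⟩
      rw [← hss k hk]
      exact hg')
    (fun s => ⟨isRad_zero h.one s, fun k hk => absurd hk (by omega)⟩)
    (by
      rintro m s ⟨h1, h2⟩
      have hu : ∀ b, ∀ i < m, s i = Function.update s m b i := fun b i hi =>
        (Function.update_of_ne (by omega) _ _).symm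
      have key : ∃ b, Adm σ s m b ∧ ∀ b', Adm σ s m b' → ∀ g : G, ∃ g' : G,
          ‖σ (star (u g : A) * b')‖ ≤ 2 * ‖σ (star (u g' : A) * b)‖ := by
        obtain ⟨b0, hb0⟩ := exists_adm hE s m h1
        let V : Set ℝ := {r | ∃ b, ∃ g : G, Adm σ s m b ∧ r = ‖σ (star (u g : A) * b)‖}
        have hV : BddAbove V := by
          refine ⟨1, ?_⟩
          rintro r ⟨b, g, hb, rfl⟩
          have := coef_le (u := u) h b g
          rwa [adm_n2 h hb] at this
        have hVn : V.Nonempty := ⟨_, b0, 1, hb0, rfl⟩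
        by_cases hM : sSup V ≤ 0
        · refine ⟨b0, hb0, fun b' hb' g => ⟨1, ?_⟩⟩
          have h3 : ‖σ (star (u g : A) * b')‖ ≤ sSup V := le_csSup hV ⟨b', g, hb', rfl⟩
          have h4 := norm_nonneg (σ (star (u (1 : G) : A) * b0))
          linarith
        · push Not at hM
          obtain ⟨r, ⟨b, g', hb, rfl⟩, hr⟩ := exists_lt_of_lt_csSup hVn
            (show sSup V / 2 < sSup V by linarith)
          refine ⟨b, hb, fun b' hb' g => ⟨g', ?_⟩⟩
          have h3 : ‖σ (star (u g : A) * b')‖ ≤ sSup V := le_csSup hV ⟨b', g, hb', rfl⟩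
          linarith
      obtain ⟨b, hb, hb2⟩ := key
      refine ⟨b, h1.extend b hb.1 hb.2.1 hb.2.2.1 hb.2.2.2, fun k hk => ?_⟩
      rcases Nat.lt_succ_iff_lt_or_eq.1 hk with h3 | rfl
      · intro b' hb' g
        have h4 : ∀ i < k, Function.update s m b i = s i := fun i hi => (hu b i (by omega)).symm
        rw [← hu b k h3]
        exact h2 k h3 b' (hb'.congr h4) g
      · intro b' hb' g
        have h4 : ∀ i < k, Function.update s k b i = s i := fun i hi => (hu b i hi).symm
        rw [Function.update_self]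
        exact hb2 b' (hb'.congr h4) g)
  refine ⟨s, fun m => (hs m).1, ?_⟩
  obtain ⟨b, hb1, hb2, hb3, hb4⟩ := hF s (fun m => (hs m).1)
    (Set.range (fun p : (Σ m, Idx m) => atm s p.1 p.2)) (Set.countable_range _)
  have hadm : ∀ m, Adm σ s m b := fun m => ⟨hb1, hb2, fun i _ => hb3 i, fun i => by
    rw [h.comm]; exact hb4 _ ⟨⟨m, i⟩, rfl⟩⟩
  obtain ⟨g, hg⟩ : ∃ g : G, σ (star (u g : A) * b) ≠ 0 := by
    by_contra hne
    push Not at hne
    have h1 := hP b
    have h2 : (fun g => ‖σ (star (u g : A) * b)‖ ^ 2) = fun _ => 0 := by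
      funext g
      rw [hne g, norm_zero]
      norm_num
    rw [h2, adm_n2 h (hadm 0)] at h1
    have := h1.unique hasSum_zero
    norm_num at this
  refine ⟨‖σ (star (u g : A) * b)‖ / 2, by positivity, fun m => ?_⟩
  obtain ⟨g', hg'⟩ := (hs (m + 1)).2 m (Nat.lt_succ_self m) b (hadm m) g
  exact ⟨g', by linarith⟩

theorem flat_step (h : TrAlg σ) (hE : ExtProp σ) (hF : FarProp σ) (hP : Parseval σ u)
    (z : ℕ → A) (m : ℕ) (hz : IsRad σ z m) :
    ∃ b, Adm σ z m b ∧ ∀ g, ‖σ (star (u g : A) * b)‖ ≤ (1 / 2) ^ m := by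
  classical
  obtain ⟨t, ht, htr⟩ := hE z m hz
  have hPV := pvm_atm z m hz.1
  have hτ : ∀ i : Idx m, σ (atm z m i) = (1 / 2 : ℂ) ^ m := hz.2 m le_rfl
  have key : ∀ F : Finset (Idx m), ∃ b : A, star b = b ∧ b * b = ∑ i ∈ F, atm z m i ∧
      (∀ i < m, b * z i = z i * b) ∧ (∀ i, i ∉ F → b * atm z m i = 0) ∧
      (∀ i : Idx m, σ (atm z m i * b) = 0) ∧ ∀ g, ‖σ (star (u g : A) * b)‖ ≤ (1 / 2) ^ m := by
    intro F
    induction F using Finset.induction_on with
    | empty =>
      refine ⟨0, star_zero _, by simp, fun i _ => by simp, fun i _ => by simp, fun i => by simp,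
        fun g => ?_⟩
      rw [mul_zero, map_zero, norm_zero]
      positivity
    | insert i F hi ih =>
      obtain ⟨b, hb1, hb2, hb3, hb4, hb5, hb6⟩ := ih
      have hsupp : {g : G | σ (star (u g : A) * b) ≠ 0}.Countable := by
        have h1 := (hP b).summable.countable_support
        refine h1.mono fun g hg => ?_
        rw [Function.mem_support]
        have : ‖σ (star (u g : A) * b)‖ ≠ 0 := norm_ne_zero_iff.2 hg
        positivity
      let Y : Set A := (fun g => star (u g : A) * atm z m i) '' {g : G | σ (star (u g : A) * b) ≠ 0} ∪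
        Set.range (fun k : Idx m => atm z m k * atm z m i)
      have hY : Y.Countable := (hsupp.image _).union (Set.countable_range _)
      obtain ⟨d, hd1, hd2, hd3, hd4⟩ := hF t htr Y hY
      have hdz : ∀ j < m, d * z j = z j * d := fun j hj => by rw [← ht j hj]; exact hd3 j
      have hde : ∀ k : Idx m, d * atm z m k = atm z m k * d := fun k => atm_comm z m d hdz k
      have hbe : ∀ k : Idx m, b * atm z m k = atm z m k * b := fun k => atm_comm z m b hb3 k
      have hze : ∀ j < m, ∀ k : Idx m, z j * atm z m k = atm z m k * z j := fun j hj k =>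
        atm_comm z m (z j) (fun l hl => hz.1.comm j hj l hl) k
      have hbi : b * atm z m i = 0 := hb4 i hi
      have hib : atm z m i * b = 0 := by rw [← hbe]; exact hbi
      have hee := hPV.idem i
      have hes := hPV.star_eq i
      refine ⟨b + atm z m i * d, ?_, ?_, ?_, ?_, ?_, ?_⟩
      · rw [star_add, star_mul, hb1, hd1, hes, hde]
      · rw [Finset.sum_insert hi, ← hb2]
        have e1 : b * (atm z m i * d) = 0 := by rw [← mul_assoc, hbi, zero_mul]
        have e2 : atm z m i * d * b = 0 := by rw [← hde, mul_assoc, hib, mul_zero]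
        have e3 : atm z m i * d * (atm z m i * d) = atm z m i := by
          calc atm z m i * d * (atm z m i * d) = atm z m i * (d * atm z m i) * d := by
                noncomm_ring
            _ = (atm z m i * atm z m i) * (d * d) := by rw [hde]; noncomm_ring
            _ = atm z m i := by rw [hee, hd2, mul_one]
        rw [add_mul, mul_add, mul_add, e1, e2, e3]
        abel
      · intro j hj
        rw [add_mul, mul_add, hb3 j hj, mul_assoc, hdz j hj, ← mul_assoc, ← hze j hj i, mul_assoc]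
      · intro k hk
        rw [Finset.mem_insert, not_or] at hk
        rw [add_mul, hb4 k hk.2, mul_assoc, hde, ← mul_assoc, hPV.orth i k (Ne.symm hk.1),
          zero_mul, add_zero]
      · intro k
        rw [mul_add, map_add, hb5 k, zero_add, ← mul_assoc, h.comm]
        exact hd4 _ (Or.inr ⟨k, rfl⟩)
      · intro g
        rw [mul_add, map_add]
        by_cases hg : σ (star (u g : A) * b) = 0
        · rw [hg, zero_add]
          have e1 : star (u g : A) * (atm z m i * d) = (star (u g : A) * atm z m i) *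
              (atm z m i * d) := by
            calc star (u g : A) * (atm z m i * d) = star (u g : A) * (atm z m i * atm z m i) * d := by
                  rw [hee]; noncomm_ring
              _ = _ := by noncomm_ring
          rw [e1]
          refine (h.cauchy' _ _).trans ?_
          have hpow : Real.sqrt ((1 / 2) ^ m) * Real.sqrt ((1 / 2) ^ m) = (1 / 2) ^ m :=
            Real.mul_self_sqrt (by positivity)
          have hre : ((1 / 2 : ℂ) ^ m).re = (1 / 2 : ℝ) ^ m := by
            have : ((1 / 2 : ℂ) ^ m) = (((1 / 2 : ℝ) ^ m : ℝ) : ℂ) := by push_cast; rfl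
            rw [this, Complex.ofReal_re]
          have f1 : n2 σ (star (u g : A) * atm z m i) = Real.sqrt ((1 / 2) ^ m) := by
            unfold n2
            rw [star_mul, star_star, hes]
            have : atm z m i * (u g : A) * (star (u g : A) * atm z m i) =
                atm z m i * ((u g : A) * star (u g : A)) * atm z m i := by noncomm_ring
            rw [this, um', mul_one, hee, hτ, hre]
          have f2 : n2 σ (atm z m i * d) = Real.sqrt ((1 / 2) ^ m) := by
            unfold n2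
            rw [star_mul, hd1, hes]
            have : d * atm z m i * (atm z m i * d) = atm z m i := by
              calc d * atm z m i * (atm z m i * d) = d * (atm z m i * atm z m i) * d := by
                    noncomm_ring
                _ = atm z m i * (d * d) := by rw [hee, hde]; noncomm_ring
                _ = _ := by rw [hd2, mul_one]
            rw [this, hτ, hre]
          rw [f1, f2, hpow]
        · have e1 : σ (star (u g : A) * (atm z m i * d)) = 0 := by
            rw [← mul_assoc, h.comm]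
            exact hd4 _ (Or.inl ⟨g, hg, rfl⟩)
          rw [e1, add_zero]
          exact hb6 g
  obtain ⟨b, hb1, hb2, hb3, hb4, hb5, hb6⟩ := key Finset.univ
  exact ⟨b, ⟨hb1, by rw [hb2, hPV.sum], hb3, hb5⟩, hb6⟩

theorem flat (h : TrAlg σ) (hE : ExtProp σ) (hF : FarProp σ) (hP : Parseval σ u) :
    ∃ z : ℕ → A, (∀ m, IsRad σ z m) ∧ ∀ m g, ‖σ (star (u g : A) * z m)‖ ≤ (1 / 2) ^ m := by
  classical
  obtain ⟨z, hz⟩ := exists_seq (0 : A)
    (fun m z => IsRad σ z m ∧ ∀ k < m, ∀ g : G, ‖σ (star (u g : A) * z k)‖ ≤ (1 / 2) ^ k)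
    (by
      rintro m s s' hss ⟨h1, h2⟩
      refine ⟨h1.congr hss, fun k hk g => ?_⟩
      rw [← hss k hk]
      exact h2 k hk g)
    (fun s => ⟨isRad_zero h.one s, fun k hk => absurd hk (by omega)⟩)
    (by
      rintro m z ⟨h1, h2⟩
      obtain ⟨b, hb, hb2⟩ := flat_step h hE hF hP z m h1
      refine ⟨b, h1.extend b hb.1 hb.2.1 hb.2.2.1 hb.2.2.2, fun k hk => ?_⟩
      rcases Nat.lt_succ_iff_lt_or_eq.1 hk with h3 | rfl
      · intro g
        rw [Function.update_of_ne (by omega)]
        exact h2 k h3 g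
      · intro g
        rw [Function.update_self]
        exact hb2 g)
  exact ⟨z, fun m => (hz m).1, fun m g => (hz (m + 1)).2 m (Nat.lt_succ_self m) g⟩

/-- No group of unitaries satisfies Parseval's identity. -/
theorem no_basis (h : TrAlg σ) (hE : ExtProp σ) (hF : FarProp σ) (hC : ConjProp σ)
    (hP : Parseval σ u) : False := by
  obtain ⟨s, hs, c, hc, hsc⟩ := greedy h hE hF hP
  obtain ⟨z, hz, hzc⟩ := flat h hE hF hP
  obtain ⟨w, hw1, hw2, hw⟩ := hC z s hz hs
  obtain ⟨K, hK, hKh⟩ := height h hP w hw1 hw2 (c / 2) (by positivity)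
  obtain ⟨m, hm⟩ := exists_pow_lt_of_lt_one (show 0 < c / (2 * (K + 1)) by positivity)
    (show (1 / 2 : ℝ) < 1 by norm_num)
  obtain ⟨g, hg⟩ := hsc m
  have hzz : z m * z m = 1 := (hz (m + 1)).1.sq m (Nat.lt_succ_self m)
  have hzs : star (z m) = z m := (hz (m + 1)).1.sa m (Nat.lt_succ_self m)
  have h1 := hKh (z m) (by rw [hzs, hzz]) (by rw [hzs, hzz]) _ (hzc m) g
  rw [hw m] at h1
  have h2 : K * (1 / 2) ^ m < c / 2 := by
    rw [lt_div_iff₀ (by positivity)] at hm
    nlinarith [pow_pos (show (0 : ℝ) < 1 / 2 by norm_num) m]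
  linarith

end

end Pool.Agent.KS6_1.RF.UBasis
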